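import Pool.Agent.Lib.MP_708a61_C.Annulus

/-! Task D (Cross): behaviour at double and triple points. Here `f n` is a function on
`ℂ × ℂ × ℂ`, only its values on the level set matter. -/

open Set Filter Topology MeasureTheory
open scoped ENNReal NNReal

namespace Pool.Agent.K708C

/-- the tridisc -/
def tridisc (r : ℝ) : Set (ℂ × ℂ × ℂ) := {z | ‖z.1‖ < r ∧ ‖z.2.1‖ < r ∧ ‖z.2.2‖ < r}

/-- The compact form of `LimAt`. -/
theorem LimAt.of_compact {P E : Type*} [TopologicalSpace P] [TopologicalSpace E]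
    {u : Ultrafilter ℕ} {T : P → ℂ} {t : ℕ → ℂ} {f : ℕ → P → E} {e : E} {K : Set P}
    (hK : IsCompact K) (h : ∀ x ∈ K, LimAt u T t f x e) {O : Set E} (hO : O ∈ 𝓝 e) :
    ∃ W : Set P, IsOpen W ∧ K ⊆ W ∧
      ∀ᶠ n in (u : Filter ℕ), ∀ w ∈ W, T w = t n → f n w ∈ O := by
  refine hK.induction_on (p := fun K => ∃ W : Set P, IsOpen W ∧ K ⊆ W ∧
      ∀ᶠ n in (u : Filter ℕ), ∀ w ∈ W, T w = t n → f n w ∈ O) ?_ ?_ ?_ ?_
  · exact ⟨∅, isOpen_empty, subset_rfl, Eventually.of_forall fun n w hw => hw.elim⟩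
  · rintro s s' hss ⟨W, hW, hs, hn⟩
    exact ⟨W, hW, hss.trans hs, hn⟩
  · rintro s s' ⟨W, hW, hs, hn⟩ ⟨W', hW', hs', hn'⟩
    refine ⟨W ∪ W', hW.union hW', union_subset_union hs hs', ?_⟩
    filter_upwards [hn, hn'] with n h1 h2 w hw
    rcases hw with hw | hw
    · exact h1 w hw
    · exact h2 w hw
  · intro x hx
    obtain ⟨W, hW, hn⟩ := h x hx O hO
    refine ⟨interior W, mem_nhdsWithin_of_mem_nhds (interior_mem_nhds.2 hW), interior W,
      isOpen_interior, subset_rfl, ?_⟩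
    filter_upwards [hn] with n h1 w hw
    exact h1 w (interior_subset hw)

/-- The compact form of `LimAt` with a uniform distance. -/
theorem LimAt.of_compact_dist {P E : Type*} [PseudoMetricSpace P] [TopologicalSpace E]
    {u : Ultrafilter ℕ} {T : P → ℂ} {t : ℕ → ℂ} {f : ℕ → P → E} {e : E} {K : Set P}
    (hK : IsCompact K) (h : ∀ x ∈ K, LimAt u T t f x e) {O : Set E} (hO : O ∈ 𝓝 e) :
    ∃ η : ℝ, 0 < η ∧ ∀ᶠ n in (u : Filter ℕ), ∀ w : P, (∃ x ∈ K, dist w x < η) →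
      T w = t n → f n w ∈ O := by
  obtain ⟨W, hW, hKW, hn⟩ := LimAt.of_compact hK h hO
  obtain ⟨η, hη, hsub⟩ := hK.exists_thickening_subset_open hW hKW
  refine ⟨η, hη, ?_⟩
  filter_upwards [hn] with n h1 w hw
  exact h1 w (hsub (Metric.mem_thickening_iff.2 hw))

/-- D1. Double points: `T = z₁ z₂`. -/
theorem double_point {E : Type*} [TopologicalSpace E] [T2Space E] (τ : Tor E)
    (u : Ultrafilter ℕ) {t : ℕ → ℂ} (ht : Tendsto t (u : Filter ℕ) (𝓝 0)) (ht0 : ∀ n, t n ≠ 0)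
    {r : ℝ} (hr : 0 < r) (f : ℕ → ℂ × ℂ × ℂ → E)
    (hol : ∀ n, ∃ a, HolOn τ (fun w : ℂ × ℂ => f n (w.1, t n / w.1, w.2)) a
      {w : ℂ × ℂ | ‖t n‖ < r * ‖w.1‖ ∧ ‖w.1‖ < r ∧ ‖w.2‖ < r})
    {c₁ c₂ : E}
    (h₁ : ∀ x z : ℂ, x ≠ 0 → (x, (0 : ℂ), z) ∈ tridisc r →
      LimAt u (fun p : ℂ × ℂ × ℂ => p.1 * p.2.1) t f (x, 0, z) c₁)
    (h₂ : ∀ y z : ℂ, y ≠ 0 → ((0 : ℂ), y, z) ∈ tridisc r →
      LimAt u (fun p : ℂ × ℂ × ℂ => p.1 * p.2.1) t f (0, y, z) c₂) :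
    c₁ = c₂ ∧ ∀ z : ℂ, ‖z‖ < r →
      LimAt u (fun p : ℂ × ℂ × ℂ => p.1 * p.2.1) t f (0, 0, z) c₁ := by
  obtain ⟨k₁, rfl⟩ := τ.surj c₁
  obtain ⟨k₂, rfl⟩ := τ.surj c₂
  have main : ∀ z₀ : ℂ, ‖z₀‖ < r → ∀ O ∈ 𝓝 (τ.q k₁), τ.q k₂ ∈ O ∧
      ∃ W ∈ 𝓝 ((0 : ℂ), (0 : ℂ), z₀), ∀ᶠ n in (u : Filter ℕ), ∀ w ∈ W,
        w.1 * w.2.1 = t n → f n w ∈ O := by
    intro z₀ hz₀ O hO
    obtain ⟨ε', hε', hO'⟩ := τ.exists_disc_subset k₁ hO
    obtain ⟨ε, hε, hε4, hε3⟩ : ∃ ε : ℝ, 0 < ε ∧ ε < 1 / 4 ∧ 3 * ε ≤ ε' :=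
      ⟨min (ε' / 3) (1 / 5), lt_min (by linarith) (by norm_num),
        (min_le_right _ _).trans_lt (by norm_num), by
          have := min_le_left (ε' / 3) (1 / 5 : ℝ); linarith⟩
    have hdisc : τ.disc k₁ (3 * ε) ⊆ O :=
      (image_mono (Metric.ball_subset_ball hε3)).trans hO'
    set ρ : ℝ := r / 2 with hρ
    have hρ0 : 0 < ρ := by rw [hρ]; linarith
    have hρr : ρ < r := by rw [hρ]; linarith
    set δ : ℝ := (r - ‖z₀‖) / 2 with hδ
    have hδ0 : 0 < δ := by rw [hδ]; linarith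
    have hzδ : ∀ z ∈ Metric.closedBall z₀ δ, ‖z‖ < r := by
      intro z hz
      rw [mem_closedBall_iff_norm] at hz
      calc ‖z‖ = ‖(z - z₀) + z₀‖ := by congr 1; ring
        _ ≤ ‖z - z₀‖ + ‖z₀‖ := norm_add_le _ _
        _ < r := by rw [hδ] at hz; linarith
    have hK1 : IsCompact (Metric.sphere (0 : ℂ) ρ ×ˢ ({(0 : ℂ)} ×ˢ Metric.closedBall z₀ δ)) :=
      (isCompact_sphere _ _).prod (isCompact_singleton.prod (isCompact_closedBall _ _))
    have hK2 : IsCompact (({(0 : ℂ)} : Set ℂ) ×ˢ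
        (Metric.sphere (0 : ℂ) ρ ×ˢ Metric.closedBall z₀ δ)) :=
      isCompact_singleton.prod ((isCompact_sphere _ _).prod (isCompact_closedBall _ _))
    obtain ⟨η₁, hη₁, hn₁⟩ := LimAt.of_compact_dist (e := τ.q k₁) (u := u)
      (T := fun p : ℂ × ℂ × ℂ => p.1 * p.2.1) (t := t) (f := f) hK1 (by
        rintro ⟨x, y, z⟩ ⟨hx, hy, hz⟩
        rw [mem_sphere_iff_norm, sub_zero] at hx
        have hy' : y = 0 := hy
        subst hy'
        refine h₁ x z ?_ ⟨?_, ?_, ?_⟩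
        · rintro rfl
          rw [norm_zero] at hx
          exact hρ0.ne hx
        · exact hx.le.trans_lt hρr
        · rw [norm_zero]; exact hr
        · exact hzδ z hz) (τ.disc_mem_nhds k₁ hε)
    obtain ⟨η₂, hη₂, hn₂⟩ := LimAt.of_compact_dist (e := τ.q k₂) (u := u)
      (T := fun p : ℂ × ℂ × ℂ => p.1 * p.2.1) (t := t) (f := f) hK2 (by
        rintro ⟨x, y, z⟩ ⟨hx, hy, hz⟩
        rw [mem_sphere_iff_norm, sub_zero] at hy
        have hx' : x = 0 := hx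
        subst hx'
        refine h₂ y z ?_ ⟨?_, ?_, ?_⟩
        · rintro rfl
          rw [norm_zero] at hy
          exact hρ0.ne hy
        · rw [norm_zero]; exact hr
        · exact hy.le.trans_lt hρr
        · exact hzδ z hz) (τ.disc_mem_nhds k₂ hε)
    have hsmall : ∀ᶠ n in (u : Filter ℕ), ‖t n‖ < min (min η₁ η₂) ρ * ρ := by
      have : Tendsto (fun n => ‖t n‖) (u : Filter ℕ) (𝓝 0) := by
        simpa using ht.norm
      exact this.eventually_lt_const (mul_pos (lt_min (lt_min hη₁ hη₂) hρ0) hρ0)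
    have hann : ∀ᶠ n in (u : Filter ℕ), ∀ z ∈ Metric.closedBall z₀ δ,
        (∃ c : ℂ, τ.q c = τ.q k₂ ∧ ‖c - k₁‖ < 2 * ε) ∧
          ∀ x : ℂ, ‖t n‖ / ρ ≤ ‖x‖ → ‖x‖ ≤ ρ → f n (x, t n / x, z) ∈ τ.disc k₁ (3 * ε) := by
      filter_upwards [hn₁, hn₂, hsmall] with n h1 h2 h3 z hz
      have htn : 0 < ‖t n‖ := norm_pos_iff.2 (ht0 n)
      have e1 : ‖t n‖ / ρ < η₁ := by
        rw [div_lt_iff₀ hρ0]
        exact h3.trans_le (mul_le_mul_of_nonneg_right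
          ((min_le_left _ _).trans (min_le_left _ _)) hρ0.le)
      have e2 : ‖t n‖ / ρ < η₂ := by
        rw [div_lt_iff₀ hρ0]
        exact h3.trans_le (mul_le_mul_of_nonneg_right
          ((min_le_left _ _).trans (min_le_right _ _)) hρ0.le)
      have e3 : ‖t n‖ / ρ < ρ := by
        rw [div_lt_iff₀ hρ0]
        exact h3.trans_le (mul_le_mul_of_nonneg_right (min_le_right _ _) hρ0.le)
      obtain ⟨a, ha⟩ := hol n
      have hUo : IsOpen {x : ℂ | ‖t n‖ < r * ‖x‖ ∧ ‖x‖ < r} :=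
        (isOpen_lt continuous_const (continuous_const.mul continuous_norm)).inter
          (isOpen_lt continuous_norm continuous_const)
      have hcomp := HolOn.comp τ ha hUo (γ := fun x : ℂ => (x, z))
        (by fun_prop) (by
          rintro x ⟨hx1, hx2⟩
          exact ⟨hx1, hx2, hzδ z hz⟩)
      refine annulus τ (div_pos htn hρ0) e3.le hε4 hUo ?_ hcomp ?_ ?_
      · rintro x ⟨hx1, hx2⟩
        refine ⟨?_, hx2.trans_lt hρr⟩
        rw [div_le_iff₀ hρ0] at hx1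
        have hx0 : 0 < ‖x‖ := by
          by_contra hcon
          have : ‖x‖ = 0 := le_antisymm (not_lt.1 hcon) (norm_nonneg _)
          rw [this, zero_mul] at hx1
          exact absurd htn (not_lt.2 hx1)
        calc ‖t n‖ ≤ ‖x‖ * ρ := hx1
          _ < ‖x‖ * r := mul_lt_mul_of_pos_left hρr hx0
          _ = r * ‖x‖ := mul_comm _ _
      · intro x hx
        have hx0 : x ≠ 0 := by
          rintro rfl; rw [norm_zero] at hx; exact hρ0.ne hx
        refine h1 _ ⟨(x, 0, z), ⟨?_, rfl, hz⟩, ?_⟩ ?_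
        · rw [mem_sphere_iff_norm, sub_zero]; exact hx
        · rw [Prod.dist_eq, Prod.dist_eq, dist_self, dist_self, dist_zero_right]
          simp only [norm_div, hx]
          rw [max_lt_iff, max_lt_iff]
          exact ⟨hη₁, e1, hη₁⟩
        · show x * (t n / x) = t n
          field_simp
      · intro x hx
        have hx0 : x ≠ 0 := by
          rintro rfl; rw [norm_zero] at hx; exact (div_pos htn hρ0).ne hx
        have hy : ‖t n / x‖ = ρ := by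
          rw [norm_div, hx]; field_simp
        refine h2 _ ⟨(0, t n / x, z), ⟨rfl, ?_, hz⟩, ?_⟩ ?_
        · rw [mem_sphere_iff_norm, sub_zero]; exact hy
        · rw [Prod.dist_eq, Prod.dist_eq, dist_self, dist_self, dist_zero_right]
          simp only [hx]
          rw [max_lt_iff, max_lt_iff]
          exact ⟨e2, hη₂, hη₂⟩
        · show x * (t n / x) = t n
          field_simp
    constructor
    · obtain ⟨n, hn⟩ := hann.exists
      obtain ⟨c, hc, hck⟩ := (hn z₀ (Metric.mem_closedBall_self hδ0.le)).1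
      rw [← hc]
      apply hdisc
      refine ⟨c, ?_, rfl⟩
      rw [mem_ball_iff_norm]
      linarith
    · refine ⟨Metric.ball 0 ρ ×ˢ (Metric.ball 0 ρ ×ˢ Metric.ball z₀ δ),
        prod_mem_nhds (Metric.ball_mem_nhds _ hρ0)
          (prod_mem_nhds (Metric.ball_mem_nhds _ hρ0) (Metric.ball_mem_nhds _ hδ0)), ?_⟩
      filter_upwards [hann] with n hn
      rintro ⟨x, y, z⟩ ⟨hx, hy, hz⟩ hxy
      have hx' : ‖x‖ < ρ := by rwa [mem_ball_iff_norm, sub_zero] at hx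
      have hy' : ‖y‖ < ρ := by rwa [mem_ball_iff_norm, sub_zero] at hy
      have hxy' : x * y = t n := hxy
      have hx0 : x ≠ 0 := by
        rintro rfl; rw [zero_mul] at hxy'; exact ht0 n hxy'.symm
      have hye : y = t n / x := by rw [← hxy']; field_simp
      show f n (x, y, z) ∈ O
      rw [hye]
      refine hdisc ((hn z (Metric.ball_subset_closedBall hz)).2 x ?_ hx'.le)
      rw [div_le_iff₀ hρ0, ← hxy', norm_mul]
      exact mul_le_mul_of_nonneg_left hy'.le (norm_nonneg _)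
  have hcc : τ.q k₁ = τ.q k₂ := by
    by_contra hne
    obtain ⟨O, O', hO, hO', h1, h2, hd⟩ := t2_separation hne
    have := (main 0 (by rw [norm_zero]; exact hr) O (hO.mem_nhds h1)).1
    exact hd.le_bot ⟨this, h2⟩
  refine ⟨hcc, fun z hz O hO => ?_⟩
  exact (main z hz O hO).2

/-- A point of the closed tridisc with one coordinate of modulus `ρ` and small product is near
a point with product zero. -/
theorem exists_near_cross {ρ η : ℝ} (hρ : 0 < ρ) (hη : 0 < η) {x y z : ℂ} (hx : ‖x‖ ≤ ρ)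
    (hy : ‖y‖ ≤ ρ) (hz : ‖z‖ ≤ ρ) (hm : ‖x‖ = ρ ∨ ‖y‖ = ρ ∨ ‖z‖ = ρ)
    (ht : ‖x * y * z‖ < ρ * (η * η)) :
    ∃ p : ℂ × ℂ × ℂ, (‖p.1‖ ≤ ρ ∧ ‖p.2.1‖ ≤ ρ ∧ ‖p.2.2‖ ≤ ρ) ∧
      (‖p.1‖ = ρ ∨ ‖p.2.1‖ = ρ ∨ ‖p.2.2‖ = ρ) ∧ p.1 * p.2.1 * p.2.2 = 0 ∧
        dist ((x, y, z) : ℂ × ℂ × ℂ) p < η := by
  have h0 : ‖(0 : ℂ)‖ ≤ ρ := by rw [norm_zero]; exact hρ.le
  have hsm : ∀ a b : ℝ, 0 ≤ a → 0 ≤ b → a * b < η * η → a < η ∨ b < η := by
    intro a b ha hb hab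
    by_contra hcon
    rw [not_or, not_lt, not_lt] at hcon
    exact absurd hab (not_lt.2 (mul_le_mul hcon.1 hcon.2 hη.le ha))
  rw [norm_mul, norm_mul] at ht
  rcases hm with h | h | h
  · have h1 : ‖y‖ * ‖z‖ < η * η := by
      rw [h, mul_assoc] at ht
      exact lt_of_mul_lt_mul_left ht hρ.le
    rcases hsm _ _ (norm_nonneg _) (norm_nonneg _) h1 with h2 | h2
    · refine ⟨(x, 0, z), ⟨hx, h0, hz⟩, Or.inl h, by simp, ?_⟩
      rw [Prod.dist_eq, Prod.dist_eq, dist_self, dist_self, dist_zero_right]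
      simpa [hη] using h2
    · refine ⟨(x, y, 0), ⟨hx, hy, h0⟩, Or.inl h, by simp, ?_⟩
      rw [Prod.dist_eq, Prod.dist_eq, dist_self, dist_self, dist_zero_right]
      simpa [hη] using h2
  · have h1 : ‖x‖ * ‖z‖ < η * η := by
      rw [h] at ht
      have : ρ * (‖x‖ * ‖z‖) < ρ * (η * η) := by
        calc ρ * (‖x‖ * ‖z‖) = ‖x‖ * ρ * ‖z‖ := by ring
          _ < _ := ht
      exact lt_of_mul_lt_mul_left this hρ.le
    rcases hsm _ _ (norm_nonneg _) (norm_nonneg _) h1 with h2 | h2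
    · refine ⟨(0, y, z), ⟨h0, hy, hz⟩, Or.inr (Or.inl h), by simp, ?_⟩
      rw [Prod.dist_eq, Prod.dist_eq, dist_self, dist_self, dist_zero_right]
      simpa [hη] using h2
    · refine ⟨(x, y, 0), ⟨hx, hy, h0⟩, Or.inr (Or.inl h), by simp, ?_⟩
      rw [Prod.dist_eq, Prod.dist_eq, dist_self, dist_self, dist_zero_right]
      simpa [hη] using h2
  · have h1 : ‖x‖ * ‖y‖ < η * η := by
      rw [h] at ht
      have : ρ * (‖x‖ * ‖y‖) < ρ * (η * η) := by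
        calc ρ * (‖x‖ * ‖y‖) = ‖x‖ * ‖y‖ * ρ := by ring
          _ < _ := ht
      exact lt_of_mul_lt_mul_left this hρ.le
    rcases hsm _ _ (norm_nonneg _) (norm_nonneg _) h1 with h2 | h2
    · refine ⟨(0, y, z), ⟨h0, hy, hz⟩, Or.inr (Or.inr h), by simp, ?_⟩
      rw [Prod.dist_eq, Prod.dist_eq, dist_self, dist_self, dist_zero_right]
      simpa [hη] using h2
    · refine ⟨(x, 0, z), ⟨hx, h0, hz⟩, Or.inr (Or.inr h), by simp, ?_⟩
      rw [Prod.dist_eq, Prod.dist_eq, dist_self, dist_self, dist_zero_right]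
      simpa [hη] using h2

/-- D2. Triple points: `T = z₁ z₂ z₃`. -/
theorem triple_point {E : Type*} [TopologicalSpace E] [T2Space E] (τ : Tor E)
    (u : Ultrafilter ℕ) {t : ℕ → ℂ} (ht : Tendsto t (u : Filter ℕ) (𝓝 0)) (ht0 : ∀ n, t n ≠ 0)
    {r : ℝ} (hr : 0 < r) (f : ℕ → ℂ × ℂ × ℂ → E)
    (hol : ∀ n, ∃ a, HolOn τ (fun w : ℂ × ℂ => f n (w.1, w.2, t n / (w.1 * w.2))) a
      {w : ℂ × ℂ | ‖t n‖ < r * (‖w.1‖ * ‖w.2‖) ∧ ‖w.1‖ < r ∧ ‖w.2‖ < r})
    {c : E}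
    (h : ∀ p : ℂ × ℂ × ℂ, p ∈ tridisc r → p ≠ 0 → p.1 * p.2.1 * p.2.2 = 0 →
      LimAt u (fun p : ℂ × ℂ × ℂ => p.1 * p.2.1 * p.2.2) t f p c) :
    LimAt u (fun p : ℂ × ℂ × ℂ => p.1 * p.2.1 * p.2.2) t f 0 c := by
  obtain ⟨k, rfl⟩ := τ.surj c
  intro O hO
  obtain ⟨ε', hε', hO'⟩ := τ.exists_disc_subset k hO
  obtain ⟨ε, hε, hε4, hε3⟩ : ∃ ε : ℝ, 0 < ε ∧ ε < 1 / 4 ∧ 3 * ε ≤ ε' :=
    ⟨min (ε' / 3) (1 / 5), lt_min (by linarith) (by norm_num),
      (min_le_right _ _).trans_lt (by norm_num), by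
        have := min_le_left (ε' / 3) (1 / 5 : ℝ); linarith⟩
  have hdisc : τ.disc k (3 * ε) ⊆ O :=
    (image_mono (Metric.ball_subset_ball hε3)).trans hO'
  set ρ : ℝ := r / 2 with hρ
  have hρ0 : 0 < ρ := by rw [hρ]; linarith
  have hρr : ρ < r := by rw [hρ]; linarith
  set K : Set (ℂ × ℂ × ℂ) := {p | (‖p.1‖ ≤ ρ ∧ ‖p.2.1‖ ≤ ρ ∧ ‖p.2.2‖ ≤ ρ) ∧
      (‖p.1‖ = ρ ∨ ‖p.2.1‖ = ρ ∨ ‖p.2.2‖ = ρ) ∧ p.1 * p.2.1 * p.2.2 = 0} with hK
  have hKc : IsCompact K := by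
    have hcl : IsClosed K := by
      refine IsClosed.inter ?_ (IsClosed.inter ?_ ?_)
      · exact (isClosed_le continuous_fst.norm continuous_const).inter
          ((isClosed_le continuous_snd.fst.norm continuous_const).inter
            (isClosed_le continuous_snd.snd.norm continuous_const))
      · exact (isClosed_eq continuous_fst.norm continuous_const).union
          ((isClosed_eq continuous_snd.fst.norm continuous_const).union
            (isClosed_eq continuous_snd.snd.norm continuous_const))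
      · exact isClosed_eq ((continuous_fst.mul continuous_snd.fst).mul continuous_snd.snd)
          continuous_const
    refine ((isCompact_closedBall (0 : ℂ) ρ).prod
      ((isCompact_closedBall (0 : ℂ) ρ).prod (isCompact_closedBall (0 : ℂ) ρ))).of_isClosed_subset
      hcl ?_
    rintro ⟨x, y, z⟩ ⟨⟨hx, hy, hz⟩, -⟩
    refine ⟨?_, ?_, ?_⟩
    · rw [mem_closedBall_iff_norm, sub_zero]; exact hx
    · rw [mem_closedBall_iff_norm, sub_zero]; exact hy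
    · rw [mem_closedBall_iff_norm, sub_zero]; exact hz
  obtain ⟨η, hη, hn₁⟩ := LimAt.of_compact_dist (e := τ.q k) (u := u)
    (T := fun p : ℂ × ℂ × ℂ => p.1 * p.2.1 * p.2.2) (t := t) (f := f) hKc (by
      rintro ⟨x, y, z⟩ ⟨⟨hx, hy, hz⟩, hm, h0⟩
      refine h _ ⟨hx.trans_lt hρr, hy.trans_lt hρr, hz.trans_lt hρr⟩ ?_ h0
      intro he
      rw [Prod.mk_eq_zero, Prod.mk_eq_zero] at he
      obtain ⟨rfl, rfl, rfl⟩ := he
      simp only [norm_zero, or_self] at hm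
      exact hρ0.ne hm) (τ.disc_mem_nhds k hε)
  have hsmall : ∀ᶠ n in (u : Filter ℕ), ‖t n‖ < ρ * (η * η) := by
    have : Tendsto (fun n => ‖t n‖) (u : Filter ℕ) (𝓝 0) := by
      simpa using ht.norm
    exact this.eventually_lt_const (by positivity)
  refine ⟨Metric.ball 0 ρ ×ˢ (Metric.ball 0 ρ ×ˢ Metric.ball 0 ρ),
    prod_mem_nhds (Metric.ball_mem_nhds _ hρ0)
      (prod_mem_nhds (Metric.ball_mem_nhds _ hρ0) (Metric.ball_mem_nhds _ hρ0)), ?_⟩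
  filter_upwards [hn₁, hsmall] with n h1 h3
  rintro ⟨x, y, z⟩ ⟨hx, hy, hz⟩ hxyz
  have hx' : ‖x‖ < ρ := by rwa [mem_ball_iff_norm, sub_zero] at hx
  have hy' : ‖y‖ < ρ := by rwa [mem_ball_iff_norm, sub_zero] at hy
  have hz' : ‖z‖ < ρ := by rwa [mem_ball_iff_norm, sub_zero] at hz
  have hxyz' : x * y * z = t n := hxyz
  have htn : 0 < ‖t n‖ := norm_pos_iff.2 (ht0 n)
  have hx0 : x ≠ 0 := by
    rintro rfl; rw [zero_mul, zero_mul] at hxyz'; exact ht0 n hxyz'.symm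
  have hy0 : y ≠ 0 := by
    rintro rfl; rw [mul_zero, zero_mul] at hxyz'; exact ht0 n hxyz'.symm
  have hxn : 0 < ‖x‖ := norm_pos_iff.2 hx0
  have hyn : 0 < ‖y‖ := norm_pos_iff.2 hy0
  have hze : z = t n / (x * y) := by rw [← hxyz']; field_simp
  have htz : ‖t n‖ = ‖x‖ * ‖y‖ * ‖z‖ := by rw [← hxyz', norm_mul, norm_mul]
  have hρx : 0 < ρ * ‖x‖ := mul_pos hρ0 hxn
  obtain ⟨a, ha⟩ := hol n
  have hUo : IsOpen {y' : ℂ | ‖t n‖ < r * (‖x‖ * ‖y'‖) ∧ ‖y'‖ < r} :=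
    (isOpen_lt continuous_const (continuous_const.mul (continuous_const.mul
      continuous_norm))).inter (isOpen_lt continuous_norm continuous_const)
  have hcomp := HolOn.comp τ ha hUo (γ := fun y' : ℂ => (x, y'))
    (by fun_prop) (by
      rintro y' ⟨hy1, hy2⟩
      exact ⟨hy1, hx'.trans hρr, hy2⟩)
  have hr1 : ‖t n‖ / (ρ * ‖x‖) ≤ ρ := by
    rw [div_le_iff₀ hρx, htz]
    calc ‖x‖ * ‖y‖ * ‖z‖ ≤ ‖x‖ * ρ * ρ := by
          exact mul_le_mul (mul_le_mul_of_nonneg_left hy'.le hxn.le) hz'.le (norm_nonneg _)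
            (by positivity)
      _ = ρ * (ρ * ‖x‖) := by ring
  -- points of the level set with maximal modulus `ρ`
  have hbd : ∀ y' : ℂ, y' ≠ 0 → ‖y'‖ ≤ ρ → ‖t n / (x * y')‖ ≤ ρ →
      (‖y'‖ = ρ ∨ ‖t n / (x * y')‖ = ρ) → f n (x, y', t n / (x * y')) ∈ τ.disc k ε := by
    intro y' hy0' h5 h6 h7
    have hprod : x * y' * (t n / (x * y')) = t n := by field_simp
    obtain ⟨p, hp1, hp2, hp3, hp4⟩ := exists_near_cross hρ0 hη hx'.le h5 h6 (Or.inr h7)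
      (by rw [hprod]; exact h3)
    exact h1 _ ⟨p, ⟨hp1, hp2, hp3⟩, hp4⟩ hprod
  have hann := (annulus τ (div_pos htn hρx) hr1 hε4 hUo (c₁ := k) (c₂ := k) (F := fun y' =>
    f n (x, y', t n / (x * y'))) ?_ hcomp ?_ ?_).2
  · show f n (x, y, z) ∈ O
    rw [hze]
    refine hdisc (hann y ?_ hy'.le)
    rw [div_le_iff₀ hρx, htz]
    calc ‖x‖ * ‖y‖ * ‖z‖ ≤ ‖x‖ * ‖y‖ * ρ := mul_le_mul_of_nonneg_left hz'.le (by positivity)
      _ = ‖y‖ * (ρ * ‖x‖) := by ring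
  · rintro y' ⟨h5, h6⟩
    rw [div_le_iff₀ hρx] at h5
    have hy0' : 0 < ‖y'‖ := by
      by_contra hcon
      have : ‖y'‖ = 0 := le_antisymm (not_lt.1 hcon) (norm_nonneg _)
      rw [this, zero_mul] at h5
      exact absurd htn (not_lt.2 h5)
    refine ⟨?_, h6.trans_lt hρr⟩
    calc ‖t n‖ ≤ ‖y'‖ * (ρ * ‖x‖) := h5
      _ = ρ * (‖x‖ * ‖y'‖) := by ring
      _ < r * (‖x‖ * ‖y'‖) := mul_lt_mul_of_pos_right hρr (by positivity)
  · intro y' h5
    have hy0' : y' ≠ 0 := by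
      rintro rfl; rw [norm_zero] at h5; exact hρ0.ne h5
    refine hbd y' hy0' h5.le ?_ (Or.inl h5)
    rw [norm_div, norm_mul, h5, div_le_iff₀ (by positivity)]
    rw [div_le_iff₀ hρx] at hr1
    calc ‖t n‖ ≤ ρ * (ρ * ‖x‖) := hr1
      _ = ρ * (‖x‖ * ρ) := by ring
  · intro y' h5
    have hy0' : y' ≠ 0 := by
      rintro rfl; rw [norm_zero] at h5; exact (div_pos htn hρx).ne h5
    have hyn' : 0 < ‖y'‖ := norm_pos_iff.2 hy0'
    have h6 : ‖t n / (x * y')‖ = ρ := by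
      rw [norm_div, norm_mul, h5]
      field_simp
    exact hbd y' hy0' (h5.le.trans hr1) h6.le (Or.inr h6)

end Pool.Agent.K708C
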