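import Pool.Agent.Lib.MP_708a61_C.ExtA

/-! Task X, part B: circle integrals depending holomorphically on a parameter, the extension of
square integrable holomorphic functions over a coordinate hyperplane. -/

open Set Filter Topology MeasureTheory Metric
open scoped ENNReal NNReal Real

namespace Pool.Agent.K708C

namespace ExtA

theorem circle_param {Ψ : ℂ × (ℂ × ℂ) → ℂ} {O : Set (ℂ × (ℂ × ℂ))} (hO : IsOpen O)
    (hΨ : DifferentiableOn ℂ Ψ O) {c : ℂ} {ρ : ℝ} (hρ : 0 ≤ ρ) {x₀ : ℂ × ℂ}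
    (hx : ∀ w ∈ sphere c ρ, (w, x₀) ∈ O) :
    DifferentiableAt ℂ (fun z => ∮ w in C(c, ρ), Ψ (w, z)) x₀ := by
  have hS : IsCompact (sphere c ρ) := isCompact_sphere _ _
  have hc0 : ContinuousOn (fun w : ℂ => Ψ (w, x₀)) (sphere c ρ) :=
    hΨ.continuousOn.comp (by fun_prop) hx
  obtain ⟨B, hB⟩ := hS.exists_bound_of_continuousOn hc0
  have hO' : IsOpen (O ∩ (fun p => ‖Ψ p‖) ⁻¹' Iio (B + 1)) :=
    hΨ.continuousOn.norm.isOpen_inter_preimage hO isOpen_Iio
  obtain ⟨u, v, -, hv, hu, hxv, huv⟩ := generalized_tube_lemma hS (isCompact_singleton (x := x₀))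
    hO' (by
      rintro ⟨w, x⟩ ⟨h1, h2⟩
      simp only [mem_singleton_iff] at h2
      subst h2
      exact ⟨hx w h1, lt_of_le_of_lt (hB w h1) (lt_add_one B)⟩)
  obtain ⟨δ, hδ, hball⟩ := Metric.isOpen_iff.mp hv x₀ (hxv rfl)
  have hin : ∀ w ∈ sphere c ρ, ∀ z ∈ ball x₀ δ, (w, z) ∈ O ∧ ‖Ψ (w, z)‖ < B + 1 :=
    fun w hw z hz => huv ⟨hu hw, hball hz⟩
  have hcm : ∀ θ, circleMap c ρ θ ∈ sphere c ρ := fun θ => circleMap_mem_sphere _ hρ θ
  have hB0 : 0 < B + 1 := (norm_nonneg _).trans_lt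
    (hin _ (hcm 0) x₀ (mem_ball_self hδ)).2
  set F' : ℂ × ℂ → ℝ → (ℂ × ℂ →L[ℂ] ℂ) := fun z θ => deriv (circleMap c ρ) θ •
    (fderiv ℂ Ψ (circleMap c ρ θ, z)).comp (ContinuousLinearMap.inr ℂ ℂ (ℂ × ℂ)) with hF'
  have hcont : ∀ z ∈ ball x₀ δ, Continuous fun θ : ℝ => deriv (circleMap c ρ) θ •
      Ψ (circleMap c ρ θ, z) := by
    intro z hz
    have h1 : Continuous fun θ : ℝ => Ψ (circleMap c ρ θ, z) := by
      apply hΨ.continuousOn.comp_continuous (by fun_prop)
      exact fun θ => (hin _ (hcm θ) z hz).1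
    have h2 : Continuous fun θ : ℝ => deriv (circleMap c ρ) θ := by
      simp only [deriv_circleMap]
      fun_prop
    exact h2.smul h1
  have hder : ∀ θ, ∀ z ∈ ball x₀ δ, HasFDerivAt (fun z => Ψ (circleMap c ρ θ, z))
      ((fderiv ℂ Ψ (circleMap c ρ θ, z)).comp (ContinuousLinearMap.inr ℂ ℂ (ℂ × ℂ))) z := by
    intro θ z hz
    have h1 := ((hΨ _ (hin _ (hcm θ) z hz).1).differentiableAt
      (hO.mem_nhds (hin _ (hcm θ) z hz).1)).hasFDerivAt
    exact h1.comp z (hasFDerivAt_prodMk_right (𝕜 := ℂ) (circleMap c ρ θ) z)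
  have key := intervalIntegral.hasFDerivAt_integral_of_dominated_of_fderiv_le (μ := volume)
    (𝕜 := ℂ) (a := 0) (b := 2 * π) (x₀ := x₀) (s := ball x₀ (δ / 2))
    (F := fun z θ => deriv (circleMap c ρ) θ • Ψ (circleMap c ρ θ, z)) (F' := F')
    (bound := fun _ => ρ * (2 * (B + 1) / (δ / 2)))
    (ball_mem_nhds _ (by positivity)) (by
      filter_upwards [ball_mem_nhds x₀ hδ] with z hz
      exact (hcont z hz).aestronglyMeasurable)
    ((hcont x₀ (mem_ball_self hδ)).intervalIntegrable _ _) (by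
      have h1 : Measurable fun θ : ℝ => fderiv ℂ Ψ (circleMap c ρ θ, x₀) :=
        (measurable_fderiv ℂ Ψ).comp (by fun_prop)
      have h2 : Continuous fun L : (ℂ × (ℂ × ℂ)) →L[ℂ] ℂ =>
          L.comp (ContinuousLinearMap.inr ℂ ℂ (ℂ × ℂ)) := by fun_prop
      have h3 : Measurable fun θ : ℝ => deriv (circleMap c ρ) θ := by
        simp only [deriv_circleMap]
        fun_prop
      exact (h3.smul (h2.measurable.comp h1)).aestronglyMeasurable)
    (by
      refine Eventually.of_forall fun θ _ z hz => ?_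
      have hz' : z ∈ ball x₀ δ := ball_subset_ball (by linarith) hz
      have h1 := hder θ z hz'
      have hsub : ball z (δ / 2) ⊆ ball x₀ δ := by
        intro y hy
        rw [mem_ball] at hy hz ⊢
        linarith [dist_triangle y z x₀]
      have h2 : ‖fderiv ℂ (fun z => Ψ (circleMap c ρ θ, z)) z‖ ≤ 2 * (B + 1) / (δ / 2) := by
        apply Complex.norm_fderiv_le_div_of_mapsTo_ball
        · intro y hy
          exact (hder θ y (hsub hy)).differentiableAt.differentiableWithinAt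
        · intro y hy
          rw [mem_closedBall, dist_eq_norm]
          have e1 := (hin _ (hcm θ) y (hsub hy)).2
          have e2 := (hin _ (hcm θ) z hz').2
          have e3 := norm_sub_le (Ψ (circleMap c ρ θ, y)) (Ψ (circleMap c ρ θ, z))
          linarith
        · positivity
      rw [h1.fderiv] at h2
      show ‖deriv (circleMap c ρ) θ • _‖ ≤ _
      rw [norm_smul]
      refine mul_le_mul ?_ h2 (norm_nonneg _) hρ
      rw [deriv_circleMap]
      simp [abs_of_nonneg hρ])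
    (intervalIntegrable_const)
    (by
      refine Eventually.of_forall fun θ _ z hz => ?_
      have hz' : z ∈ ball x₀ δ := ball_subset_ball (by linarith) hz
      have h1 := (hder θ z hz').const_smul (deriv (circleMap c ρ) θ)
      exact h1)
  exact key.differentiableAt

/-- Extension of square integrable holomorphic functions over `z₁ = 0`. -/
theorem ext_strip {r : ℝ} (hr : 0 < r) {U : Set ℂ} (hU : IsOpen U) {g : ℂ × ℂ → ℂ}
    (hg : DifferentiableOn ℂ g ((ball 0 r \ {0}) ×ˢ U))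
    (hL : ∫⁻ z in (ball (0 : ℂ) r \ {0}) ×ˢ U, ‖g z‖ₑ ^ 2 < ∞) :
    ∃ g' : ℂ × ℂ → ℂ, DifferentiableOn ℂ g' (ball 0 r ×ˢ U) ∧ ∀ z, z.1 ≠ 0 → g' z = g z := by
  classical
  have hA : IsOpen (ball (0 : ℂ) r \ {0}) := isOpen_ball.sdiff isClosed_singleton
  have hAU := hA.prod hU
  set Ψ : ℂ × (ℂ × ℂ) → ℂ := fun p => (p.1 - p.2.1)⁻¹ * g (p.1, p.2.2) with hΨ
  set O : Set (ℂ × (ℂ × ℂ)) := {p | (p.1, p.2.2) ∈ (ball (0 : ℂ) r \ {0}) ×ˢ U ∧ p.1 - p.2.1 ≠ 0}
    with hOdef
  have hO : IsOpen O := by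
    apply IsOpen.inter
    · exact hAU.preimage (by fun_prop)
    · exact isOpen_ne_fun (by fun_prop) continuous_const
  have hΨd : DifferentiableOn ℂ Ψ O := by
    intro p hp
    apply DifferentiableAt.differentiableWithinAt
    have h1 : DifferentiableAt ℂ g (p.1, p.2.2) :=
      (hg _ hp.1).differentiableAt (hAU.mem_nhds hp.1)
    have h2 : DifferentiableAt ℂ (fun p : ℂ × (ℂ × ℂ) => g (p.1, p.2.2)) p :=
      DifferentiableAt.comp (g := g) (f := fun p : ℂ × (ℂ × ℂ) => (p.1, p.2.2)) p h1 (by fun_prop)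
    have h3 : DifferentiableAt ℂ (fun p : ℂ × (ℂ × ℂ) => (p.1 - p.2.1)⁻¹) p :=
      DifferentiableAt.inv (by fun_prop) hp.2
    exact h3.mul h2
  set C : ℂ × ℂ → ℂ := fun z => (2 * π * Complex.I : ℂ)⁻¹ • ∮ w in C(0, r / 2), Ψ (w, z) with hC
  have hCd : ∀ x ∈ ball (0 : ℂ) (r / 2) ×ˢ U, DifferentiableAt ℂ C x := by
    intro x hx
    have h1 := circle_param hO hΨd (c := 0) (ρ := r / 2) (by positivity) (x₀ := x) (by
      intro w hw
      have hw' : ‖w‖ = r / 2 := by simpa using hw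
      have hx1 : ‖x.1‖ < r / 2 := by simpa using hx.1
      refine ⟨⟨⟨by simpa [hw'] using (by linarith : r / 2 < r), ?_⟩, hx.2⟩, ?_⟩
      · intro h0
        have h0' : w = 0 := h0
        rw [h0', norm_zero] at hw'
        linarith
      · intro h0
        have h0' : w = x.1 := sub_eq_zero.mp h0
        rw [h0'] at hw'
        linarith)
    have h2 := h1.const_smul ((2 * π * Complex.I : ℂ)⁻¹)
    exact h2
  -- almost every slice
  have hφ : AEMeasurable (fun z : ℂ × ℂ => ‖g z‖ₑ ^ 2)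
      ((volume.restrict (ball (0 : ℂ) r \ {0})).prod (volume.restrict U)) := by
    rw [Measure.prod_restrict, ← Measure.volume_eq_prod]
    exact ((hg.continuousOn.aemeasurable hAU.measurableSet).enorm).pow_const 2
  have hae : ∀ᵐ y ∂(volume.restrict U), ∫⁻ x in ball (0 : ℂ) r \ {0}, ‖g (x, y)‖ₑ ^ 2 < ∞ := by
    rw [Measure.volume_eq_prod, ← Measure.prod_restrict, lintegral_prod_symm _ hφ] at hL
    exact ae_lt_top' hφ.prod_swap.lintegral_prod_right' hL.ne
  have hslice : ∀ y ∈ U, ∀ x ∈ ball (0 : ℂ) (r / 2), x ≠ 0 → C (x, y) = g (x, y) := by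
    intro y hy x hx hx0
    have hxr : x ∈ ball (0 : ℂ) r \ {0} := ⟨ball_subset_ball (by linarith) hx, hx0⟩
    have h1 : (fun y => C (x, y)) =ᵐ[volume.restrict U] fun y => g (x, y) := by
      filter_upwards [hae, ae_restrict_mem hU.measurableSet] with y hy hyU
      obtain ⟨f', hf', hff⟩ := extend_one_var hr (f := fun w => g (w, y)) (by
        intro w hw
        have h2 : DifferentiableAt ℂ g (w, y) := (hg _ ⟨hw, hyU⟩).differentiableAt
          (hAU.mem_nhds ⟨hw, hyU⟩)
        exact (DifferentiableAt.comp (g := g) (f := fun w : ℂ => (w, y)) w h2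
          (by fun_prop)).differentiableWithinAt) hy
      have h3 : DiffContOnCl ℂ f' (ball 0 (r / 2)) := by
        apply DifferentiableOn.diffContOnCl
        rw [closure_ball _ (by positivity)]
        exact hf'.mono (closedBall_subset_ball (by linarith))
      have h4 := h3.two_pi_i_inv_smul_circleIntegral_sub_inv_smul hx
      rw [← hff x hx0, ← h4, hC]
      simp only
      congr 1
      apply circleIntegral.integral_congr (by positivity)
      intro w hw
      have hw' : ‖w‖ = r / 2 := by simpa using hw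
      simp only [hΨ, smul_eq_mul]
      rw [hff w]
      intro h0
      rw [h0, norm_zero] at hw'
      linarith
    have hc1 : ContinuousOn (fun y => C (x, y)) U := by
      intro y hy
      have h2 := (hCd (x, y) ⟨hx, hy⟩).continuousAt
      exact (ContinuousAt.comp (g := C) (f := fun y : ℂ => (x, y)) h2
        (by fun_prop)).continuousWithinAt
    have hc2 : ContinuousOn (fun y => g (x, y)) U := by
      apply hg.continuousOn.comp (by fun_prop)
      exact fun y hy => ⟨hxr, hy⟩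
    exact Measure.eqOn_open_of_ae_eq h1 hU hc1 hc2 hy
  refine ⟨fun z => if z.1 = 0 then C z else g z, ?_, fun z hz => if_neg hz⟩
  intro z hz
  apply DifferentiableAt.differentiableWithinAt
  by_cases h0 : z.1 = 0
  · have h1 : z ∈ ball (0 : ℂ) (r / 2) ×ˢ U := by
      refine ⟨?_, hz.2⟩
      rw [h0]
      exact mem_ball_self (by positivity)
    refine (hCd z h1).congr_of_eventuallyEq ?_
    filter_upwards [(isOpen_ball.prod hU).mem_nhds h1] with w hw
    by_cases hw0 : w.1 = 0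
    · rw [if_pos hw0]
    · rw [if_neg hw0]
      exact (hslice w.2 hw.2 w.1 hw.1 hw0).symm
  · have h1 : z ∈ (ball (0 : ℂ) r \ {0}) ×ˢ U := ⟨⟨hz.1, h0⟩, hz.2⟩
    refine ((hg z h1).differentiableAt (hAU.mem_nhds h1)).congr_of_eventuallyEq ?_
    filter_upwards [hAU.mem_nhds h1] with w hw
    rw [if_neg (show ¬ w.1 = 0 from hw.1.2)]

/-- Partial derivatives of holomorphic functions are holomorphic (first variable). -/
theorem fst_deriv {G : ℂ × ℂ → ℂ} {O : Set (ℂ × ℂ)} (hO : IsOpen O)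
    (hG : DifferentiableOn ℂ G O) : DifferentiableOn ℂ (fun z => fderiv ℂ G z (1, 0)) O := by
  intro z₀ hz₀
  obtain ⟨ρ, hρ, hb⟩ := Metric.nhds_basis_closedBall.mem_iff.mp (hO.mem_nhds hz₀)
  have hprod : closedBall z₀ ρ = closedBall z₀.1 ρ ×ˢ closedBall z₀.2 ρ :=
    (closedBall_prod_same _ _ _).symm
  rw [hprod] at hb
  set Ψ : ℂ × (ℂ × ℂ) → ℂ := fun p => ((p.1 - p.2.1) ^ 2)⁻¹ * G (p.1, p.2.2) with hΨ
  set O' : Set (ℂ × (ℂ × ℂ)) := {p | (p.1, p.2.2) ∈ O ∧ p.1 - p.2.1 ≠ 0} with hOdef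
  have hO' : IsOpen O' := by
    apply IsOpen.inter
    · exact hO.preimage (by fun_prop)
    · exact isOpen_ne_fun (by fun_prop) continuous_const
  have hΨd : DifferentiableOn ℂ Ψ O' := by
    intro p hp
    apply DifferentiableAt.differentiableWithinAt
    have h1 : DifferentiableAt ℂ G (p.1, p.2.2) :=
      (hG _ hp.1).differentiableAt (hO.mem_nhds hp.1)
    have h2 : DifferentiableAt ℂ (fun p : ℂ × (ℂ × ℂ) => G (p.1, p.2.2)) p :=
      DifferentiableAt.comp (g := G) (f := fun p : ℂ × (ℂ × ℂ) => (p.1, p.2.2)) p h1 (by fun_prop)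
    have h3 : DifferentiableAt ℂ (fun p : ℂ × (ℂ × ℂ) => ((p.1 - p.2.1) ^ 2)⁻¹) p :=
      DifferentiableAt.inv (by fun_prop) (pow_ne_zero 2 hp.2)
    exact h3.mul h2
  have h1 := circle_param hO' hΨd (c := z₀.1) (ρ := ρ) hρ.le (x₀ := z₀) (by
    intro w hw
    refine ⟨hb ⟨sphere_subset_closedBall hw, mem_closedBall_self hρ.le⟩, ?_⟩
    intro h0
    rw [mem_sphere, dist_eq_norm] at hw
    simp only at h0
    rw [h0, norm_zero] at hw
    linarith)
  have h2 := h1.const_smul ((2 * π * Complex.I : ℂ)⁻¹)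
  apply DifferentiableAt.differentiableWithinAt
  refine h2.congr_of_eventuallyEq ?_
  filter_upwards [ball_mem_nhds z₀ hρ] with z hz
  rw [← ball_prod_same] at hz
  have hzO : z ∈ O := hb ⟨ball_subset_closedBall hz.1, ball_subset_closedBall hz.2⟩
  have h3 : DifferentiableAt ℂ G z := (hG z hzO).differentiableAt (hO.mem_nhds hzO)
  have h4 : HasDerivAt (fun w => G (w, z.2)) (fderiv ℂ G z (1, 0)) z.1 := by
    have e1 : HasFDerivAt (fun w : ℂ => G (w, z.2))
        ((fderiv ℂ G z).comp (ContinuousLinearMap.inl ℂ ℂ ℂ)) z.1 :=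
      HasFDerivAt.comp (g := G) (f := fun w : ℂ => (w, z.2)) z.1 h3.hasFDerivAt
        (hasFDerivAt_prodMk_left (𝕜 := ℂ) z.1 z.2)
    have e2 := e1.hasDerivAt
    simpa using e2
  have h5 := Complex.two_pi_I_inv_smul_circleIntegral_sub_sq_inv_smul_of_differentiable
    (U := (fun w : ℂ => (w, z.2)) ⁻¹' O) (hO.preimage (by fun_prop)) (c := z₀.1) (R := ρ)
    (w₀ := z.1) (f := fun w => G (w, z.2))
    (fun w hw => hb ⟨hw, ball_subset_closedBall hz.2⟩)
    (fun w hw => by
      apply DifferentiableAt.differentiableWithinAt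
      have e1 : DifferentiableAt ℂ G (w, z.2) := (hG _ hw).differentiableAt (hO.mem_nhds hw)
      exact DifferentiableAt.comp (g := G) (f := fun w : ℂ => (w, z.2)) w e1 (by fun_prop))
    hz.1
  rw [← h4.deriv, ← h5]
  rfl

/-- Partial derivatives of holomorphic functions are holomorphic (second variable). -/
theorem snd_deriv {G : ℂ × ℂ → ℂ} {O : Set (ℂ × ℂ)} (hO : IsOpen O)
    (hG : DifferentiableOn ℂ G O) : DifferentiableOn ℂ (fun z => fderiv ℂ G z (0, 1)) O := by
  set sw : (ℂ × ℂ) ≃L[ℂ] ℂ × ℂ := ContinuousLinearEquiv.prodComm ℂ ℂ ℂ with hsw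
  have hO' : IsOpen (sw ⁻¹' O) := hO.preimage sw.continuous
  have h1 : DifferentiableOn ℂ (fun z => G (sw z)) (sw ⁻¹' O) := by
    intro z hz
    apply DifferentiableAt.differentiableWithinAt
    have e1 : DifferentiableAt ℂ G (sw z) := (hG _ hz).differentiableAt (hO.mem_nhds hz)
    exact DifferentiableAt.comp (g := G) (f := sw) z e1 sw.differentiableAt
  have h2 := fst_deriv hO' h1
  have h3 : ∀ z ∈ O, fderiv ℂ G z (0, 1) = fderiv ℂ (fun z => G (sw z)) (sw z) (1, 0) := by
    intro z hz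
    have hz' : sw (sw z) = z := by ext <;> simp [hsw]
    have e1 : DifferentiableAt ℂ G (sw (sw z)) := by
      rw [hz']
      exact (hG z hz).differentiableAt (hO.mem_nhds hz)
    have e2 : HasFDerivAt (fun z => G (sw z)) ((fderiv ℂ G (sw (sw z))).comp
        (sw : ℂ × ℂ →L[ℂ] ℂ × ℂ)) (sw z) := e1.hasFDerivAt.comp (sw z) sw.hasFDerivAt
    rw [e2.fderiv, hz']
    simp [hsw]
  intro z hz
  have hz' : sw (sw z) = z := by ext <;> simp [hsw]
  have hz2 : sw z ∈ sw ⁻¹' O := by
    show sw (sw z) ∈ O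
    rw [hz']
    exact hz
  have e1 : DifferentiableAt ℂ (fun z => fderiv ℂ (fun z => G (sw z)) z (1, 0)) (sw z) :=
    (h2 _ hz2).differentiableAt (hO'.mem_nhds hz2)
  have e2 := DifferentiableAt.comp (g := fun z => fderiv ℂ (fun z => G (sw z)) z (1, 0))
    (f := sw) z e1 sw.differentiableAt
  refine (e2.congr_of_eventuallyEq ?_).differentiableWithinAt
  filter_upwards [hO.mem_nhds hz] with w hw
  exact h3 w hw

end ExtA

end Pool.Agent.K708C
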