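import Pool.Agent.Lib.MP_708a61_C.Lift
import Pool.Agent.Lib.MP_708a61_C.ExtB

/-! Task X (Extend): L2 extension over coordinate hyperplanes. -/

open Set Filter Topology MeasureTheory
open scoped ENNReal NNReal

namespace Pool.Agent.K708C

/-- the bidisc -/
def bidisc (r : ℝ) : Set (ℂ × ℂ) := {z | ‖z.1‖ < r ∧ ‖z.2‖ < r}

namespace ExtA

theorem bidisc_eq (r : ℝ) : bidisc r = Metric.ball (0 : ℂ) r ×ˢ Metric.ball (0 : ℂ) r := by
  ext z
  simp [bidisc]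

theorem isOpen_bidisc (r : ℝ) : IsOpen (bidisc r) := by
  rw [bidisc_eq]
  exact Metric.isOpen_ball.prod Metric.isOpen_ball

theorem convex_bidisc (r : ℝ) : Convex ℝ (bidisc r) := by
  rw [bidisc_eq]
  exact (convex_ball _ _).prod (convex_ball _ _)

theorem dom_one (r : ℝ) : bidisc r ∩ {z | z.1 ≠ 0} =
    (Metric.ball (0 : ℂ) r \ {0}) ×ˢ Metric.ball (0 : ℂ) r := by
  ext z
  simp [bidisc]
  tauto

theorem dom_two (r : ℝ) : bidisc r ∩ {z | z.1 ≠ 0 ∧ z.2 ≠ 0} =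
    (Metric.ball (0 : ℂ) r \ {0}) ×ˢ (Metric.ball (0 : ℂ) r \ {0}) := by
  ext z
  simp [bidisc]
  tauto

theorem isOpen_punct {r : ℝ} : IsOpen (Metric.ball (0 : ℂ) r \ {0}) :=
  Metric.isOpen_ball.sdiff isClosed_singleton

theorem nonempty_punct {r : ℝ} (hr : 0 < r) : (Metric.ball (0 : ℂ) r \ {0}).Nonempty := by
  refine ⟨((r / 2 : ℝ) : ℂ), ?_, ?_⟩
  · rw [mem_ball_zero_iff, Complex.norm_real, Real.norm_of_nonneg (by positivity)]
    linarith
  · intro h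
    have h' : ((r / 2 : ℝ) : ℂ) = 0 := h
    have h2 : r / 2 = 0 := by exact_mod_cast h'
    linarith

theorem preconn_punct {r : ℝ} (hr : 0 < r) : IsPreconnected (Metric.ball (0 : ℂ) r \ {0}) := by
  have h1 : Metric.ball (0 : ℂ) r \ {0} = Complex.exp '' {s | s.re < Real.log r} := by
    ext z
    constructor
    · rintro ⟨h1, h2⟩
      have h2' : z ≠ 0 := h2
      refine ⟨Complex.log z, ?_, Complex.exp_log h2'⟩
      show (Complex.log z).re < Real.log r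
      rw [Complex.log_re]
      exact Real.log_lt_log (norm_pos_iff.mpr h2') (by simpa using h1)
    · rintro ⟨s, hs, rfl⟩
      refine ⟨?_, Complex.exp_ne_zero s⟩
      rw [mem_ball_zero_iff, Complex.norm_exp]
      have : s.re < Real.log r := hs
      calc Real.exp s.re < Real.exp (Real.log r) := Real.exp_lt_exp.mpr this
        _ = r := Real.exp_log hr
  rw [h1]
  refine IsPreconnected.image ?_ _ Complex.continuous_exp.continuousOn
  have h2 : Convex ℝ {s : ℂ | s.re < Real.log r} := convex_halfSpace_re_lt _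
  exact h2.isPreconnected

theorem ball_subset_closure_punct {r : ℝ} (hr : 0 < r) :
    Metric.ball (0 : ℂ) r ⊆ closure (Metric.ball (0 : ℂ) r \ {0}) := by
  have _ := hr
  have h1 := Metric.isOpen_ball (x := (0 : ℂ)) (ε := r)
  have h2 : Dense ({0}ᶜ : Set ℂ) := dense_compl_singleton 0
  have h3 := h2.open_subset_closure_inter h1
  exact h3

end ExtA

open ExtA

/-- X1. A square integrable holomorphic function on `{0 < |z₁| < r, |z₂| < r}` extends. -/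
theorem extend_fun_one {r : ℝ} (hr : 0 < r) (g : ℂ × ℂ → ℂ)
    (hg : DifferentiableOn ℂ g (bidisc r ∩ {z | z.1 ≠ 0}))
    (hL : ∫⁻ z in bidisc r ∩ {z | z.1 ≠ 0}, ‖g z‖ₑ ^ 2 < ∞) :
    ∃ g' : ℂ × ℂ → ℂ, DifferentiableOn ℂ g' (bidisc r) ∧
      ∀ z ∈ bidisc r, z.1 ≠ 0 → g' z = g z := by
  rw [dom_one] at hg hL
  obtain ⟨g', h1, h2⟩ := ext_strip hr Metric.isOpen_ball hg hL
  rw [← bidisc_eq] at h1
  exact ⟨g', h1, fun z _ hz => h2 z hz⟩

/-- X2. The same over `z₁ z₂ = 0`. -/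
theorem extend_fun_two {r : ℝ} (hr : 0 < r) (g : ℂ × ℂ → ℂ)
    (hg : DifferentiableOn ℂ g (bidisc r ∩ {z | z.1 ≠ 0 ∧ z.2 ≠ 0}))
    (hL : ∫⁻ z in bidisc r ∩ {z | z.1 ≠ 0 ∧ z.2 ≠ 0}, ‖g z‖ₑ ^ 2 < ∞) :
    ∃ g' : ℂ × ℂ → ℂ, DifferentiableOn ℂ g' (bidisc r) ∧
      ∀ z ∈ bidisc r, z.1 ≠ 0 → z.2 ≠ 0 → g' z = g z := by
  rw [dom_two] at hg hL
  have hA : IsOpen (Metric.ball (0 : ℂ) r \ {0}) := Metric.isOpen_ball.sdiff isClosed_singleton
  obtain ⟨g₁, h1, h2⟩ := ext_strip hr hA hg hL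
  have hsw : Continuous fun z : ℂ × ℂ => (z.2, z.1) := by fun_prop
  have h3 : DifferentiableOn ℂ (fun z : ℂ × ℂ => g₁ (z.2, z.1))
      ((Metric.ball (0 : ℂ) r \ {0}) ×ˢ Metric.ball (0 : ℂ) r) := by
    intro z hz
    have e1 : DifferentiableAt ℂ g₁ (z.2, z.1) := (h1 _ ⟨hz.2, hz.1⟩).differentiableAt
      ((Metric.isOpen_ball.prod hA).mem_nhds ⟨hz.2, hz.1⟩)
    exact (DifferentiableAt.comp (g := g₁) (f := fun z : ℂ × ℂ => (z.2, z.1)) z e1
      (by fun_prop)).differentiableWithinAt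
  have h4 : ∫⁻ z in (Metric.ball (0 : ℂ) r \ {0}) ×ˢ Metric.ball (0 : ℂ) r,
      ‖g₁ (z.2, z.1)‖ₑ ^ 2 < ∞ := by
    have hs : (Metric.ball (0 : ℂ) r \ {0}) ×ˢ Metric.ball (0 : ℂ) r =
        Prod.swap ⁻¹' (Metric.ball (0 : ℂ) r ×ˢ (Metric.ball (0 : ℂ) r \ {0})) := by
      ext z
      simp
    have e1 : ∫⁻ z in (Metric.ball (0 : ℂ) r \ {0}) ×ˢ Metric.ball (0 : ℂ) r,
        ‖g₁ (z.2, z.1)‖ₑ ^ 2 =
        ∫⁻ z in Metric.ball (0 : ℂ) r ×ˢ (Metric.ball (0 : ℂ) r \ {0}), ‖g₁ z‖ₑ ^ 2 := by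
      rw [hs]
      have e2 : MeasurePreserving (Prod.swap : ℂ × ℂ → ℂ × ℂ) volume volume :=
        Measure.measurePreserving_swap
      have e3 := e2.setLIntegral_comp_preimage_emb
        (MeasurableEquiv.prodComm (α := ℂ) (β := ℂ)).measurableEmbedding
        (fun z => ‖g₁ z‖ₑ ^ 2) (Metric.ball (0 : ℂ) r ×ˢ (Metric.ball (0 : ℂ) r \ {0}))
      exact e3
    rw [e1]
    have e4 : ∫⁻ z in Metric.ball (0 : ℂ) r ×ˢ (Metric.ball (0 : ℂ) r \ {0}), ‖g₁ z‖ₑ ^ 2 =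
        ∫⁻ z in (Metric.ball (0 : ℂ) r \ {0}) ×ˢ (Metric.ball (0 : ℂ) r \ {0}), ‖g₁ z‖ₑ ^ 2 := by
      apply setLIntegral_congr
      apply Filter.EventuallyEq.symm
      rw [ae_eq_set]
      constructor
      · have : ((Metric.ball (0 : ℂ) r \ {0}) ×ˢ (Metric.ball (0 : ℂ) r \ {0})) \
            (Metric.ball (0 : ℂ) r ×ˢ (Metric.ball (0 : ℂ) r \ {0})) = ∅ := by
          rw [sdiff_eq_empty]
          exact prod_mono sdiff_subset le_rfl
        rw [this, measure_empty]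
      · refine measure_mono_null (t := {0} ×ˢ univ) ?_ ?_
        · rintro z ⟨h5, h6⟩
          refine ⟨?_, mem_univ _⟩
          by_contra h7
          exact h6 ⟨⟨h5.1, h7⟩, h5.2⟩
        · rw [Measure.volume_eq_prod, Measure.prod_prod]
          simp
    rw [e4]
    refine lt_of_le_of_lt (le_of_eq ?_) hL
    refine setLIntegral_congr_fun (hA.prod hA).measurableSet fun z hz => ?_
    rw [h2 z hz.1.2]
  obtain ⟨g₂, h5, h6⟩ := ext_strip hr Metric.isOpen_ball h3 h4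
  refine ⟨fun z => g₂ (z.2, z.1), ?_, ?_⟩
  · intro z hz
    have e1 : DifferentiableAt ℂ g₂ (z.2, z.1) := by
      rw [bidisc_eq] at hz
      exact (h5 _ ⟨hz.2, hz.1⟩).differentiableAt
        ((Metric.isOpen_ball.prod Metric.isOpen_ball).mem_nhds ⟨hz.2, hz.1⟩)
    exact (DifferentiableAt.comp (g := g₂) (f := fun z : ℂ × ℂ => (z.2, z.1)) z e1
      (by fun_prop)).differentiableWithinAt
  · intro z hz h7 h8
    show g₂ (z.2, z.1) = g z
    rw [h6 (z.2, z.1) h8]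
    exact h2 z h7

/-- X3. A closed holomorphic 1-form on the bidisc has a primitive. -/
theorem exists_primitive {r : ℝ} (hr : 0 < r) (g₁ g₂ : ℂ × ℂ → ℂ)
    (h₁ : DifferentiableOn ℂ g₁ (bidisc r)) (h₂ : DifferentiableOn ℂ g₂ (bidisc r))
    (hc : ∀ z ∈ bidisc r, fderiv ℂ g₁ z (0, 1) = fderiv ℂ g₂ z (1, 0)) :
    ∃ G : ℂ × ℂ → ℂ, DifferentiableOn ℂ G (bidisc r) ∧
      ∀ z ∈ bidisc r, fderiv ℂ G z (1, 0) = g₁ z ∧ fderiv ℂ G z (0, 1) = g₂ z := by
  have _ := hr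
  have hO := isOpen_bidisc r
  set ω : ℂ × ℂ → (ℂ × ℂ →L[ℂ] ℂ) := fun z =>
    (g₁ z) • ContinuousLinearMap.fst ℂ ℂ ℂ + (g₂ z) • ContinuousLinearMap.snd ℂ ℂ ℂ with hω
  have hd : ∀ z ∈ bidisc r, HasFDerivAt ω
      ((fderiv ℂ g₁ z).smulRight (ContinuousLinearMap.fst ℂ ℂ ℂ) +
        (fderiv ℂ g₂ z).smulRight (ContinuousLinearMap.snd ℂ ℂ ℂ)) z := by
    intro z hz
    have e1 := ((h₁ z hz).differentiableAt (hO.mem_nhds hz)).hasFDerivAt.smul_const
      (ContinuousLinearMap.fst ℂ ℂ ℂ)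
    have e2 := ((h₂ z hz).differentiableAt (hO.mem_nhds hz)).hasFDerivAt.smul_const
      (ContinuousLinearMap.snd ℂ ℂ ℂ)
    exact e1.add e2
  obtain ⟨G, hG⟩ := (convex_bidisc r).exists_forall_hasFDerivWithinAt_of_hasFDerivWithinAt_symmetric
    (𝕜 := ℂ) (ω := ω) (fun z hz => ((hd z hz).restrictScalars ℝ).hasFDerivWithinAt) (by
      intro z hz x _ y _
      have e1 : ∀ v : ℂ × ℂ, v = v.1 • ((1 : ℂ), (0 : ℂ)) + v.2 • ((0 : ℂ), (1 : ℂ)) := by
        intro v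
        ext <;> simp
      have e2 : ∀ g : ℂ × ℂ → ℂ, ∀ v : ℂ × ℂ, fderiv ℂ g z v =
          v.1 * fderiv ℂ g z (1, 0) + v.2 * fderiv ℂ g z (0, 1) := by
        intro g v
        conv_lhs => rw [e1 v]
        rw [map_add, map_smul, map_smul, smul_eq_mul, smul_eq_mul]
      simp only [ContinuousLinearMap.coe_restrictScalars', _root_.add_apply,
        ContinuousLinearMap.smulRight_apply, _root_.smul_apply,
        ContinuousLinearMap.coe_fst', ContinuousLinearMap.coe_snd', smul_eq_mul]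
      rw [e2 g₁ x, e2 g₁ y, e2 g₂ x, e2 g₂ y, hc z hz]
      ring)
  have hG' : ∀ z ∈ bidisc r, HasFDerivAt G (ω z) z := fun z hz =>
    (hG z hz).hasFDerivAt (hO.mem_nhds hz)
  refine ⟨G, fun z hz => (hG' z hz).differentiableAt.differentiableWithinAt, fun z hz => ?_⟩
  rw [(hG' z hz).fderiv]
  simp [hω]

namespace ExtA

/-- The common part of X4 and X5. -/
theorem extend_gen {E : Type*} [TopologicalSpace E] (τ : Tor E) {r : ℝ} (hr : 0 < r)
    {U : Set (ℂ × ℂ)} (hU : IsOpen U) (hpc : IsPreconnected U) (hne : U.Nonempty)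
    (hsub : U ⊆ bidisc r) (hdense : bidisc r ⊆ closure U)
    (hext : ∀ g : ℂ × ℂ → ℂ, DifferentiableOn ℂ g U → ∫⁻ z in U, ‖g z‖ₑ ^ 2 < ∞ →
      ∃ g' : ℂ × ℂ → ℂ, DifferentiableOn ℂ g' (bidisc r) ∧ ∀ z ∈ U, g' z = g z)
    (F : ℂ × ℂ → E) (a : ℂ × ℂ → (ℂ × ℂ →L[ℂ] ℂ)) (hF : HolOn τ F a U)
    (hL : ∫⁻ z in U, ‖a z‖ₑ ^ 2 < ∞) :
    ∃ G : ℂ × ℂ → ℂ, DifferentiableOn ℂ G (bidisc r) ∧ ∀ z ∈ U, F z = τ.q (G z) := by
  classical
  have hO := isOpen_bidisc r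
  have hdec : ∀ L : ℂ × ℂ →L[ℂ] ℂ, L = (L (1, 0)) • ContinuousLinearMap.fst ℂ ℂ ℂ +
      (L (0, 1)) • ContinuousLinearMap.snd ℂ ℂ ℂ := by
    intro L
    ext <;> simp
  -- local lifts
  have hloc : ∀ z ∈ U, ∃ G : ℂ × ℂ → ℂ, ∃ ε > 0, Metric.ball z ε ⊆ U ∧
      ∀ w ∈ Metric.ball z ε, F w = τ.q (G w) ∧ HasFDerivAt G (a w) w := by
    intro z hz
    obtain ⟨G, hG⟩ := hF z hz
    obtain ⟨ε, hε, hb⟩ := Metric.eventually_nhds_iff_ball.mp (hG.and (hU.mem_nhds hz))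
    exact ⟨G, ε, hε, fun w hw => (hb w hw).2, fun w hw => (hb w hw).1⟩
  have hdiff : ∀ z ∈ U, DifferentiableAt ℂ (fun w => a w (1, 0)) z ∧
      DifferentiableAt ℂ (fun w => a w (0, 1)) z := by
    intro z hz
    obtain ⟨G, ε, hε, -, hG⟩ := hloc z hz
    have hGd : DifferentiableOn ℂ G (Metric.ball z ε) := fun w hw =>
      (hG w hw).2.differentiableAt.differentiableWithinAt
    have hmem := Metric.mem_ball_self (x := z) hε
    have hn := Metric.isOpen_ball.mem_nhds hmem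
    constructor
    · refine ((fst_deriv Metric.isOpen_ball hGd z hmem).differentiableAt hn).congr_of_eventuallyEq ?_
      filter_upwards [hn] with w hw
      rw [(hG w hw).2.fderiv]
    · refine ((snd_deriv Metric.isOpen_ball hGd z hmem).differentiableAt hn).congr_of_eventuallyEq ?_
      filter_upwards [hn] with w hw
      rw [(hG w hw).2.fderiv]
  have hclosed : ∀ z ∈ U, fderiv ℂ (fun w => a w (1, 0)) z (0, 1) =
      fderiv ℂ (fun w => a w (0, 1)) z (1, 0) := by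
    intro z hz
    obtain ⟨G, ε, hε, -, hG⟩ := hloc z hz
    have e1 := (hdiff z hz).1.hasFDerivAt.smul_const (ContinuousLinearMap.fst ℂ ℂ ℂ)
    have e2 := (hdiff z hz).2.hasFDerivAt.smul_const (ContinuousLinearMap.snd ℂ ℂ ℂ)
    have e3 := e1.add e2
    have e4 : HasFDerivAt a
        ((fderiv ℂ (fun w => a w (1, 0)) z).smulRight (ContinuousLinearMap.fst ℂ ℂ ℂ) +
        (fderiv ℂ (fun w => a w (0, 1)) z).smulRight (ContinuousLinearMap.snd ℂ ℂ ℂ)) z := by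
      refine e3.congr_of_eventuallyEq (Eventually.of_forall fun w => ?_)
      exact hdec (a w)
    have e5 := second_derivative_symmetric_of_eventually (𝕜 := ℂ) (f := G) (f' := a) (x := z) (by
      filter_upwards [Metric.ball_mem_nhds z hε] with w hw using (hG w hw).2) e4 (0, 1) (1, 0)
    simpa using e5
  -- L2 bounds
  have hnorm : ∀ v : ℂ × ℂ, ‖v‖ ≤ 1 → ∀ z, ‖a z v‖ₑ ≤ ‖a z‖ₑ := by
    intro v hv z
    rw [← ofReal_norm, ← ofReal_norm]
    apply ENNReal.ofReal_le_ofReal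
    calc ‖a z v‖ ≤ ‖a z‖ * ‖v‖ := (a z).le_opNorm v
      _ ≤ ‖a z‖ * 1 := mul_le_mul_of_nonneg_left hv (norm_nonneg _)
      _ = ‖a z‖ := mul_one _
  obtain ⟨g₁, h1, h1'⟩ := hext (fun w => a w (1, 0))
    (fun z hz => (hdiff z hz).1.differentiableWithinAt)
    (lt_of_le_of_lt (lintegral_mono fun z => pow_le_pow_left' (hnorm _ (by simp) z) 2) hL)
  obtain ⟨g₂, h2, h2'⟩ := hext (fun w => a w (0, 1))
    (fun z hz => (hdiff z hz).2.differentiableWithinAt)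
    (lt_of_le_of_lt (lintegral_mono fun z => pow_le_pow_left' (hnorm _ (by simp) z) 2) hL)
  have hc : EqOn (fun z => fderiv ℂ g₁ z (0, 1)) (fun z => fderiv ℂ g₂ z (1, 0)) (bidisc r) := by
    refine EqOn.of_subset_closure (s := U) ?_ (snd_deriv hO h1).continuousOn
      (fst_deriv hO h2).continuousOn hsub hdense
    intro z hz
    have e1 : g₁ =ᶠ[𝓝 z] fun w => a w (1, 0) := by
      filter_upwards [hU.mem_nhds hz] with w hw using h1' w hw
    have e2 : g₂ =ᶠ[𝓝 z] fun w => a w (0, 1) := by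
      filter_upwards [hU.mem_nhds hz] with w hw using h2' w hw
    simp only
    rw [e1.fderiv_eq, e2.fderiv_eq]
    exact hclosed z hz
  obtain ⟨G₀, hG₀, hG₀'⟩ := exists_primitive hr g₁ g₂ h1 h2 hc
  obtain ⟨z₀, hz₀⟩ := hne
  obtain ⟨g₀, hg₀⟩ := τ.surj (F z₀)
  obtain ⟨c, hc⟩ : ∃ c, c = g₀ - G₀ z₀ := ⟨_, rfl⟩
  have hder : ∀ w ∈ U, fderiv ℂ G₀ w = a w := by
    intro w hw
    rw [hdec (fderiv ℂ G₀ w), (hG₀' w (hsub hw)).1, (hG₀' w (hsub hw)).2, h1' w hw, h2' w hw]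
    exact (hdec (a w)).symm
  have hcont : ContinuousOn (fun z => decide (F z = τ.q (G₀ z + c))) U := by
    intro z hz
    apply ContinuousAt.continuousWithinAt
    obtain ⟨G, ε, hε, hbU, hG⟩ := hloc z hz
    have hG₀d : ∀ w ∈ Metric.ball z ε, DifferentiableAt ℂ G₀ w := fun w hw =>
      (hG₀ w (hsub (hbU hw))).differentiableAt (hO.mem_nhds (hsub (hbU hw)))
    obtain ⟨κ, hκ⟩ := Metric.isOpen_ball.exists_is_const_of_fderiv_eq_zero (𝕜 := ℂ)
      (s := Metric.ball z ε) (f := fun w => G w - G₀ w) (convex_ball z ε).isPreconnected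
      (fun w hw => ((hG w hw).2.differentiableAt.sub (hG₀d w hw)).differentiableWithinAt)
      (fun w hw => by
        have e1 := (hG w hw).2.sub (hG₀d w hw).hasFDerivAt
        have e2 := e1.fderiv
        rw [hder w (hbU hw), sub_self] at e2
        exact e2)
    have hev : (fun z => decide (F z = τ.q (G₀ z + c))) =ᶠ[𝓝 z]
        fun _ => decide (κ - c ∈ gaussSet) := by
      filter_upwards [Metric.ball_mem_nhds z hε] with w hw
      congr 1
      rw [(hG w hw).1, τ.eq_iff', eq_iff_iff]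
      have e3 : G w - (G₀ w + c) = κ - c := by
        rw [← hκ w hw]
        ring
      rw [e3]
    exact continuousAt_const.congr hev.symm
  refine ⟨fun z => G₀ z + c, fun z hz => (hG₀ z hz).add_const c, fun z hz => ?_⟩
  have h3 := hpc.constant hcont hz hz₀
  simp only [decide_eq_decide] at h3
  rw [h3, ← hg₀, hc]
  congr 1
  ring

end ExtA

/-- X4. Maps to `E` of finite energy extend over `z₁ = 0`. -/
theorem extend_one {E : Type*} [TopologicalSpace E] (τ : Tor E) {r : ℝ} (hr : 0 < r)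
    (F : ℂ × ℂ → E) (a : ℂ × ℂ → (ℂ × ℂ →L[ℂ] ℂ))
    (hF : HolOn τ F a (bidisc r ∩ {z | z.1 ≠ 0}))
    (hL : ∫⁻ z in bidisc r ∩ {z | z.1 ≠ 0}, ‖a z‖ₑ ^ 2 < ∞) :
    ∃ G : ℂ × ℂ → ℂ, DifferentiableOn ℂ G (bidisc r) ∧
      ∀ z ∈ bidisc r, z.1 ≠ 0 → F z = τ.q (G z) := by
  obtain ⟨G, h1, h2⟩ := extend_gen τ hr (U := bidisc r ∩ {z | z.1 ≠ 0}) (by
      rw [dom_one]
      exact isOpen_punct.prod Metric.isOpen_ball) (by
      rw [dom_one]
      exact (preconn_punct hr).prod (convex_ball _ _).isPreconnected) (by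
      rw [dom_one]
      exact (nonempty_punct hr).prod ⟨0, Metric.mem_ball_self hr⟩)
    inter_subset_left (by
      rw [dom_one, bidisc_eq, closure_prod_eq]
      exact prod_mono (ball_subset_closure_punct hr) subset_closure)
    (fun g hg hL => by
      obtain ⟨g', e1, e2⟩ := extend_fun_one hr g hg hL
      exact ⟨g', e1, fun z hz => e2 z hz.1 hz.2⟩) F a hF hL
  exact ⟨G, h1, fun z hz hz1 => h2 z ⟨hz, hz1⟩⟩

/-- X5. Maps to `E` of finite energy extend over `z₁ z₂ = 0`. -/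
theorem extend_two {E : Type*} [TopologicalSpace E] (τ : Tor E) {r : ℝ} (hr : 0 < r)
    (F : ℂ × ℂ → E) (a : ℂ × ℂ → (ℂ × ℂ →L[ℂ] ℂ))
    (hF : HolOn τ F a (bidisc r ∩ {z | z.1 ≠ 0 ∧ z.2 ≠ 0}))
    (hL : ∫⁻ z in bidisc r ∩ {z | z.1 ≠ 0 ∧ z.2 ≠ 0}, ‖a z‖ₑ ^ 2 < ∞) :
    ∃ G : ℂ × ℂ → ℂ, DifferentiableOn ℂ G (bidisc r) ∧
      ∀ z ∈ bidisc r, z.1 ≠ 0 → z.2 ≠ 0 → F z = τ.q (G z) := by
  obtain ⟨G, h1, h2⟩ := extend_gen τ hr (U := bidisc r ∩ {z | z.1 ≠ 0 ∧ z.2 ≠ 0}) (by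
      rw [dom_two]
      exact isOpen_punct.prod isOpen_punct) (by
      rw [dom_two]
      exact (preconn_punct hr).prod (preconn_punct hr)) (by
      rw [dom_two]
      exact (nonempty_punct hr).prod (nonempty_punct hr))
    inter_subset_left (by
      rw [dom_two, bidisc_eq, closure_prod_eq]
      exact prod_mono (ball_subset_closure_punct hr) (ball_subset_closure_punct hr))
    (fun g hg hL => by
      obtain ⟨g', e1, e2⟩ := extend_fun_two hr g hg hL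
      exact ⟨g', e1, fun z hz => e2 z hz.1 hz.2.1 hz.2.2⟩) F a hF hL
  exact ⟨G, h1, fun z hz hz1 hz2 => h2 z ⟨hz, hz1, hz2⟩⟩

end Pool.Agent.K708C
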