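import Pool.Agent.Lib.MP_708a61_C.Lift

/-! Task M (Montel): the limit theorem for maps with bounded energy. -/

open Set Filter Topology MeasureTheory
open scoped ENNReal NNReal

namespace Pool.Agent.K708C

/-- Mean value inequality on a circle. -/
theorem mvCircle {c : ℂ} {r ρ : ℝ} (hρ : 0 < ρ) (hρr : ρ < r) {f : ℂ → ℂ}
    (hf : DifferentiableOn ℂ f (Metric.ball c r)) :
    ENNReal.ofReal (2 * Real.pi) * ‖f c‖ₑ ≤
      ∫⁻ θ in Ioo (-Real.pi) Real.pi, ‖f (circleMap c ρ θ)‖ₑ := by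
  have h1 : DiffContOnCl ℂ f (Metric.ball c |ρ|) := by
    rw [abs_of_pos hρ]
    refine ⟨hf.mono (Metric.ball_subset_ball hρr.le), ?_⟩
    rw [closure_ball c hρ.ne']
    exact hf.continuousOn.mono (Metric.closedBall_subset_ball hρr)
  have h2 := h1.circleAverage
  rw [Real.circleAverage_eq_integral_add (-Real.pi),
    intervalIntegral.integral_comp_add_right (fun θ => f (circleMap c ρ θ))] at h2
  have e1 : (0 : ℝ) + -Real.pi = -Real.pi := by ring
  have e2 : 2 * Real.pi + -Real.pi = Real.pi := by ring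
  have hpi := Real.pi_pos
  rw [e1, e2, intervalIntegral.integral_of_le (by linarith), integral_Ioc_eq_integral_Ioo] at h2
  have h3 : ‖∫ θ in Ioo (-Real.pi) Real.pi, f (circleMap c ρ θ)‖ₑ =
      ENNReal.ofReal (2 * Real.pi) * ‖f c‖ₑ := by
    have h4 : (∫ θ in Ioo (-Real.pi) Real.pi, f (circleMap c ρ θ)) =
        (2 * Real.pi) • f c := by
      rw [← h2, smul_smul, mul_inv_cancel₀ (by positivity), one_smul]
    rw [h4, enorm_smul, Real.enorm_eq_ofReal (by positivity)]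
  rw [← h3]
  exact enorm_integral_le_lintegral_enorm _

/-- Mean value inequality on a disc. -/
theorem mvDisc {c : ℂ} {r : ℝ} (hr : 0 < r) {f : ℂ → ℂ}
    (hf : DifferentiableOn ℂ f (Metric.ball c r)) :
    ENNReal.ofReal (Real.pi * r ^ 2) * ‖f c‖ₑ ≤ ∫⁻ w in Metric.ball c r, ‖f w‖ₑ := by
  have hpi := Real.pi_pos
  rw [← lintegral_indicator Metric.isOpen_ball.measurableSet,
    ← lintegral_add_left_eq_self _ c, ← Complex.lintegral_comp_polarCoord_symm]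
  have hsub : Ioo (0 : ℝ) r ×ˢ Ioo (-Real.pi) Real.pi ⊆ polarCoord.target := by
    rintro ⟨x, y⟩ ⟨hx, hy⟩
    exact ⟨hx.1, hy⟩
  refine le_trans ?_ (lintegral_mono_set hsub)
  have hS : MeasurableSet (Ioo (0 : ℝ) r ×ˢ Ioo (-Real.pi) Real.pi) :=
    measurableSet_Ioo.prod measurableSet_Ioo
  have e1 : ∫⁻ p in Ioo (0 : ℝ) r ×ˢ Ioo (-Real.pi) Real.pi, ENNReal.ofReal p.1 •
      (Metric.ball c r).indicator (fun w => ‖f w‖ₑ) (c + Complex.polarCoord.symm p) =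
      ∫⁻ p in Ioo (0 : ℝ) r ×ˢ Ioo (-Real.pi) Real.pi, ENNReal.ofReal p.1 *
        ‖f (circleMap c p.1 p.2)‖ₑ := by
    refine setLIntegral_congr_fun hS ?_
    rintro ⟨x, y⟩ ⟨hx, hy⟩
    have e2 : c + Complex.polarCoord.symm (x, y) = circleMap c x y := by
      rw [Complex.polarCoord_symm_apply, circleMap, Complex.exp_mul_I, Complex.ofReal_cos,
        Complex.ofReal_sin]
    have e3 : circleMap c x y ∈ Metric.ball c r := by
      rw [Metric.mem_ball, dist_eq_norm, circleMap_sub_center, norm_circleMap_zero,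
        abs_of_pos hx.1]
      exact hx.2
    simp only
    rw [e2, indicator_of_mem e3, smul_eq_mul]
  rw [e1]
  have hcm : Continuous fun p : ℝ × ℝ => circleMap c p.1 p.2 := by
    unfold circleMap
    fun_prop
  have hcont : ContinuousOn (fun p : ℝ × ℝ => f (circleMap c p.1 p.2))
      (Ioo (0 : ℝ) r ×ˢ Ioo (-Real.pi) Real.pi) := by
    refine hf.continuousOn.comp hcm.continuousOn ?_
    rintro ⟨x, y⟩ ⟨hx, hy⟩
    rw [Metric.mem_ball, dist_eq_norm, circleMap_sub_center, norm_circleMap_zero,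
      abs_of_pos hx.1]
    exact hx.2
  have hmeas : AEMeasurable (fun p : ℝ × ℝ => ENNReal.ofReal p.1 * ‖f (circleMap c p.1 p.2)‖ₑ)
      ((volume : Measure (ℝ × ℝ)).restrict (Ioo (0 : ℝ) r ×ˢ Ioo (-Real.pi) Real.pi)) :=
    (ENNReal.measurable_ofReal.comp measurable_fst).aemeasurable.mul
      (hcont.enorm.aemeasurable hS)
  rw [Measure.volume_eq_prod, ← Measure.prod_restrict] at hmeas ⊢
  rw [lintegral_prod _ hmeas]
  have h5 : ∀ x ∈ Ioo (0 : ℝ) r, ENNReal.ofReal x * (ENNReal.ofReal (2 * Real.pi) * ‖f c‖ₑ) ≤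
      ∫⁻ y in Ioo (-Real.pi) Real.pi, ENNReal.ofReal x * ‖f (circleMap c x y)‖ₑ := by
    intro x hx
    rw [lintegral_const_mul' _ _ ENNReal.ofReal_ne_top]
    exact mul_le_mul_right (mvCircle hx.1 hx.2 hf) _
  refine le_trans (le_of_eq ?_) (setLIntegral_mono' measurableSet_Ioo h5)
  rw [lintegral_mul_const _ ENNReal.measurable_ofReal]
  have h6 : ∫⁻ x in Ioo (0 : ℝ) r, ENNReal.ofReal x = ENNReal.ofReal (r ^ 2 / 2) := by
    rw [← ofReal_integral_eq_lintegral_ofReal]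
    · rw [← integral_Ioc_eq_integral_Ioo, ← intervalIntegral.integral_of_le hr.le, integral_id]
      congr 1
      ring
    · exact (continuous_id.integrableOn_Icc).mono_set Ioo_subset_Icc_self
    · filter_upwards [ae_restrict_mem measurableSet_Ioo] with x hx
      exact hx.1.le
  rw [h6, ← mul_assoc, ← ENNReal.ofReal_mul (by positivity)]
  congr 2
  ring

theorem mvDisc2 {c : ℂ} {r : ℝ} (hr : 0 < r) {f : ℂ → ℂ}
    (hf : DifferentiableOn ℂ f (Metric.ball c r)) :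
    ENNReal.ofReal (Real.pi * r ^ 2) * ‖f c‖ₑ ^ 2 ≤ ∫⁻ w in Metric.ball c r, ‖f w‖ₑ ^ 2 := by
  have h := mvDisc hr (hf.pow 2)
  simpa only [Pi.pow_apply, enorm_pow] using h

/-- M1. Mean value: sup bound from the L2 norm (functions on open subsets of `ℂ × ℂ`). -/
theorem sup_le_of_L2 {r : ℝ} (hr : 0 < r) :
    ∃ K : ℝ, 0 < K ∧ ∀ (z : ℂ × ℂ) (g : ℂ × ℂ → ℂ) (C : ℝ), 0 ≤ C →
      DifferentiableOn ℂ g (Metric.ball z r) →
      ∫⁻ w in Metric.ball z r, ‖g w‖ₑ ^ 2 ≤ ENNReal.ofReal (C ^ 2) → ‖g z‖ ≤ K * C := by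
  have hpi := Real.pi_pos
  refine ⟨(Real.pi * r ^ 2)⁻¹, by positivity, fun z g C hC hg hL => ?_⟩
  obtain ⟨z1, z2⟩ := z
  have hb : Metric.ball (z1, z2) r = Metric.ball z1 r ×ˢ Metric.ball z2 r :=
    (ball_prod_same z1 z2 r).symm
  have hs1 : ∀ x ∈ Metric.ball z1 r, DifferentiableOn ℂ (fun y => g (x, y)) (Metric.ball z2 r) := by
    intro x hx
    refine hg.comp (f := fun y => (x, y)) (by fun_prop) ?_
    intro y hy
    rw [hb]
    exact ⟨hx, hy⟩
  have hs2 : DifferentiableOn ℂ (fun x => g (x, z2)) (Metric.ball z1 r) := by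
    refine hg.comp (f := fun x => (x, z2)) (by fun_prop) ?_
    intro y hy
    rw [hb]
    exact ⟨hy, Metric.mem_ball_self hr⟩
  obtain ⟨A, hA⟩ : ∃ A : ℝ≥0∞, A = ENNReal.ofReal (Real.pi * r ^ 2) := ⟨_, rfl⟩
  have hAt : A ≠ ⊤ := by rw [hA]; exact ENNReal.ofReal_ne_top
  have h1 : A * ‖g (z1, z2)‖ₑ ^ 2 ≤ ∫⁻ x in Metric.ball z1 r, ‖g (x, z2)‖ₑ ^ 2 := by
    rw [hA]
    exact mvDisc2 hr hs2
  have h2 : ∀ x ∈ Metric.ball z1 r, A * ‖g (x, z2)‖ₑ ^ 2 ≤
      ∫⁻ y in Metric.ball z2 r, ‖g (x, y)‖ₑ ^ 2 := by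
    intro x hx
    rw [hA]
    exact mvDisc2 hr (hs1 x hx)
  have h3 : A * (A * ‖g (z1, z2)‖ₑ ^ 2) ≤ ∫⁻ w in Metric.ball (z1, z2) r, ‖g w‖ₑ ^ 2 := by
    refine (mul_le_mul_right h1 A).trans ?_
    rw [← lintegral_const_mul' _ _ hAt]
    refine (setLIntegral_mono' Metric.isOpen_ball.measurableSet h2).trans (le_of_eq ?_)
    have hmeas : AEMeasurable (fun w : ℂ × ℂ => ‖g w‖ₑ ^ 2)
        ((volume : Measure (ℂ × ℂ)).restrict (Metric.ball z1 r ×ˢ Metric.ball z2 r)) := by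
      rw [← hb]
      exact (hg.continuousOn.enorm.aemeasurable Metric.isOpen_ball.measurableSet).pow_const 2
    rw [hb, Measure.volume_eq_prod, ← Measure.prod_restrict] at *
    rw [lintegral_prod _ hmeas]
  have h4 : (A * ‖g (z1, z2)‖ₑ) ^ 2 ≤ ENNReal.ofReal C ^ 2 := by
    rw [← ENNReal.ofReal_pow hC]
    refine le_trans (le_of_eq ?_) (h3.trans hL)
    ring
  have h5 : A * ‖g (z1, z2)‖ₑ ≤ ENNReal.ofReal C := by
    by_contra hcon
    rw [not_le] at hcon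
    exact absurd h4 (not_le.2 (ENNReal.pow_lt_pow_left two_ne_zero hcon))
  have h6 := ENNReal.toReal_mono ENNReal.ofReal_ne_top h5
  rw [ENNReal.toReal_mul, ENNReal.toReal_ofReal hC, hA, ENNReal.toReal_ofReal (by positivity),
    toReal_enorm] at h6
  rw [inv_mul_eq_div, le_div_iff₀ (by positivity), mul_comm]
  exact h6

/-- Cauchy estimates of order one and two. -/
theorem cauchy2 {V : Type*} [NormedAddCommGroup V] [NormedSpace ℂ V] {c : V} {R B : ℝ}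
    (hR : 0 < R) {G : V → ℂ} (hG : DifferentiableOn ℂ G (Metric.ball c R))
    (hB : ∀ z ∈ Metric.ball c R, ‖G z‖ ≤ B) :
    ‖fderiv ℂ G c‖ ≤ 2 * B / R ∧ ∀ z ∈ Metric.ball c R,
      ‖G z - G c‖ ≤ 2 * B / R * dist z c ∧
      ‖G z - G c - fderiv ℂ G c (z - c)‖ ≤ 4 * B / R ^ 2 * ‖z - c‖ ^ 2 := by
  have hc := Metric.mem_ball_self (x := c) hR
  have hB0 : 0 ≤ B := (norm_nonneg _).trans (hB c hc)
  have hm : MapsTo G (Metric.ball c R) (Metric.closedBall (G c) (2 * B)) := by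
    intro z hz
    rw [Metric.mem_closedBall, dist_eq_norm]
    have := norm_sub_le (G z) (G c)
    linarith [hB z hz, hB c hc]
  have h1 := Complex.norm_fderiv_le_div_of_mapsTo_ball hG hm hR
  refine ⟨h1, fun z hz => ⟨?_, ?_⟩⟩
  · rw [← dist_eq_norm]
    exact Complex.dist_le_div_mul_dist_of_mapsTo_ball hG hm hz
  · have hd : HasFDerivAt G (fderiv ℂ G c) c :=
      ((hG c hc).differentiableAt (Metric.ball_mem_nhds c hR)).hasFDerivAt
    have hd2 : DifferentiableOn ℂ (fun w => G w - fderiv ℂ G c (w - c)) (Metric.ball c R) :=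
      hG.sub (by fun_prop)
    have hm2 : MapsTo (fun w => G w - fderiv ℂ G c (w - c)) (Metric.ball c R)
        (Metric.closedBall (G c - fderiv ℂ G c (c - c)) (4 * B)) := by
      intro w hw
      rw [Metric.mem_closedBall, dist_eq_norm, sub_self, map_zero, sub_zero]
      have e1 : G w - fderiv ℂ G c (w - c) - G c = (G w - G c) - fderiv ℂ G c (w - c) := by ring
      rw [e1]
      have h2 := norm_sub_le (G w - G c) (fderiv ℂ G c (w - c))
      have h3 : ‖G w - G c‖ ≤ 2 * B := by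
        have := hm hw
        rwa [Metric.mem_closedBall, dist_eq_norm] at this
      have h4 : ‖fderiv ℂ G c (w - c)‖ ≤ 2 * B := by
        refine ((fderiv ℂ G c).le_opNorm _).trans ?_
        rw [Metric.mem_ball, dist_eq_norm] at hw
        calc ‖fderiv ℂ G c‖ * ‖w - c‖ ≤ 2 * B / R * R :=
              mul_le_mul h1 hw.le (norm_nonneg _) (by positivity)
          _ = 2 * B := by field_simp
      linarith
    have ho : (fun w => (G w - fderiv ℂ G c (w - c)) - (G c - fderiv ℂ G c (c - c))) =o[𝓝 c]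
        fun w => ‖w - c‖ ^ 1 := by
      have h5 := hd.isLittleO
      simp only [pow_one]
      refine (h5.norm_right).congr_left fun w => ?_
      rw [sub_self, map_zero, sub_zero]
      ring
    have h6 := Complex.dist_le_mul_div_pow_of_mapsTo_ball_of_isLittleO hd2 hm2 ho hz
    rw [dist_eq_norm, dist_eq_norm, sub_self, map_zero, sub_zero] at h6
    have e1 : G z - fderiv ℂ G c (z - c) - G c = G z - G c - fderiv ℂ G c (z - c) := by ring
    rw [e1] at h6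
    refine h6.trans (le_of_eq ?_)
    rw [div_pow]
    ring

/-- M2. Limits along an ultrafilter of locally uniformly bounded holomorphic functions. -/
theorem limit_bounded (u : Ultrafilter ℕ) {z₀ : ℂ × ℂ} {r B : ℝ} (hr : 0 < r)
    (G : ℕ → ℂ × ℂ → ℂ) (hG : ∀ᶠ n in (u : Filter ℕ), DifferentiableOn ℂ (G n) (Metric.ball z₀ r))
    (hB : ∀ᶠ n in (u : Filter ℕ), ∀ z ∈ Metric.ball z₀ r, ‖G n z‖ ≤ B) :
    ∃ G' : ℂ × ℂ → ℂ, DifferentiableOn ℂ G' (Metric.ball z₀ r) ∧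
      (∀ z ∈ Metric.ball z₀ r,
        Tendsto (fun p : ℕ × (ℂ × ℂ) => G p.1 p.2) ((u : Filter ℕ) ×ˢ 𝓝 z) (𝓝 (G' z))) ∧
      (∀ z ∈ Metric.ball z₀ r,
        Tendsto (fun n => fderiv ℂ (G n) z) (u : Filter ℕ) (𝓝 (fderiv ℂ G' z))) := by
  classical
  have hu : NeBot (u : Filter ℕ) := u.neBot
  have : ProperSpace (ℂ × ℂ →L[ℂ] ℂ) := FiniteDimensional.proper ℂ _
  obtain ⟨R, hR⟩ : ∃ R : ℂ × ℂ → ℝ, R = fun z => r - dist z z₀ := ⟨_, rfl⟩
  have hR0 : ∀ z ∈ Metric.ball z₀ r, 0 < R z := by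
    intro z hz
    rw [hR]
    rw [Metric.mem_ball] at hz
    simp only
    linarith
  have hRs : ∀ z, Metric.ball z (R z) ⊆ Metric.ball z₀ r := by
    intro z
    rw [hR]
    refine Metric.ball_subset_ball' ?_
    simp
  -- the estimates
  have hest : ∀ z ∈ Metric.ball z₀ r, ∀ᶠ n in (u : Filter ℕ), ‖fderiv ℂ (G n) z‖ ≤ 2 * B / R z ∧
      ∀ w ∈ Metric.ball z (R z), ‖G n w - G n z‖ ≤ 2 * B / R z * dist w z ∧
      ‖G n w - G n z - fderiv ℂ (G n) z (w - z)‖ ≤ 4 * B / R z ^ 2 * ‖w - z‖ ^ 2 := by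
    intro z hz
    filter_upwards [hG, hB] with n h1 h2
    exact cauchy2 (hR0 z hz) (h1.mono (hRs z)) fun w hw => h2 w (hRs z hw)
  -- the limits
  have hlim : ∀ z ∈ Metric.ball z₀ r, ∃ y : ℂ, Tendsto (fun n => G n z) (u : Filter ℕ) (𝓝 y) := by
    intro z hz
    obtain ⟨y, -, hy⟩ := (isCompact_closedBall (0 : ℂ) B).ultrafilter_le_nhds
      (u.map fun n => G n z) (by
        rw [le_principal_iff, Ultrafilter.coe_map, mem_map]
        filter_upwards [hB] with n h1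
        rw [mem_preimage, mem_closedBall_zero_iff]
        exact h1 z hz)
    exact ⟨y, hy⟩
  have hlimA : ∀ z ∈ Metric.ball z₀ r, ∃ y : ℂ × ℂ →L[ℂ] ℂ,
      Tendsto (fun n => fderiv ℂ (G n) z) (u : Filter ℕ) (𝓝 y) := by
    intro z hz
    obtain ⟨y, -, hy⟩ := (isCompact_closedBall (0 : ℂ × ℂ →L[ℂ] ℂ) (2 * B / R z)).ultrafilter_le_nhds
      (u.map fun n => fderiv ℂ (G n) z) (by
        rw [le_principal_iff, Ultrafilter.coe_map, mem_map]
        filter_upwards [hest z hz] with n h1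
        rw [mem_preimage, mem_closedBall_zero_iff]
        exact h1.1)
    exact ⟨y, hy⟩
  choose! G' hG' using hlim
  choose! A hA using hlimA
  have hder : ∀ z ∈ Metric.ball z₀ r, HasFDerivAt G' (A z) z := by
    intro z hz
    have hq : ∀ w ∈ Metric.ball z (R z), ‖G' w - G' z - A z (w - z)‖ ≤
        4 * B / R z ^ 2 * ‖w - z‖ ^ 2 := by
      intro w hw
      have h1 : Tendsto (fun n => ‖G n w - G n z - fderiv ℂ (G n) z (w - z)‖) (u : Filter ℕ)
          (𝓝 ‖G' w - G' z - A z (w - z)‖) := by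
        refine (((hG' w (hRs z hw)).sub (hG' z hz)).sub ?_).norm
        exact ((ContinuousLinearMap.apply ℂ ℂ (w - z)).continuous.tendsto (A z)).comp (hA z hz)
      refine le_of_tendsto h1 ?_
      filter_upwards [hest z hz] with n h2
      exact (h2.2 w hw).2
    refine HasFDerivAt.of_isLittleO ?_
    have h3 : (fun w => G' w - G' z - A z (w - z)) =O[𝓝 z] fun w => ‖w - z‖ ^ 2 := by
      refine Asymptotics.IsBigO.of_bound (4 * B / R z ^ 2) ?_
      filter_upwards [Metric.ball_mem_nhds z (hR0 z hz)] with w hw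
      refine (hq w hw).trans (le_of_eq ?_)
      rw [Real.norm_of_nonneg (by positivity)]
    exact h3.trans_isLittleO (Asymptotics.isLittleO_pow_sub_sub z (by norm_num))
  refine ⟨G', fun z hz => (hder z hz).differentiableAt.differentiableWithinAt, fun z hz => ?_,
    fun z hz => ?_⟩
  · have h1 : Tendsto (fun p : ℕ × (ℂ × ℂ) => G p.1 z) ((u : Filter ℕ) ×ˢ 𝓝 z) (𝓝 (G' z)) :=
      (hG' z hz).comp tendsto_fst
    have h2 : Tendsto (fun p : ℕ × (ℂ × ℂ) => G p.1 p.2 - G p.1 z) ((u : Filter ℕ) ×ˢ 𝓝 z)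
        (𝓝 0) := by
      have h3 : Tendsto (fun p : ℕ × (ℂ × ℂ) => 2 * B / R z * dist p.2 z)
          ((u : Filter ℕ) ×ˢ 𝓝 z) (𝓝 0) := by
        have h4 : Tendsto (fun w : ℂ × ℂ => 2 * B / R z * dist w z) (𝓝 z) (𝓝 0) := by
          have h5 : Continuous fun w : ℂ × ℂ => 2 * B / R z * dist w z := by fun_prop
          have h6 := h5.tendsto z
          simpa using h6
        exact h4.comp tendsto_snd
      refine squeeze_zero_norm' ?_ h3
      filter_upwards [(hest z hz).prod_mk (Metric.ball_mem_nhds z (hR0 z hz))] with p hp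
      exact (hp.1.2 p.2 hp.2).1
    have h3 := h1.add h2
    rw [add_zero] at h3
    refine h3.congr fun p => ?_
    ring
  · rw [(hder z hz).fderiv]
    exact hA z hz

/-- Partial derivatives of holomorphic functions are holomorphic. -/
theorem fderiv_holo {G : ℂ × ℂ → ℂ} {U : Set (ℂ × ℂ)} (hU : IsOpen U)
    (hG : DifferentiableOn ℂ G U) (v : ℂ × ℂ) :
    DifferentiableOn ℂ (fun w => fderiv ℂ G w v) U := by
  intro z hz
  refine DifferentiableAt.differentiableWithinAt ?_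
  -- a ball on which G is bounded
  have hcz : ContinuousAt G z := hG.continuousOn.continuousAt (hU.mem_nhds hz)
  have hb : ∀ᶠ w in 𝓝 z, ‖G w‖ < ‖G z‖ + 1 :=
    hcz.norm.eventually_lt_const (by linarith)
  obtain ⟨ρ, hρ, hρs⟩ := Metric.eventually_nhds_iff_ball.1 (hb.and (hU.mem_nhds hz))
  obtain ⟨s, hs⟩ : ∃ s : ℝ, s = ρ / 2 := ⟨_, rfl⟩
  have hs0 : 0 < s := by rw [hs]; positivity
  obtain ⟨B, hB⟩ : ∃ B : ℝ, B = ‖G z‖ + 1 := ⟨_, rfl⟩
  have hball : ∀ x ∈ Metric.ball z s, Metric.ball x s ⊆ Metric.ball z ρ := by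
    intro x hx
    refine Metric.ball_subset_ball' ?_
    rw [Metric.mem_ball] at hx
    linarith
  have hzs : Metric.ball z s ⊆ Metric.ball z ρ := Metric.ball_subset_ball (by linarith)
  have hGd : DifferentiableOn ℂ G (Metric.ball z ρ) := hG.mono fun w hw => (hρs w hw).2
  have hGB : ∀ w ∈ Metric.ball z ρ, ‖G w‖ ≤ B := fun w hw => by
    rw [hB]
    exact (hρs w hw).1.le
  obtain ⟨u, hu⟩ : ∃ u : Ultrafilter ℕ, (u : Filter ℕ) ≤ atTop :=
    ⟨Ultrafilter.of atTop, Ultrafilter.of_le _⟩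
  obtain ⟨H, hH⟩ : ∃ H : ℕ → ℂ × ℂ → ℂ, H = fun (n : ℕ) (w : ℂ × ℂ) =>
    ((n : ℂ) + 1) * (G (w + ((n : ℂ) + 1)⁻¹ • v) - G w) := ⟨_, rfl⟩
  have hne : ∀ n : ℕ, ((n : ℂ) + 1) ≠ 0 := fun n => Nat.cast_add_one_ne_zero n
  have hnorm : ∀ n : ℕ, ‖(n : ℂ) + 1‖ = n + 1 := by
    intro n
    have : (n : ℂ) + 1 = ((n + 1 : ℕ) : ℂ) := by push_cast; ring
    rw [this, Complex.norm_natCast]
    push_cast
    ring
  have hstep : ∀ᶠ n : ℕ in (u : Filter ℕ), ‖((n : ℂ) + 1)⁻¹ • v‖ < s := by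
    refine hu ?_
    have h1 : Tendsto (fun n : ℕ => 1 / ((n : ℝ) + 1) * ‖v‖) atTop (𝓝 (0 * ‖v‖)) :=
      tendsto_one_div_add_atTop_nhds_zero_nat.mul_const _
    rw [zero_mul] at h1
    filter_upwards [h1.eventually_lt_const hs0] with n hn
    rw [norm_smul, norm_inv, hnorm]
    rw [one_div] at hn
    exact hn
  have hHd : ∀ᶠ n in (u : Filter ℕ), DifferentiableOn ℂ (H n) (Metric.ball z s) := by
    filter_upwards [hstep] with n hn
    rw [hH]
    refine (DifferentiableOn.sub ?_ (hGd.mono hzs)).const_mul _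
    refine hGd.comp (f := fun w => w + ((n : ℂ) + 1)⁻¹ • v) (by fun_prop) ?_
    intro w hw
    refine hball w hw ?_
    rw [Metric.mem_ball, dist_eq_norm, add_sub_cancel_left]
    exact hn
  have hHB : ∀ᶠ n in (u : Filter ℕ), ∀ w ∈ Metric.ball z s, ‖H n w‖ ≤ 2 * B / s * ‖v‖ := by
    filter_upwards [hstep] with n hn w hw
    have h1 := (cauchy2 hs0 (hGd.mono (hball w hw)) fun x hx => hGB x (hball w hw hx)).2
      (w + ((n : ℂ) + 1)⁻¹ • v) (by
        rw [Metric.mem_ball, dist_eq_norm, add_sub_cancel_left]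
        exact hn)
    have h2 := h1.1
    rw [dist_eq_norm, add_sub_cancel_left, norm_smul, norm_inv, hnorm] at h2
    rw [hH]
    simp only
    rw [norm_mul, hnorm]
    have h3 : (0 : ℝ) < n + 1 := by positivity
    calc ((n : ℝ) + 1) * ‖G (w + ((n : ℂ) + 1)⁻¹ • v) - G w‖
        ≤ ((n : ℝ) + 1) * (2 * B / s * (((n : ℝ) + 1)⁻¹ * ‖v‖)) :=
          mul_le_mul_of_nonneg_left h2 h3.le
      _ = 2 * B / s * ‖v‖ := by
          field_simp
  obtain ⟨H', h1, h2, -⟩ := limit_bounded u hs0 H hHd hHB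
  have hu' : NeBot (u : Filter ℕ) := u.neBot
  have heq : ∀ w ∈ Metric.ball z s, fderiv ℂ G w v = H' w := by
    intro w hw
    have h3 : Tendsto (fun n => H n w) (u : Filter ℕ) (𝓝 (H' w)) :=
      (h2 w hw).comp (tendsto_id.prodMk tendsto_const_nhds)
    have hd : HasFDerivAt G (fderiv ℂ G w) w :=
      ((hGd w (hzs hw)).differentiableAt (Metric.isOpen_ball.mem_nhds (hzs hw))).hasFDerivAt
    have h4 : Tendsto (fun n => H n w) atTop (𝓝 (fderiv ℂ G w v)) := by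
      have h5 : Tendsto (fun n : ℕ => ‖(n : ℂ) + 1‖) atTop atTop := by
        simp only [hnorm]
        exact tendsto_atTop_add_const_right _ _ tendsto_natCast_atTop_atTop
      have h6 := hd.lim v h5
      rw [hH]
      simpa only [smul_eq_mul] using h6
    exact tendsto_nhds_unique (h4.mono_left hu) h3
  have h5 : DifferentiableAt ℂ H' z :=
    (h1 z (Metric.mem_ball_self hs0)).differentiableAt (Metric.ball_mem_nhds z hs0)
  refine h5.congr_of_eventuallyEq ?_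
  filter_upwards [Metric.ball_mem_nhds z hs0] with w hw
  exact heq w hw

theorem evK {X : Type*} [TopologicalSpace X] {l : Filter ℕ} {K : Set X} (hK : IsCompact K)
    {P : ℕ → X → Prop} (hP : ∀ y ∈ K, ∀ᶠ z in l ×ˢ 𝓝 y, P z.1 z.2) :
    ∀ᶠ n in l, ∀ y ∈ K, P n y := by
  simp only [← eventually_iSup, ← hK.prod_nhdsSet_eq_biSup] at hP
  exact hP.curry.mono fun _ h => h.self_of_nhdsSet

/-- Small lifts of points. -/
theorem Tor.exists_small {E : Type*} [TopologicalSpace E] (τ : Tor E) (e : E) :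
    ∃ g : ℂ, ‖g‖ ≤ 2 ∧ τ.q g = e := by
  obtain ⟨g, hg⟩ := τ.surj e
  refine ⟨g - ((⌊g.re⌋ : ℂ) + (⌊g.im⌋ : ℂ) * Complex.I), ?_, ?_⟩
  · refine (Complex.norm_le_abs_re_add_abs_im _).trans ?_
    have e1 : (g - ((⌊g.re⌋ : ℂ) + (⌊g.im⌋ : ℂ) * Complex.I)).re = g.re - ⌊g.re⌋ := by simp
    have e2 : (g - ((⌊g.re⌋ : ℂ) + (⌊g.im⌋ : ℂ) * Complex.I)).im = g.im - ⌊g.im⌋ := by simp
    rw [e1, e2, abs_of_nonneg (by linarith [Int.floor_le g.re]),
      abs_of_nonneg (by linarith [Int.floor_le g.im])]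
    linarith [Int.lt_floor_add_one g.re, Int.lt_floor_add_one g.im]
  · rw [← hg, τ.eq_iff]
    refine ⟨-⌊g.re⌋, -⌊g.im⌋, ?_⟩
    push_cast
    ring

theorem clm_eq (A : ℂ × ℂ →L[ℂ] ℂ) : A = (A (1, 0)) • ContinuousLinearMap.fst ℂ ℂ ℂ +
    (A (0, 1)) • ContinuousLinearMap.snd ℂ ℂ ℂ := by
  ext <;> simp

/-- The limit near a point. -/
theorem limit_loc {E : Type*} [TopologicalSpace E] (τ : Tor E)
    (u : Ultrafilter ℕ) (Un : ℕ → Set (ℂ × ℂ))
    (F : ℕ → ℂ × ℂ → E) (a : ℕ → ℂ × ℂ → (ℂ × ℂ →L[ℂ] ℂ))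
    (hF : ∀ n, HolOn τ (F n) (a n) (Un n)) (C : ℝ≥0)
    (hC : ∀ n, ∫⁻ z in Un n, ‖a n z‖ₑ ^ 2 ≤ C) {z : ℂ × ℂ} {r : ℝ} (hr : 0 < r)
    (hS : ∀ᶠ n in (u : Filter ℕ), Metric.ball z (3 * r) ⊆ Un n) :
    ∃ (G' : ℂ × ℂ → ℂ) (A : ℂ × ℂ → (ℂ × ℂ →L[ℂ] ℂ)), ∀ w ∈ Metric.ball z (2 * r),
      ContinuousAt A w ∧ HasFDerivAt G' (A w) w ∧
      Tendsto (fun p : ℕ × (ℂ × ℂ) => F p.1 p.2) ((u : Filter ℕ) ×ˢ 𝓝 w) (𝓝 (τ.q (G' w))) ∧
      Tendsto (fun p : ℕ × (ℂ × ℂ) => a p.1 p.2) ((u : Filter ℕ) ×ˢ 𝓝 w) (𝓝 (A w)) := by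
  have hu : NeBot (u : Filter ℕ) := u.neBot
  have h2r : 0 < 2 * r := by positivity
  have h3r : 0 < 3 * r := by positivity
  have h23 : Metric.ball z (2 * r) ⊆ Metric.ball z (3 * r) := Metric.ball_subset_ball (by linarith)
  -- the lifts
  have hlift : ∀ n, ∃ G : ℂ × ℂ → ℂ, Metric.ball z (3 * r) ⊆ Un n → ‖G z‖ ≤ 2 ∧
      ∀ w ∈ Metric.ball z (3 * r), F n w = τ.q (G w) ∧ HasFDerivAt G (a n w) w := by
    intro n
    by_cases h : Metric.ball z (3 * r) ⊆ Un n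
    · obtain ⟨g, hg1, hg2⟩ := τ.exists_small (F n z)
      obtain ⟨G, h1, h2⟩ := ((hF n).mono τ h).exists_lift τ Metric.isOpen_ball (convex_ball z (3 * r))
        (Metric.mem_ball_self h3r) hg2
      exact ⟨G, fun _ => ⟨by rw [h1]; exact hg1, h2⟩⟩
    · exact ⟨0, fun h' => absurd h' h⟩
  choose G hG using hlift
  have hGd : ∀ n, Metric.ball z (3 * r) ⊆ Un n → DifferentiableOn ℂ (G n) (Metric.ball z (3 * r)) :=
    fun n hn w hw => ((hG n hn).2 w hw).2.differentiableAt.differentiableWithinAt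
  have had : ∀ n, Metric.ball z (3 * r) ⊆ Un n → ∀ v,
      DifferentiableOn ℂ (fun w => a n w v) (Metric.ball z (3 * r)) := by
    intro n hn v
    refine (fderiv_holo Metric.isOpen_ball (hGd n hn) v).congr fun w hw => ?_
    rw [((hG n hn).2 w hw).2.fderiv]
  -- the bound of the derivatives
  obtain ⟨K, hK0, hK⟩ := sup_le_of_L2 hr
  obtain ⟨M, hM⟩ : ∃ M : ℝ, M = K * Real.sqrt C := ⟨_, rfl⟩
  have hM0 : 0 ≤ M := by rw [hM]; positivity
  have hab : ∀ n, Metric.ball z (3 * r) ⊆ Un n → ∀ w ∈ Metric.ball z (2 * r), ∀ v,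
      ‖a n w v‖ ≤ M * ‖v‖ := by
    intro n hn w hw v
    have hb : Metric.ball w r ⊆ Metric.ball z (3 * r) := by
      refine Metric.ball_subset_ball' ?_
      rw [Metric.mem_ball] at hw
      linarith
    have h1 := hK w (fun x => a n x v) (Real.sqrt C * ‖v‖) (by positivity)
      ((had n hn v).mono hb) ?_
    · rw [hM]
      linarith
    · have e1 : (Real.sqrt C * ‖v‖) ^ 2 = C * ‖v‖ ^ 2 := by
        rw [mul_pow, Real.sq_sqrt (NNReal.coe_nonneg C)]
      rw [e1, ENNReal.ofReal_mul (NNReal.coe_nonneg C), ENNReal.ofReal_coe_nnreal,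
        ENNReal.ofReal_pow (norm_nonneg _), ofReal_norm]
      calc ∫⁻ x in Metric.ball w r, ‖a n x v‖ₑ ^ 2
          ≤ ∫⁻ x in Metric.ball w r, ‖a n x‖ₑ ^ 2 * ‖v‖ₑ ^ 2 := by
            refine lintegral_mono fun x => ?_
            rw [← mul_pow]
            exact pow_le_pow_left₀ bot_le ((a n x).le_opENorm v) 2
        _ = (∫⁻ x in Metric.ball w r, ‖a n x‖ₑ ^ 2) * ‖v‖ₑ ^ 2 :=
            lintegral_mul_const' _ _ (ENNReal.pow_ne_top enorm_ne_top)
        _ ≤ C * ‖v‖ₑ ^ 2 := by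
            refine mul_le_mul_left ?_ _
            exact (lintegral_mono_set (hb.trans hn)).trans (hC n)
  have hGb : ∀ n, Metric.ball z (3 * r) ⊆ Un n → ∀ w ∈ Metric.ball z (2 * r),
      ‖G n w‖ ≤ 2 + M * (2 * r) := by
    intro n hn w hw
    have hzz := Metric.mem_ball_self (x := z) h2r
    have h1 := Convex.norm_image_sub_le_of_norm_hasFDerivWithin_le (𝕜 := ℂ) (f := G n)
      (f' := fun w => a n w) (s := Metric.ball z (2 * r)) (C := M)
      (fun x hx => ((hG n hn).2 x (h23 hx)).2.hasFDerivWithinAt)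
      (fun x hx => (a n x).opNorm_le_bound hM0 (hab n hn x hx)) (convex_ball z (2 * r)) hzz hw
    have h2 : ‖w - z‖ ≤ 2 * r := by
      rw [Metric.mem_ball, dist_eq_norm] at hw
      exact hw.le
    have h3 := norm_sub_norm_le (G n w) (G n z)
    have h4 := (hG n hn).1
    have h5 := mul_le_mul_of_nonneg_left h2 hM0
    linarith
  obtain ⟨G', hG'1, hG'2, hG'3⟩ := limit_bounded u h2r G
    (hS.mono fun n hn => (hGd n hn).mono h23) (hS.mono fun n hn => hGb n hn)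
  have hone : ‖((1 : ℂ), (0 : ℂ))‖ = 1 := by simp [Prod.norm_def]
  have hone' : ‖((0 : ℂ), (1 : ℂ))‖ = 1 := by simp [Prod.norm_def]
  obtain ⟨g1, hg11, hg12, -⟩ := limit_bounded u h2r (fun n w => a n w (1, 0))
    (hS.mono fun n hn => (had n hn _).mono h23)
    (B := M) (hS.mono fun n hn w hw => by
      have := hab n hn w hw (1, 0)
      rwa [hone, mul_one] at this)
  obtain ⟨g2, hg21, hg22, -⟩ := limit_bounded u h2r (fun n w => a n w (0, 1))
    (hS.mono fun n hn => (had n hn _).mono h23)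
    (B := M) (hS.mono fun n hn w hw => by
      have := hab n hn w hw (0, 1)
      rwa [hone', mul_one] at this)
  refine ⟨G', fun w => (g1 w) • ContinuousLinearMap.fst ℂ ℂ ℂ +
    (g2 w) • ContinuousLinearMap.snd ℂ ℂ ℂ, fun w hw => ?_⟩
  have hwn := Metric.isOpen_ball.mem_nhds hw
  have haw : Tendsto (fun p : ℕ × (ℂ × ℂ) => a p.1 p.2) ((u : Filter ℕ) ×ˢ 𝓝 w)
      (𝓝 ((g1 w) • ContinuousLinearMap.fst ℂ ℂ ℂ + (g2 w) • ContinuousLinearMap.snd ℂ ℂ ℂ)) := by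
    have h1 := ((hg12 w hw).smul_const (ContinuousLinearMap.fst ℂ ℂ ℂ)).add
      ((hg22 w hw).smul_const (ContinuousLinearMap.snd ℂ ℂ ℂ))
    refine h1.congr fun p => ?_
    exact (clm_eq (a p.1 p.2)).symm
  refine ⟨?_, ?_, ?_, haw⟩
  · exact ((hg11.continuousOn.continuousAt hwn).smul continuousAt_const).add
      ((hg21.continuousOn.continuousAt hwn).smul continuousAt_const)
  · have h1 : Tendsto (fun n => a n w) (u : Filter ℕ)
        (𝓝 ((g1 w) • ContinuousLinearMap.fst ℂ ℂ ℂ + (g2 w) • ContinuousLinearMap.snd ℂ ℂ ℂ)) :=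
      haw.comp (tendsto_id.prodMk tendsto_const_nhds)
    have h2 : Tendsto (fun n => a n w) (u : Filter ℕ) (𝓝 (fderiv ℂ G' w)) := by
      refine (hG'3 w hw).congr' ?_
      filter_upwards [hS] with n hn
      exact ((hG n hn).2 w (h23 hw)).2.fderiv
    have h3 := tendsto_nhds_unique h1 h2
    simp only
    rw [h3]
    exact ((hG'1 w hw).differentiableAt hwn).hasFDerivAt
  · have h1 := (τ.continuous.tendsto (G' w)).comp (hG'2 w hw)
    refine h1.congr' ?_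
    filter_upwards [hS.prod_mk hwn] with p hp
    exact (((hG p.1 hp.1).2 p.2 (h23 hp.2)).1).symm

/-- M3. The limit theorem. -/
theorem limit_hol {E : Type*} [TopologicalSpace E] [CompactSpace E] [T2Space E] (τ : Tor E)
    (u : Ultrafilter ℕ) {U : Set (ℂ × ℂ)} (hU : IsOpen U) (Un : ℕ → Set (ℂ × ℂ))
    (hUn : ∀ n, IsOpen (Un n))
    (hex : ∀ K ⊆ U, IsCompact K → ∀ᶠ n in (u : Filter ℕ), K ⊆ Un n)
    (F : ℕ → ℂ × ℂ → E) (a : ℕ → ℂ × ℂ → (ℂ × ℂ →L[ℂ] ℂ))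
    (hF : ∀ n, HolOn τ (F n) (a n) (Un n)) (C : ℝ≥0)
    (hC : ∀ n, ∫⁻ z in Un n, ‖a n z‖ₑ ^ 2 ≤ C) :
    ∃ (F' : ℂ × ℂ → E) (a' : ℂ × ℂ → (ℂ × ℂ →L[ℂ] ℂ)), HolOn τ F' a' U ∧
      (∀ z ∈ U, Tendsto (fun p : ℕ × (ℂ × ℂ) => F p.1 p.2) ((u : Filter ℕ) ×ˢ 𝓝 z)
        (𝓝 (F' z))) ∧
      ∫⁻ z in U, ‖a' z‖ₑ ^ 2 ≤ C := by
  have hu : NeBot (u : Filter ℕ) := u.neBot
  have hloc : ∀ z ∈ U, ∃ (r : ℝ) (G' : ℂ × ℂ → ℂ) (A : ℂ × ℂ → (ℂ × ℂ →L[ℂ] ℂ)), 0 < r ∧
      Metric.ball z r ⊆ U ∧ ∀ w ∈ Metric.ball z r, ContinuousAt A w ∧ HasFDerivAt G' (A w) w ∧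
      Tendsto (fun p : ℕ × (ℂ × ℂ) => F p.1 p.2) ((u : Filter ℕ) ×ˢ 𝓝 w) (𝓝 (τ.q (G' w))) ∧
      Tendsto (fun p : ℕ × (ℂ × ℂ) => a p.1 p.2) ((u : Filter ℕ) ×ˢ 𝓝 w) (𝓝 (A w)) := by
    intro z hz
    obtain ⟨ε, hε, hεU⟩ := Metric.isOpen_iff.1 hU z hz
    obtain ⟨r, hr⟩ : ∃ r : ℝ, r = ε / 4 := ⟨_, rfl⟩
    have hr0 : 0 < r := by rw [hr]; positivity
    have hcb : Metric.closedBall z (3 * r) ⊆ U :=
      (Metric.closedBall_subset_ball (by linarith)).trans hεU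
    obtain ⟨G', A, h⟩ := limit_loc τ u Un F a hF C hC hr0
      ((hex _ hcb (isCompact_closedBall _ _)).mono fun n hn => Metric.ball_subset_closedBall.trans hn)
    exact ⟨2 * r, G', A, by positivity, (Metric.ball_subset_ball (by linarith)).trans hεU, h⟩
  choose! r G' A hr hrU hA using hloc
  obtain ⟨F', hF'⟩ : ∃ F' : ℂ × ℂ → E, F' = fun z => τ.q (G' z z) := ⟨_, rfl⟩
  obtain ⟨a', ha'⟩ : ∃ a' : ℂ × ℂ → (ℂ × ℂ →L[ℂ] ℂ), a' = fun z => A z z := ⟨_, rfl⟩
  have hlF : ∀ z ∈ U, Tendsto (fun p : ℕ × (ℂ × ℂ) => F p.1 p.2) ((u : Filter ℕ) ×ˢ 𝓝 z)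
      (𝓝 (F' z)) := by
    intro z hz
    rw [hF']
    exact (hA z hz z (Metric.mem_ball_self (hr z hz))).2.2.1
  have hla : ∀ z ∈ U, Tendsto (fun p : ℕ × (ℂ × ℂ) => a p.1 p.2) ((u : Filter ℕ) ×ˢ 𝓝 z)
      (𝓝 (a' z)) := by
    intro z hz
    rw [ha']
    exact (hA z hz z (Metric.mem_ball_self (hr z hz))).2.2.2
  have hFe : ∀ z ∈ U, ∀ w ∈ Metric.ball z (r z), F' w = τ.q (G' z w) := fun z hz w hw =>
    tendsto_nhds_unique (hlF w (hrU z hz hw)) (hA z hz w hw).2.2.1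
  have hae : ∀ z ∈ U, ∀ w ∈ Metric.ball z (r z), a' w = A z w := fun z hz w hw =>
    tendsto_nhds_unique (hla w (hrU z hz hw)) (hA z hz w hw).2.2.2
  have hac : ∀ z ∈ U, ContinuousAt a' z := by
    intro z hz
    refine (hA z hz z (Metric.mem_ball_self (hr z hz))).1.congr ?_
    filter_upwards [Metric.ball_mem_nhds z (hr z hz)] with w hw
    exact (hae z hz w hw).symm
  refine ⟨F', a', fun z hz => ⟨G' z, ?_⟩, hlF, ?_⟩
  · filter_upwards [Metric.ball_mem_nhds z (hr z hz)] with w hw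
    refine ⟨hFe z hz w hw, ?_⟩
    rw [hae z hz w hw]
    exact (hA z hz w hw).2.1
  -- the energy
  have hKC : ∀ K ⊆ U, IsCompact K → ∫⁻ z in K, ‖a' z‖ₑ ^ 2 ≤ C := by
    intro K hKU hK
    have hvol : volume K ≠ ⊤ := hK.measure_lt_top.ne
    have hε : ∀ ε : ℝ, 0 < ε → ∫⁻ z in K, ‖a' z‖ₑ ^ 2 ≤ C + ENNReal.ofReal ε * volume K := by
      intro ε hε
      have h1 : ∀ z ∈ K, ∀ᶠ p : ℕ × (ℂ × ℂ) in (u : Filter ℕ) ×ˢ 𝓝 z,
          ‖a' p.2‖ ^ 2 ≤ ‖a p.1 p.2‖ ^ 2 + ε := by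
        intro z hz
        have h2 : Tendsto (fun p : ℕ × (ℂ × ℂ) => ‖a' p.2‖ ^ 2 - ‖a p.1 p.2‖ ^ 2)
            ((u : Filter ℕ) ×ˢ 𝓝 z) (𝓝 (‖a' z‖ ^ 2 - ‖a' z‖ ^ 2)) :=
          ((((hac z (hKU hz)).tendsto.comp tendsto_snd).norm).pow 2).sub
            (((hla z (hKU hz)).norm).pow 2)
        rw [sub_self] at h2
        filter_upwards [h2.eventually_lt_const hε] with p hp
        linarith
      obtain ⟨n, hn1, hn2⟩ := ((evK hK (P := fun n w => ‖a' w‖ ^ 2 ≤ ‖a n w‖ ^ 2 + ε) h1).and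
        (hex K hKU hK)).exists
      calc ∫⁻ z in K, ‖a' z‖ₑ ^ 2 ≤ ∫⁻ z in K, (‖a n z‖ₑ ^ 2 + ENNReal.ofReal ε) := by
            refine setLIntegral_mono' hK.measurableSet fun z hz => ?_
            have h3 := ENNReal.ofReal_le_ofReal (hn1 z hz)
            rwa [ENNReal.ofReal_add (by positivity) hε.le, ENNReal.ofReal_pow (norm_nonneg _),
              ENNReal.ofReal_pow (norm_nonneg _), ofReal_norm, ofReal_norm] at h3
        _ = (∫⁻ z in K, ‖a n z‖ₑ ^ 2) + ENNReal.ofReal ε * volume K := by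
            rw [lintegral_add_right _ measurable_const, setLIntegral_const]
        _ ≤ C + ENNReal.ofReal ε * volume K := by
            refine add_le_add_left ?_ _
            exact (lintegral_mono_set hn2).trans (hC n)
    have hlim : Tendsto (fun ε : ℝ => (C : ℝ≥0∞) + ENNReal.ofReal ε * volume K) (𝓝[>] 0)
        (𝓝 ((C : ℝ≥0∞) + ENNReal.ofReal 0 * volume K)) := by
      refine Tendsto.const_add _ ?_
      refine ENNReal.Tendsto.mul_const ?_ (Or.inr hvol)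
      exact (ENNReal.continuous_ofReal.tendsto 0).mono_left nhdsWithin_le_nhds
    rw [ENNReal.ofReal_zero, zero_mul, add_zero] at hlim
    refine ge_of_tendsto hlim ?_
    filter_upwards [self_mem_nhdsWithin] with ε h
    exact hε ε h
  obtain ⟨Q, hQ1, hQ2, hQ3, hQ4⟩ := hU.exists_iUnion_isClosed
  obtain ⟨P, hP⟩ : ∃ P : ℕ → Set (ℂ × ℂ), P = fun n => Q n ∩ Metric.closedBall 0 n := ⟨_, rfl⟩
  have hPc : ∀ n, IsCompact (P n) := by
    intro n
    rw [hP]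
    exact (isCompact_closedBall _ _).inter_left (hQ1 n)
  have hPm : Monotone P := by
    intro m n hmn
    rw [hP]
    refine inter_subset_inter (hQ4 hmn) (Metric.closedBall_subset_closedBall ?_)
    exact_mod_cast hmn
  have hPu : ⋃ n, P n = U := by
    refine Subset.antisymm (iUnion_subset fun n => ?_) fun z hz => ?_
    · rw [hP]
      exact inter_subset_left.trans (hQ2 n)
    · rw [← hQ3, mem_iUnion] at hz
      obtain ⟨m, hm⟩ := hz
      obtain ⟨k, hk⟩ := exists_nat_ge ‖z‖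
      rw [mem_iUnion]
      refine ⟨max m k, ?_⟩
      rw [hP]
      refine ⟨hQ4 (le_max_left m k) hm, ?_⟩
      rw [mem_closedBall_zero_iff]
      refine hk.trans ?_
      exact_mod_cast le_max_right m k
  rw [← hPu, setLIntegral_iUnion_of_directed _ hPm.directed_le]
  refine iSup_le fun n => hKC _ ?_ (hPc n)
  rw [hP]
  exact inter_subset_left.trans (hQ2 n)

end Pool.Agent.K708C
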