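import Pool.Agent.Lib.MP_708a61_C.Lift

/-! Task R (Lines): holomorphic maps from the projective plane minus a finite set to `E` are
constant, in homogeneous coordinates. -/

open Set Filter Topology MeasureTheory
open scoped ENNReal NNReal

namespace Pool.Agent.K708C

/-- R1. A holomorphic map from the projective line to `E` is constant. -/
theorem line_const {E : Type*} [TopologicalSpace E] (τ : Tor E) (F F' : ℂ → E)
    (a a' : ℂ → ℂ →L[ℂ] ℂ) (hF : HolOn τ F a univ) (hF' : HolOn τ F' a' univ)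
    (h : ∀ s : ℂ, s ≠ 0 → F s = F' s⁻¹) : ∀ s : ℂ, F s = F' 0 := by
  obtain ⟨g₀, hg₀⟩ := τ.surj (F 0)
  obtain ⟨g₁, hg₁⟩ := τ.surj (F' 0)
  obtain ⟨G, -, hG⟩ := hF.exists_lift τ isOpen_univ convex_univ (mem_univ 0) hg₀
  obtain ⟨G', -, hG'⟩ := hF'.exists_lift τ isOpen_univ convex_univ (mem_univ 0) hg₁
  have hGd : Differentiable ℂ G := fun z => (hG z (mem_univ z)).2.differentiableAt
  have hGd' : Differentiable ℂ G' := fun z => (hG' z (mem_univ z)).2.differentiableAt
  have hpre : IsPreconnected ({0}ᶜ : Set ℂ) :=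
    (isConnected_compl_singleton_of_one_lt_rank (by simp [Complex.rank_real_complex]) 0).isPreconnected
  have hcinv : ContinuousOn (fun s : ℂ => G' s⁻¹) ({0}ᶜ : Set ℂ) := by
    apply hGd'.continuous.comp_continuousOn
    exact continuousOn_inv₀
  have hsub := τ.lift_sub hpre (G := G) (G' := fun s => G' s⁻¹) hGd.continuous.continuousOn hcinv
    (fun s hs => by
      rw [← (hG s (mem_univ s)).1, ← (hG' s⁻¹ (mem_univ _)).1]
      exact h s hs)
  have h1 : (1 : ℂ) ∈ ({0}ᶜ : Set ℂ) := by simp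
  have hGG : ∀ s : ℂ, s ≠ 0 → G s = G' s⁻¹ + (G 1 - G' 1) := by
    intro s hs
    have := hsub s hs 1 h1
    simp only [inv_one] at this
    rw [← this]
    ring
  have hb : Bornology.IsBounded (range G) := by
    have hk : IsCompact (Metric.closedBall (0 : ℂ) 1) := isCompact_closedBall 0 1
    have hb1 := (hk.image hGd.continuous).isBounded
    have hb2 := (hk.image (hGd'.continuous.add (continuous_const : Continuous fun _ : ℂ => G 1 - G' 1))).isBounded
    refine (hb1.union hb2).subset ?_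
    rintro _ ⟨s, rfl⟩
    by_cases hs : ‖s‖ ≤ 1
    · left
      exact ⟨s, by simpa using hs, rfl⟩
    · right
      push Not at hs
      have hs0 : s ≠ 0 := by
        rintro rfl
        simp at hs
        linarith
      refine ⟨s⁻¹, ?_, (hGG s hs0).symm⟩
      simp only [Metric.mem_closedBall, dist_zero_right, norm_inv]
      exact inv_le_one_of_one_le₀ hs.le
  have hconst : ∀ z w, G z = G w := fun z w => hGd.apply_eq_apply_of_bounded hb z w
  have hc' : ∀ s : ℂ, s ≠ 0 → G' s = G' 1 := by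
    intro s hs
    have e1 := hGG s⁻¹ (inv_ne_zero hs)
    rw [inv_inv, hconst s⁻¹ 1] at e1
    linear_combination -e1
  have hc0 : G' 0 = G' 1 := by
    have hcl : IsClosed {s : ℂ | G' s = G' 1} := isClosed_eq hGd'.continuous continuous_const
    have hd : Dense ({0}ᶜ : Set ℂ) := dense_compl_singleton 0
    have : ({s : ℂ | G' s = G' 1}) = univ := by
      apply hcl.closure_eq.symm.trans
      apply (hd.mono ?_).closure_eq
      intro s hs
      exact hc' s hs
    have h0 : (0 : ℂ) ∈ {s : ℂ | G' s = G' 1} := by rw [this]; exact mem_univ _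
    exact h0
  intro s
  rw [(hG s (mem_univ s)).1, hconst s 1, ← (hG 1 (mem_univ 1)).1, h 1 one_ne_zero, inv_one,
    (hG' 1 (mem_univ 1)).1, ← hc0, ← (hG' 0 (mem_univ 0)).1]

/-- the cone over the projective plane minus the finite set of the points `[s]`, `s ∈ S` -/
def coneMinus (S : Finset (Fin 3 → ℂ)) : Set (Fin 3 → ℂ) :=
  {v | v ≠ 0 ∧ ∀ s ∈ S, ∀ c : ℂ, v ≠ c • s}

/-- If `x` is not in the planes spanned by `v` and the `s ∈ S`, the punctured plane spanned by `v`
and `x` is in the cone. -/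
theorem mem_coneMinus_of {S : Finset (Fin 3 → ℂ)} {v x : Fin 3 → ℂ} (hv : v ∈ coneMinus S)
    (hx0 : x ∉ Submodule.span ℂ ({v, 0} : Set (Fin 3 → ℂ)))
    (hx : ∀ s ∈ S, x ∉ Submodule.span ℂ ({v, s} : Set (Fin 3 → ℂ))) {α β : ℂ}
    (h : α ≠ 0 ∨ β ≠ 0) : α • v + β • x ∈ coneMinus S := by
  have key : ∀ s : Fin 3 → ℂ, x ∉ Submodule.span ℂ ({v, s} : Set (Fin 3 → ℂ)) → ∀ c : ℂ,
      β ≠ 0 → α • v + β • x ≠ c • s := by
    intro s hs c hβ he
    apply hs
    rw [Submodule.mem_span_pair]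
    refine ⟨-(β⁻¹ * α), β⁻¹ * c, ?_⟩
    have e1 : x = β⁻¹ • (β • x) := by rw [smul_smul, inv_mul_cancel₀ hβ, one_smul]
    have e2 : β • x = c • s - α • v := by rw [← he]; abel
    rw [e2, smul_sub, smul_smul, smul_smul] at e1
    rw [e1]
    module
  refine ⟨?_, ?_⟩
  · by_cases hβ : β = 0
    · have hα : α ≠ 0 := by
        rcases h with h | h
        · exact h
        · exact absurd hβ h
      rw [hβ, zero_smul, add_zero]
      exact smul_ne_zero hα hv.1
    · have := key 0 hx0 0 hβ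
      simpa using this
  · intro s hs c
    by_cases hβ : β = 0
    · have hα : α ≠ 0 := by
        rcases h with h | h
        · exact h
        · exact absurd hβ h
      rw [hβ, zero_smul, add_zero]
      intro he
      apply hv.2 s hs (α⁻¹ * c)
      rw [mul_smul, ← he, smul_smul, inv_mul_cancel₀ hα, one_smul]
    · exact key s (hx s hs) c hβ

/-- a plane is not everything -/
theorem span_pair_ne_top (v s : Fin 3 → ℂ) : Submodule.span ℂ ({v, s} : Set (Fin 3 → ℂ)) ≠ ⊤ := by
  classical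
  intro h
  have h1 : Module.finrank ℂ (Submodule.span ℂ ({v, s} : Set (Fin 3 → ℂ))) ≤ 2 := by
    have := finrank_span_finset_le_card (R := ℂ) ({v, s} : Finset (Fin 3 → ℂ))
    have h2 : (({v, s} : Finset (Fin 3 → ℂ)) : Set (Fin 3 → ℂ)) = {v, s} := by simp
    unfold Set.finrank at this
    rw [h2] at this
    exact this.trans Finset.card_le_two
  rw [h, finrank_top, Module.finrank_fin_fun] at h1
  omega

/-- Values at `v` and at `x` agree. -/
theorem value_eq {E : Type*} [TopologicalSpace E] (τ : Tor E) (S : Finset (Fin 3 → ℂ))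
    (g : (Fin 3 → ℂ) → E) (a : (Fin 3 → ℂ) → ((Fin 3 → ℂ) →L[ℂ] ℂ))
    (hg : HolOn τ g a (coneMinus S))
    (hh : ∀ v ∈ coneMinus S, ∀ c : ℂ, c ≠ 0 → g (c • v) = g v)
    {v x : Fin 3 → ℂ}
    (hm : ∀ α β : ℂ, (α ≠ 0 ∨ β ≠ 0) → α • v + β • x ∈ coneMinus S) : g v = g x := by
  have hd1 : Differentiable ℂ (fun s : ℂ => (1 : ℂ) • v + s • x) := by fun_prop
  have hd2 : Differentiable ℂ (fun s : ℂ => s • v + (1 : ℂ) • x) := by fun_prop
  have h1 := hg.comp τ (γ := fun s : ℂ => (1 : ℂ) • v + s • x) (U' := univ) isOpen_univ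
    hd1.differentiableOn (fun s _ => hm 1 s (Or.inl one_ne_zero))
  have h2 := hg.comp τ (γ := fun s : ℂ => s • v + (1 : ℂ) • x) (U' := univ) isOpen_univ
    hd2.differentiableOn (fun s _ => hm s 1 (Or.inr one_ne_zero))
  have h3 := line_const τ _ _ _ _ h1 h2 (by
    intro s hs
    rw [← hh _ (hm 1 s (Or.inl one_ne_zero)) s⁻¹ (inv_ne_zero hs)]
    congr 1
    rw [smul_add, smul_smul, smul_smul, mul_one, inv_mul_cancel₀ hs]) 0
  simpa using h3

/-- R2. A holomorphic map from the projective plane minus a finite set to `E` is constant. -/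
theorem plane_const {E : Type*} [TopologicalSpace E] (τ : Tor E) (S : Finset (Fin 3 → ℂ))
    (g : (Fin 3 → ℂ) → E) (a : (Fin 3 → ℂ) → ((Fin 3 → ℂ) →L[ℂ] ℂ))
    (hg : HolOn τ g a (coneMinus S))
    (hh : ∀ v ∈ coneMinus S, ∀ c : ℂ, c ≠ 0 → g (c • v) = g v) :
    ∀ v ∈ coneMinus S, ∀ w ∈ coneMinus S, g v = g w := by
  classical
  intro v hv w hw
  -- the finitely many planes to avoid
  set T : Finset (Submodule ℂ (Fin 3 → ℂ)) :=
    ((insert 0 S).image (fun s => Submodule.span ℂ ({v, s} : Set (Fin 3 → ℂ)))) ∪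
    ((insert 0 S).image (fun s => Submodule.span ℂ ({w, s} : Set (Fin 3 → ℂ)))) with hT
  have hex : ∃ x : Fin 3 → ℂ, ∀ p ∈ T, x ∉ p := by
    by_contra hcon
    push Not at hcon
    have hcov : (⋃ p ∈ T, (p : Set (Fin 3 → ℂ))) = univ := by
      rw [eq_univ_iff_forall]
      intro x
      obtain ⟨p, hp, hx⟩ := hcon x
      exact mem_iUnion₂.mpr ⟨p, hp, hx⟩
    have := Subspace.top_mem_of_biUnion_eq_univ hcov
    rw [hT, Finset.mem_union, Finset.mem_image, Finset.mem_image] at this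
    rcases this with ⟨s, -, hs⟩ | ⟨s, -, hs⟩
    · exact span_pair_ne_top v s hs
    · exact span_pair_ne_top w s hs
  obtain ⟨x, hx⟩ := hex
  have hxv : ∀ s ∈ insert 0 S, x ∉ Submodule.span ℂ ({v, s} : Set (Fin 3 → ℂ)) := fun s hs =>
    hx _ (Finset.mem_union_left _ (Finset.mem_image_of_mem _ hs))
  have hxw : ∀ s ∈ insert 0 S, x ∉ Submodule.span ℂ ({w, s} : Set (Fin 3 → ℂ)) := fun s hs =>
    hx _ (Finset.mem_union_right _ (Finset.mem_image_of_mem (fun s => Submodule.span ℂ ({w, s} : Set (Fin 3 → ℂ))) hs))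
  have e1 : g v = g x := value_eq τ S g a hg hh (fun α β h => mem_coneMinus_of hv
    (hxv 0 (Finset.mem_insert_self _ _)) (fun s hs => hxv s (Finset.mem_insert_of_mem hs)) h)
  have e2 : g w = g x := value_eq τ S g a hg hh (fun α β h => mem_coneMinus_of hw
    (hxw 0 (Finset.mem_insert_self _ _)) (fun s hs => hxw s (Finset.mem_insert_of_mem hs)) h)
  rw [e1, e2]

end Pool.Agent.K708C
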