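import Pool.Agent.Lib.MP_708a61_C.Defs

/-! Task L (Lift): elementary properties of holomorphic maps to `E`. -/

open Set Filter Topology MeasureTheory
open scoped ENNReal NNReal

namespace Pool.Agent.K708C

variable {E : Type*} [TopologicalSpace E] (τ : Tor E)
variable {V : Type*} [NormedAddCommGroup V] [NormedSpace ℂ V]

/-- Nonzero Gaussian integers have norm at least one. -/
theorem gauss_norm {m n : ℤ} (h : (m : ℂ) + (n : ℂ) * Complex.I ≠ 0) :
    1 ≤ ‖(m : ℂ) + (n : ℂ) * Complex.I‖ := by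
  have hsq : ‖(m : ℂ) + (n : ℂ) * Complex.I‖ ^ 2 = (m : ℝ) ^ 2 + (n : ℝ) ^ 2 := by
    rw [← Complex.normSq_eq_norm_sq, Complex.normSq_apply]
    simp
    ring
  have hmn : 1 ≤ m ^ 2 + n ^ 2 := by
    by_contra hlt
    push Not at hlt
    have h0 : m ^ 2 + n ^ 2 = 0 := by nlinarith [sq_nonneg m, sq_nonneg n]
    have hm : m = 0 := by nlinarith [sq_nonneg m, sq_nonneg n]
    have hn : n = 0 := by nlinarith [sq_nonneg m, sq_nonneg n]
    apply h
    rw [hm, hn]
    simp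
  have hmn' : (1 : ℝ) ≤ (m : ℝ) ^ 2 + (n : ℝ) ^ 2 := by exact_mod_cast hmn
  nlinarith [norm_nonneg ((m : ℂ) + (n : ℂ) * Complex.I)]

/-- the Gaussian lattice as a subset of the plane -/
def gaussSet : Set ℂ := {z | ∃ m n : ℤ, z = (m : ℂ) + (n : ℂ) * Complex.I}

theorem gaussSet_sub {z w : ℂ} (hz : z ∈ gaussSet) (hw : w ∈ gaussSet) : z - w ∈ gaussSet := by
  obtain ⟨m, n, rfl⟩ := hz
  obtain ⟨m', n', rfl⟩ := hw
  refine ⟨m - m', n - n', ?_⟩
  push_cast
  ring

theorem gaussSet_norm {z : ℂ} (hz : z ∈ gaussSet) (h0 : z ≠ 0) : 1 ≤ ‖z‖ := by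
  obtain ⟨m, n, rfl⟩ := hz
  exact gauss_norm h0

instance : DiscreteTopology gaussSet := by
  apply DiscreteTopology.of_forall_le_dist (r := 1) one_pos
  intro x y hxy
  show (1 : ℝ) ≤ dist (x : ℂ) (y : ℂ)
  rw [dist_eq_norm]
  apply gaussSet_norm (gaussSet_sub x.2 y.2)
  intro h
  exact hxy (Subtype.ext (sub_eq_zero.mp h))

theorem Tor.eq_iff' (z w : ℂ) : τ.q z = τ.q w ↔ z - w ∈ gaussSet := τ.eq_iff z w

/-- The covering map is injective on discs of radius `1/2`. -/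
theorem Tor.injOn (c : ℂ) : InjOn τ.q (Metric.ball c (1 / 2)) := by
  intro z hz w hw h
  by_contra hne
  have h1 := gaussSet_norm ((τ.eq_iff' z w).mp h) (sub_ne_zero.mpr hne)
  rw [Metric.mem_ball] at hz hw
  have h2 : dist z w ≤ dist z c + dist w c := dist_triangle_right z w c
  rw [← dist_eq_norm] at h1
  linarith

theorem Tor.continuous : Continuous τ.q := τ.cov.continuous

/-- Discs are open. -/
theorem Tor.isOpen_disc (c : ℂ) (ε : ℝ) : IsOpen (τ.disc c ε) :=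
  τ.cov.isOpenMap _ Metric.isOpen_ball

/-- Discs form a basis of neighbourhoods. -/
theorem Tor.exists_disc_subset (c : ℂ) {O : Set E} (hO : O ∈ 𝓝 (τ.q c)) :
    ∃ ε, 0 < ε ∧ τ.disc c ε ⊆ O := by
  have h := τ.continuous.continuousAt (x := c) hO
  rw [Filter.mem_map, Metric.mem_nhds_iff] at h
  obtain ⟨ε, hε, h⟩ := h
  exact ⟨ε, hε, image_subset_iff.mpr h⟩

theorem Tor.disc_mem_nhds (c : ℂ) {ε : ℝ} (hε : 0 < ε) : τ.disc c ε ∈ 𝓝 (τ.q c) :=
  (τ.isOpen_disc c ε).mem_nhds ⟨c, Metric.mem_ball_self hε, rfl⟩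

theorem HolAt.continuousAt {F : V → E} {a : V → V →L[ℂ] ℂ} {z : V} (h : HolAt τ F a z) :
    ContinuousAt F z := by
  obtain ⟨G, hG⟩ := h
  have h1 : ContinuousAt (fun w => τ.q (G w)) z :=
    ContinuousAt.comp (g := τ.q) τ.continuous.continuousAt hG.self_of_nhds.2.continuousAt
  exact h1.congr (hG.mono fun w hw => hw.1.symm)

theorem HolOn.continuousOn {F : V → E} {a : V → V →L[ℂ] ℂ} {U : Set V} (h : HolOn τ F a U) :
    ContinuousOn F U := fun z hz => ((h z hz).continuousAt τ).continuousWithinAt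

theorem HolOn.mono {F : V → E} {a : V → V →L[ℂ] ℂ} {U U' : Set V} (h : HolOn τ F a U)
    (hU : U' ⊆ U) : HolOn τ F a U' := fun z hz => h z (hU hz)

/-- Images of holomorphic functions. -/
theorem holOn_of_differentiableOn {G : V → ℂ} {U : Set V} (hU : IsOpen U)
    (hG : DifferentiableOn ℂ G U) : HolOn τ (fun z => τ.q (G z)) (fderiv ℂ G) U := by
  intro z hz
  refine ⟨G, ?_⟩
  filter_upwards [hU.mem_nhds hz] with w hw
  exact ⟨rfl, ((hG w hw).differentiableAt (hU.mem_nhds hw)).hasFDerivAt⟩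

/-- Two lifts differ by a Gaussian integer on preconnected sets. -/
theorem Tor.lift_sub {X : Type*} [TopologicalSpace X] {S : Set X} (hS : IsPreconnected S)
    {G G' : X → ℂ} (hG : ContinuousOn G S) (hG' : ContinuousOn G' S)
    (h : ∀ x ∈ S, τ.q (G x) = τ.q (G' x)) :
    ∀ x ∈ S, ∀ y ∈ S, G x - G' x = G y - G' y := by
  intro x hx y hy
  exact hS.constant_of_mapsTo (T := gaussSet) (f := fun x => G x - G' x) ⟨inferInstance⟩
    (hG.sub hG') (fun x hx => (τ.eq_iff' _ _).mp (h x hx)) hx hy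

theorem HolAt.lift_eventuallyEq {G G' : V → ℂ} {z : V} (hG : ∀ᶠ w in 𝓝 z, ContinuousAt G w)
    (hG' : ∀ᶠ w in 𝓝 z, ContinuousAt G' w) (h : ∀ᶠ w in 𝓝 z, τ.q (G w) = τ.q (G' w)) :
    ∀ᶠ w in 𝓝 z, G w = G' w + (G z - G' z) := by
  obtain ⟨ε, hε, hb⟩ := Metric.eventually_nhds_iff_ball.mp (hG.and (hG'.and h))
  filter_upwards [Metric.ball_mem_nhds z hε] with w hw
  have hpre : IsPreconnected (Metric.ball z ε) := by
    let : NormedSpace ℝ V := NormedSpace.restrictScalars ℝ ℂ V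
    exact (convex_ball z ε).isPreconnected
  have := τ.lift_sub hpre (G := G) (G' := G')
    (fun w hw => (hb w hw).1.continuousWithinAt) (fun w hw => (hb w hw).2.1.continuousWithinAt)
    (fun w hw => (hb w hw).2.2) w hw z (Metric.mem_ball_self hε)
  rw [← this]
  ring

/-- The derivative is unique. -/
theorem HolAt.unique {F : V → E} {a b : V → V →L[ℂ] ℂ} {z : V} (h : HolAt τ F a z)
    (h' : HolAt τ F b z) : a z = b z := by
  obtain ⟨G, hG⟩ := h
  obtain ⟨G', hG'⟩ := h'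
  have h1 := HolAt.lift_eventuallyEq τ (G := G) (G' := G') (z := z)
    (hG.mono fun w hw => hw.2.continuousAt) (hG'.mono fun w hw => hw.2.continuousAt)
    ((hG.and hG').mono fun w hw => hw.1.1.symm.trans hw.2.1)
  have h2 : HasFDerivAt G (b z) z :=
    (hG'.self_of_nhds.2.add_const (G z - G' z)).congr_of_eventuallyEq h1
  exact hG.self_of_nhds.2.unique h2

/-- `HolAt` only depends on the germs. -/
theorem HolAt.congr {F F' : V → E} {a a' : V → V →L[ℂ] ℂ} {z : V} (h : HolAt τ F a z)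
    (hF : F' =ᶠ[𝓝 z] F) (ha : a' =ᶠ[𝓝 z] a) : HolAt τ F' a' z := by
  obtain ⟨G, hG⟩ := h
  refine ⟨G, ?_⟩
  filter_upwards [hG, hF, ha] with w h1 h2 h3
  rw [h2, h3]
  exact h1

/-- Composition with holomorphic maps. -/
theorem HolOn.comp {V' : Type*} [NormedAddCommGroup V'] [NormedSpace ℂ V']
    {F : V → E} {a : V → V →L[ℂ] ℂ} {U : Set V} (h : HolOn τ F a U)
    {γ : V' → V} {U' : Set V'} (hU' : IsOpen U') (hγ : DifferentiableOn ℂ γ U')
    (hm : MapsTo γ U' U) :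
    HolOn τ (fun w => F (γ w)) (fun w => (a (γ w)).comp (fderiv ℂ γ w)) U' := by
  intro w hw
  obtain ⟨G, hG⟩ := h (γ w) (hm hw)
  refine ⟨fun w => G (γ w), ?_⟩
  have hc : ContinuousAt γ w := (hγ.continuousOn.continuousAt (hU'.mem_nhds hw))
  filter_upwards [hc.eventually hG, hU'.mem_nhds hw] with v h1 h2
  refine ⟨h1.1, ?_⟩
  exact h1.2.comp v ((hγ v h2).differentiableAt (hU'.mem_nhds h2)).hasFDerivAt

/-- Lifting on convex open sets. -/
theorem HolOn.exists_lift {F : V → E} {a : V → V →L[ℂ] ℂ} {U : Set V} (h : HolOn τ F a U)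
    (hU : IsOpen U) (hc : Convex ℝ U) {z₀ : V} (hz₀ : z₀ ∈ U) {g₀ : ℂ} (hg : τ.q g₀ = F z₀) :
    ∃ G : V → ℂ, G z₀ = g₀ ∧ ∀ z ∈ U, F z = τ.q (G z) ∧ HasFDerivAt G (a z) z := by
  classical
  have : ContractibleSpace U := hc.contractibleSpace ⟨z₀, hz₀⟩
  have : LocallyPathConnectedSpace U := hU.locallyPathConnectedSpace
  obtain ⟨Φ, ⟨hΦ0, hΦ⟩, -⟩ := τ.cov.existsUnique_continuousMap_lifts
    (⟨U.domRestrict F, (h.continuousOn τ).domRestrict⟩ : C(U, E)) ⟨z₀, hz₀⟩ g₀ hg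
  refine ⟨fun z => if hz : z ∈ U then Φ ⟨z, hz⟩ else 0, by simp [hz₀, hΦ0], ?_⟩
  set G : V → ℂ := fun z => if hz : z ∈ U then Φ ⟨z, hz⟩ else 0 with hG
  have hq : ∀ z ∈ U, F z = τ.q (G z) := by
    intro z hz
    have h1 : τ.q (Φ ⟨z, hz⟩) = F z := congrFun hΦ ⟨z, hz⟩
    rw [← h1]
    simp [hG, hz]
  have hcont : ContinuousOn G U := by
    rw [continuousOn_iff_continuous_domRestrict]
    have h1 : U.domRestrict G = Φ := by
      funext z
      show G z = Φ z
      simp [hG]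
    rw [h1]
    exact Φ.continuous
  intro z hz
  refine ⟨hq z hz, ?_⟩
  obtain ⟨G', hG'⟩ := h z hz
  have h1 := HolAt.lift_eventuallyEq τ (G := G) (G' := G') (z := z)
    (by filter_upwards [hU.mem_nhds hz] with w hw using hcont.continuousAt (hU.mem_nhds hw))
    (hG'.mono fun w hw => hw.2.continuousAt)
    (by filter_upwards [hG', hU.mem_nhds hz] with w h1 h2 using (hq w h2).symm.trans h1.1)
  exact (hG'.self_of_nhds.2.add_const (G z - G' z)).congr_of_eventuallyEq h1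

end Pool.Agent.K708C
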