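import Pool.Agent.Lib.MP_708a61_C.Extend
import Pool.Agent.Lib.MP_708a61_C.Montel

/-! Task H (Hartogs): extension of maps to `E` over a point. -/

open Set Filter Topology MeasureTheory
open scoped ENNReal NNReal

namespace Pool.Agent.K708C

namespace Hart

theorem bidisc_eq_ball (r : ℝ) : bidisc r = Metric.ball (0 : ℂ × ℂ) r := by
  ext z
  simp [bidisc, Prod.norm_def, sup_lt_iff]

/-- The components of the derivative of a holomorphic map to `E` are holomorphic. -/
theorem hol_comp {E : Type*} [TopologicalSpace E] (τ : Tor E) {F : ℂ × ℂ → E}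
    {a : ℂ × ℂ → (ℂ × ℂ →L[ℂ] ℂ)} {U : Set (ℂ × ℂ)} (hF : HolOn τ F a U) (v : ℂ × ℂ) :
    DifferentiableOn ℂ (fun w => a w v) U := by
  intro z hz
  obtain ⟨G, hG⟩ := hF z hz
  obtain ⟨ε, hε, hb⟩ := Metric.eventually_nhds_iff_ball.mp hG
  have h1 : DifferentiableOn ℂ G (Metric.ball z ε) := fun w hw =>
    (hb w hw).2.differentiableAt.differentiableWithinAt
  have h2 := fderiv_holo Metric.isOpen_ball h1 v
  have h3 : (fun w => a w v) =ᶠ[𝓝 z] fun w => fderiv ℂ G w v := by
    filter_upwards [Metric.ball_mem_nhds z hε] with w hw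
    rw [(hb w hw).2.fderiv]
  have h4 : DifferentiableAt ℂ (fun w => fderiv ℂ G w v) z :=
    (h2 z (Metric.mem_ball_self hε)).differentiableAt (Metric.ball_mem_nhds z hε)
  exact (h4.congr_of_eventuallyEq h3).differentiableWithinAt

/-- Holomorphic functions on a punctured bidisc are bounded near the puncture. -/
theorem bdd {r : ℝ} (hr : 0 < r) {g : ℂ × ℂ → ℂ}
    (hg : DifferentiableOn ℂ g (bidisc r \ {0})) :
    ∃ M : ℝ, 0 ≤ M ∧ ∀ z ∈ bidisc (r / 2), z ≠ 0 → ‖g z‖ ≤ M := by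
  have hr2 : 0 < r / 2 := by positivity
  have hlt : r / 2 < r := by linarith
  have hK1 : IsCompact (Metric.sphere (0 : ℂ) (r / 2) ×ˢ Metric.closedBall (0 : ℂ) (r / 2)) :=
    (isCompact_sphere _ _).prod (isCompact_closedBall _ _)
  have hK2 : IsCompact (Metric.closedBall (0 : ℂ) (r / 2) ×ˢ Metric.sphere (0 : ℂ) (r / 2)) :=
    (isCompact_closedBall _ _).prod (isCompact_sphere _ _)
  have hs1 : Metric.sphere (0 : ℂ) (r / 2) ×ˢ Metric.closedBall (0 : ℂ) (r / 2)
      ⊆ bidisc r \ {0} := by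
    rintro z ⟨h1, h2⟩
    rw [mem_sphere_zero_iff_norm] at h1
    rw [mem_closedBall_zero_iff] at h2
    refine ⟨⟨by rw [h1]; exact hlt, by linarith⟩, fun h => ?_⟩
    rw [mem_singleton_iff] at h
    rw [h, Prod.fst_zero, norm_zero] at h1
    linarith
  have hs2 : Metric.closedBall (0 : ℂ) (r / 2) ×ˢ Metric.sphere (0 : ℂ) (r / 2)
      ⊆ bidisc r \ {0} := by
    rintro z ⟨h2, h1⟩
    rw [mem_sphere_zero_iff_norm] at h1
    rw [mem_closedBall_zero_iff] at h2
    refine ⟨⟨by linarith, by rw [h1]; exact hlt⟩, fun h => ?_⟩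
    rw [mem_singleton_iff] at h
    rw [h, Prod.snd_zero, norm_zero] at h1
    linarith
  obtain ⟨M1, hM1⟩ := hK1.exists_bound_of_continuousOn (hg.continuousOn.mono hs1)
  obtain ⟨M2, hM2⟩ := hK2.exists_bound_of_continuousOn (hg.continuousOn.mono hs2)
  have hbd : Bornology.IsBounded (Metric.ball (0 : ℂ) (r / 2)) := Metric.isBounded_ball
  have hcl : closure (Metric.ball (0 : ℂ) (r / 2)) = Metric.closedBall (0 : ℂ) (r / 2) :=
    closure_ball _ hr2.ne'
  have hfr : frontier (Metric.ball (0 : ℂ) (r / 2)) = Metric.sphere (0 : ℂ) (r / 2) :=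
    frontier_ball _ hr2.ne'
  refine ⟨max (max M1 M2) 0, le_max_right _ _, fun z hz hz0 => ?_⟩
  have hz1 : z.1 ∈ Metric.closedBall (0 : ℂ) (r / 2) := mem_closedBall_zero_iff.mpr hz.1.le
  have hz2 : z.2 ∈ Metric.closedBall (0 : ℂ) (r / 2) := mem_closedBall_zero_iff.mpr hz.2.le
  by_cases h2 : z.2 = 0
  · have h1 : z.1 ≠ 0 := fun h1 => hz0 (Prod.ext h1 h2)
    refine le_trans ?_ ((le_max_right M1 M2).trans (le_max_left _ _))
    have hd : DiffContOnCl ℂ (fun w : ℂ => g (z.1, w)) (Metric.ball (0 : ℂ) (r / 2)) := by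
      refine DifferentiableOn.diffContOnCl ?_
      rw [hcl]
      refine hg.comp (differentiableOn_const z.1 |>.prodMk differentiableOn_id) fun w hw => ?_
      rw [mem_closedBall_zero_iff] at hw
      refine ⟨⟨hz.1.trans hlt, lt_of_le_of_lt hw hlt⟩, fun h => h1 ?_⟩
      exact congrArg Prod.fst h
    refine Complex.norm_le_of_forall_mem_frontier_norm_le (U := Metric.ball (0 : ℂ) (r / 2))
      (f := fun w : ℂ => g (z.1, w)) hbd hd (fun w hw => ?_) (z := z.2) (by rw [hcl]; exact hz2)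
    rw [hfr] at hw
    exact hM2 (z.1, w) ⟨hz1, hw⟩
  · refine le_trans ?_ ((le_max_left M1 M2).trans (le_max_left _ _))
    have hd : DiffContOnCl ℂ (fun w : ℂ => g (w, z.2)) (Metric.ball (0 : ℂ) (r / 2)) := by
      refine DifferentiableOn.diffContOnCl ?_
      rw [hcl]
      refine hg.comp (differentiableOn_id.prodMk (differentiableOn_const z.2)) fun w hw => ?_
      rw [mem_closedBall_zero_iff] at hw
      refine ⟨⟨lt_of_le_of_lt hw hlt, hz.2.trans hlt⟩, fun h => h2 ?_⟩
      exact congrArg Prod.snd h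
    refine Complex.norm_le_of_forall_mem_frontier_norm_le (U := Metric.ball (0 : ℂ) (r / 2))
      (f := fun w : ℂ => g (w, z.2)) hbd hd (fun w hw => ?_) (z := z.1) (by rw [hcl]; exact hz1)
    rw [hfr] at hw
    exact hM1 (w, z.2) ⟨hw, hz2⟩

/-- The Gaussian lattice is closed. -/
theorem isClosed_gaussSet : IsClosed gaussSet := by
  let S : AddSubgroup ℂ :=
    { carrier := gaussSet
      zero_mem' := ⟨0, 0, by simp⟩
      add_mem' := by
        rintro _ _ ⟨m, n, rfl⟩ ⟨m', n', rfl⟩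
        refine ⟨m + m', n + n', ?_⟩
        push_cast
        ring
      neg_mem' := by
        rintro _ ⟨m, n, rfl⟩
        refine ⟨-m, -n, ?_⟩
        push_cast
        ring }
  have : DiscreteTopology S := inferInstanceAs (DiscreteTopology gaussSet)
  exact AddSubgroup.isClosed_of_discrete (H := S)

end Hart

open Hart

/-- H1. Holomorphic maps to `E` extend over a point. -/
theorem extend_point {E : Type*} [TopologicalSpace E] (τ : Tor E) {r : ℝ} (hr : 0 < r)
    (F : ℂ × ℂ → E) (a : ℂ × ℂ → (ℂ × ℂ →L[ℂ] ℂ)) (hF : HolOn τ F a (bidisc r \ {0})) :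
    ∃ G : ℂ × ℂ → ℂ, DifferentiableOn ℂ G (bidisc r) ∧
      ∀ z ∈ bidisc r, z ≠ 0 → F z = τ.q (G z) := by
  classical
  have hr2 : 0 < r / 2 := by positivity
  have hsub : bidisc (r / 2) ⊆ bidisc r := by
    rw [bidisc_eq_ball, bidisc_eq_ball]
    exact Metric.ball_subset_ball (by linarith)
  have hopen : ∀ s, IsOpen (bidisc s) := fun s => by
    rw [bidisc_eq_ball]
    exact Metric.isOpen_ball
  obtain ⟨M1, hM10, hM1⟩ := bdd hr (hol_comp τ hF (1, 0))
  obtain ⟨M2, hM20, hM2⟩ := bdd hr (hol_comp τ hF (0, 1))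
  have hb : ∀ z ∈ bidisc (r / 2), z ≠ 0 → ‖a z‖ ≤ M1 + M2 := by
    intro z hz hz0
    refine ContinuousLinearMap.opNorm_le_bound _ (by positivity) fun v => ?_
    have h1 : a z v = v.1 * a z (1, 0) + v.2 * a z (0, 1) := by
      have h2 : v = v.1 • ((1, 0) : ℂ × ℂ) + v.2 • ((0, 1) : ℂ × ℂ) := by
        ext <;> simp
      conv_lhs => rw [h2]
      rw [map_add, map_smul, map_smul, smul_eq_mul, smul_eq_mul]
    rw [h1]
    refine (norm_add_le _ _).trans ?_
    rw [norm_mul, norm_mul, add_mul]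
    have h3 : ‖v.1‖ ≤ ‖v‖ := norm_fst_le v
    have h4 : ‖v.2‖ ≤ ‖v‖ := norm_snd_le v
    refine add_le_add ?_ ?_
    · rw [mul_comm]
      exact mul_le_mul (hM1 z hz hz0) h3 (norm_nonneg _) hM10
    · rw [mul_comm]
      exact mul_le_mul (hM2 z hz hz0) h4 (norm_nonneg _) hM20
  -- extension near the point
  have hL : ∫⁻ z in bidisc (r / 2) ∩ {z | z.1 ≠ 0}, ‖a z‖ₑ ^ 2 < ∞ := by
    have hm : MeasurableSet (bidisc (r / 2) ∩ {z : ℂ × ℂ | z.1 ≠ 0}) := by
      refine ((hopen _).inter ?_).measurableSet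
      exact isOpen_ne.preimage continuous_fst
    have h1 : ∫⁻ z in bidisc (r / 2) ∩ {z | z.1 ≠ 0}, ‖a z‖ₑ ^ 2
        ≤ ∫⁻ _z in bidisc (r / 2) ∩ {z : ℂ × ℂ | z.1 ≠ 0}, ENNReal.ofReal (M1 + M2) ^ 2 := by
      refine setLIntegral_mono' hm fun z hz => ?_
      have hz0 : z ≠ 0 := fun h => hz.2 (by rw [h, Prod.fst_zero])
      have h2 : ‖a z‖ₑ ≤ ENNReal.ofReal (M1 + M2) := by
        rw [← ofReal_norm]
        exact ENNReal.ofReal_le_ofReal (hb z hz.1 hz0)
      gcongr
    refine lt_of_le_of_lt h1 ?_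
    rw [setLIntegral_const]
    refine ENNReal.mul_lt_top (by finiteness) ?_
    refine lt_of_le_of_lt (measure_mono inter_subset_left) ?_
    rw [bidisc_eq_ball]
    exact measure_ball_lt_top
  have hF1 : HolOn τ F a (bidisc (r / 2) ∩ {z | z.1 ≠ 0}) :=
    hF.mono τ fun z hz => ⟨hsub hz.1, fun h => hz.2 (by
      rw [mem_singleton_iff] at h
      rw [h, Prod.fst_zero])⟩
  obtain ⟨G0, hG0, hq0⟩ := extend_one τ hr2 F a hF1 hL
  have hq : ∀ z ∈ bidisc (r / 2), z ≠ 0 → F z = τ.q (G0 z) := by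
    intro z hz hz0
    obtain ⟨H, hH⟩ := hF z ⟨hsub hz, hz0⟩
    obtain ⟨ε, hε, hbb⟩ := Metric.eventually_nhds_iff_ball.mp (hH.and ((hopen (r / 2)).mem_nhds hz))
    have hcont : ContinuousOn (fun w => H w - G0 w) (Metric.ball z ε) := by
      refine ContinuousOn.sub (fun w hw => ?_) (hG0.continuousOn.mono fun w hw => (hbb w hw).2)
      exact (hbb w hw).1.2.continuousAt.continuousWithinAt
    have hmaps : ∀ w ∈ Metric.ball z ε ∩ {w : ℂ × ℂ | w.1 ≠ 0}, H w - G0 w ∈ gaussSet := by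
      intro w hw
      refine (τ.eq_iff' _ _).mp ?_
      rw [← (hbb w hw.1).1.1]
      exact hq0 w (hbb w hw.1).2 hw.2
    have hzc : z ∈ closure (Metric.ball z ε ∩ {w : ℂ × ℂ | w.1 ≠ 0}) := by
      have hd : Dense {w : ℂ × ℂ | w.1 ≠ 0} := by
        have h1 : Dense ({0}ᶜ : Set ℂ) := dense_compl_singleton 0
        have h2 := h1.prod (dense_univ (X := ℂ))
        refine h2.mono fun w hw => ?_
        exact hw.1
      exact hd.open_subset_closure_inter Metric.isOpen_ball (Metric.mem_ball_self hε)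
    have hfin : H z - G0 z ∈ gaussSet := by
      have hca : ContinuousWithinAt (fun w => H w - G0 w)
          (Metric.ball z ε ∩ {w : ℂ × ℂ | w.1 ≠ 0}) z :=
        (hcont z (Metric.mem_ball_self hε)).mono inter_subset_left
      have h1 := hca.mem_closure hzc hmaps
      rwa [isClosed_gaussSet.closure_eq] at h1
    rw [hH.self_of_nhds.1]
    exact (τ.eq_iff' _ _).mpr hfin
  -- derivative
  have hda : ∀ z ∈ bidisc (r / 2), z ≠ 0 → HasFDerivAt G0 (a z) z := by
    intro z hz hz0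
    have hd : DifferentiableAt ℂ G0 z := (hG0 z hz).differentiableAt ((hopen _).mem_nhds hz)
    have h1 : HolAt τ (fun w => τ.q (G0 w)) (fderiv ℂ G0) z :=
      holOn_of_differentiableOn τ (hopen _) hG0 z hz
    have h2 : F =ᶠ[𝓝 z] fun w => τ.q (G0 w) := by
      filter_upwards [(hopen (r / 2)).mem_nhds hz, isOpen_ne.mem_nhds hz0] with w hw hw0
      exact hq w hw hw0
    have h3 : HolAt τ F (fderiv ℂ G0) z := h1.congr τ h2 (EventuallyEq.refl _ _)
    rw [HolAt.unique τ (hF z ⟨hsub hz, hz0⟩) h3]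
    exact hd.hasFDerivAt
  -- the extended map
  have h0m : (0 : ℂ × ℂ) ∈ bidisc (r / 2) := by
    rw [bidisc_eq_ball]
    exact Metric.mem_ball_self hr2
  have hF' : HolOn τ (Function.update F 0 (τ.q (G0 0)))
      (Function.update a 0 (fderiv ℂ G0 0)) (bidisc r) := by
    intro z hz
    by_cases hz0 : z = 0
    · subst hz0
      refine ⟨G0, ?_⟩
      filter_upwards [(hopen (r / 2)).mem_nhds h0m] with w hw
      by_cases hw0 : w = 0
      · subst hw0
        rw [Function.update_self, Function.update_self]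
        exact ⟨rfl, ((hG0 0 hw).differentiableAt ((hopen _).mem_nhds hw)).hasFDerivAt⟩
      · rw [Function.update_of_ne hw0, Function.update_of_ne hw0]
        exact ⟨hq w hw hw0, hda w hw hw0⟩
    · refine HolAt.congr τ (hF z ⟨hz, hz0⟩) ?_ ?_
      · filter_upwards [isOpen_ne.mem_nhds hz0] with w hw
        exact Function.update_of_ne hw _ _
      · filter_upwards [isOpen_ne.mem_nhds hz0] with w hw
        exact Function.update_of_ne hw _ _
  have hconv : Convex ℝ (bidisc r) := by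
    rw [bidisc_eq_ball]
    exact convex_ball _ _
  obtain ⟨G, _, hG⟩ := hF'.exists_lift τ (hopen r) hconv (hsub h0m) (g₀ := G0 0)
    (by rw [Function.update_self])
  refine ⟨G, fun z hz => (hG z hz).2.differentiableAt.differentiableWithinAt, fun z hz hz0 => ?_⟩
  have h1 := (hG z hz).1
  rwa [Function.update_of_ne hz0] at h1

end Pool.Agent.K708C
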