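import Pool.Agent.Lib.MP_708a61_C.Lift

/-! Task A (Annulus): the annulus lemma for maps to `E`. -/

open Set Filter Topology MeasureTheory
open scoped ENNReal NNReal

namespace Pool.Agent.K708C

/-- A strict bound on a compact set is a non-strict bound by a smaller number. -/
theorem exists_le_of_compact {K : Set ℂ} (hK : IsCompact K) {f : ℂ → ℂ} (hf : ContinuousOn f K)
    {ε : ℝ} (h : ∀ w ∈ K, ‖f w‖ < ε) : ∃ M < ε, ∀ w ∈ K, ‖f w‖ ≤ M := by
  rcases K.eq_empty_or_nonempty with rfl | hne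
  · exact ⟨ε - 1, by linarith, by simp⟩
  · obtain ⟨w, hw, hmax⟩ := hK.exists_isMaxOn hne hf.norm
    exact ⟨‖f w‖, h w hw, fun v hv => hmax hv⟩

/-- The mean over a circle is close to `c` if the function is. -/
theorem circle_mean_sub {r : ℝ} (hr : 0 < r) {G : ℂ → ℂ} (hG : ContinuousOn G (Metric.sphere 0 r))
    {c : ℂ} {M : ℝ} (h : ∀ w ∈ Metric.sphere (0 : ℂ) r, ‖G w - c‖ ≤ M) :
    ‖(∮ z in C(0, r), (z - 0)⁻¹ • G z) - 2 * Real.pi * Complex.I * c‖ ≤ 2 * Real.pi * M := by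
  have hinv : ContinuousOn (fun z : ℂ => (z - 0)⁻¹) (Metric.sphere 0 r) := by
    refine ContinuousOn.inv₀ (by fun_prop) ?_
    intro z hz h0
    rw [sub_zero] at h0
    rw [h0, mem_sphere_iff_norm, sub_zero, norm_zero] at hz
    exact hr.ne hz
  have h1 : CircleIntegrable (fun z : ℂ => (z - 0)⁻¹ • G z) 0 r :=
    (hinv.smul hG).circleIntegrable hr.le
  have h2 : CircleIntegrable (fun z : ℂ => (z - 0)⁻¹ • c) 0 r :=
    (hinv.smul continuousOn_const).circleIntegrable hr.le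
  have h3 : (∮ z in C(0, r), (z - 0)⁻¹ • c) = 2 * Real.pi * Complex.I * c := by
    rw [circleIntegral.integral_smul_const, circleIntegral.integral_sub_center_inv _ hr.ne']
    simp
  rw [← h3, ← circleIntegral.integral_sub h1 h2]
  have h4 : ∀ z ∈ Metric.sphere (0 : ℂ) r, ‖(z - 0)⁻¹ • G z - (z - 0)⁻¹ • c‖ ≤ r⁻¹ * M := by
    intro z hz
    rw [← smul_sub, norm_smul, norm_inv, sub_zero]
    rw [mem_sphere_iff_norm, sub_zero] at hz
    rw [hz]
    exact mul_le_mul_of_nonneg_left (h z (by rw [mem_sphere_iff_norm, sub_zero, hz]))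
      (inv_nonneg.2 hr.le)
  refine (circleIntegral.norm_integral_le_of_norm_le_const hr.le h4).trans (le_of_eq ?_)
  field_simp

/-- A1. The annulus lemma for functions: nearly constant on both boundary circles implies
nearly constant. -/
theorem annulus_fun {r₁ r₂ ε : ℝ} (h₁ : 0 < r₁) (h₁₂ : r₁ ≤ r₂) {G : ℂ → ℂ} {U : Set ℂ}
    (hU : IsOpen U) (hUs : {w : ℂ | r₁ ≤ ‖w‖ ∧ ‖w‖ ≤ r₂} ⊆ U) (hG : DifferentiableOn ℂ G U)
    {c₁ c₂ : ℂ} (ho : ∀ w : ℂ, ‖w‖ = r₂ → ‖G w - c₂‖ < ε)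
    (hi : ∀ w : ℂ, ‖w‖ = r₁ → ‖G w - c₁‖ < ε) :
    ‖c₁ - c₂‖ < 2 * ε ∧ ∀ w : ℂ, r₁ ≤ ‖w‖ → ‖w‖ ≤ r₂ → ‖G w - c₂‖ < 3 * ε := by
  have h₂ : 0 < r₂ := h₁.trans_le h₁₂
  have hs1 : Metric.sphere (0 : ℂ) r₁ ⊆ U := by
    intro w hw
    rw [mem_sphere_iff_norm, sub_zero] at hw
    exact hUs ⟨hw.ge, hw.le.trans h₁₂⟩
  have hs2 : Metric.sphere (0 : ℂ) r₂ ⊆ U := by
    intro w hw
    rw [mem_sphere_iff_norm, sub_zero] at hw
    exact hUs ⟨h₁₂.trans hw.ge, hw.le⟩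
  have hc1 : ContinuousOn G (Metric.sphere 0 r₁) := hG.continuousOn.mono hs1
  have hc2 : ContinuousOn G (Metric.sphere 0 r₂) := hG.continuousOn.mono hs2
  obtain ⟨M₁, hM₁, hb₁⟩ := exists_le_of_compact (isCompact_sphere (0 : ℂ) r₁)
    (hc1.sub continuousOn_const) (ε := ε) (f := fun w => G w - c₁)
    (fun w hw => hi w (by rwa [mem_sphere_iff_norm, sub_zero] at hw))
  obtain ⟨M₂, hM₂, hb₂⟩ := exists_le_of_compact (isCompact_sphere (0 : ℂ) r₂)
    (hc2.sub continuousOn_const) (ε := ε) (f := fun w => G w - c₂)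
    (fun w hw => ho w (by rwa [mem_sphere_iff_norm, sub_zero] at hw))
  have hA : (∮ z in C(0, r₂), (z - 0)⁻¹ • G z) = ∮ z in C(0, r₁), (z - 0)⁻¹ • G z := by
    refine
      Complex.circleIntegral_sub_center_inv_smul_eq_of_differentiable_on_annulus_off_countable
        h₁ h₁₂ Set.countable_empty (hG.continuousOn.mono ?_) ?_
    · rintro z ⟨hz, hz'⟩
      rw [mem_closedBall_iff_norm, sub_zero] at hz
      rw [mem_ball_iff_norm, sub_zero, not_lt] at hz'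
      exact hUs ⟨hz', hz⟩
    · rintro z ⟨⟨hz, hz'⟩, -⟩
      rw [mem_ball_iff_norm, sub_zero] at hz
      rw [mem_closedBall_iff_norm, sub_zero, not_le] at hz'
      exact hG.differentiableAt (hU.mem_nhds (hUs ⟨hz'.le, hz.le⟩))
  have hm1 := circle_mean_sub h₁ hc1 hb₁
  have hm2 := circle_mean_sub h₂ hc2 hb₂
  rw [hA] at hm2
  have hc : ‖c₁ - c₂‖ < 2 * ε := by
    have e : (2 * Real.pi * Complex.I) * (c₁ - c₂) =
        ((∮ z in C(0, r₁), (z - 0)⁻¹ • G z) - 2 * Real.pi * Complex.I * c₂) -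
          ((∮ z in C(0, r₁), (z - 0)⁻¹ • G z) - 2 * Real.pi * Complex.I * c₁) := by ring
    have e2 : 2 * Real.pi * ‖c₁ - c₂‖ ≤ 2 * Real.pi * M₂ + 2 * Real.pi * M₁ := by
      have := norm_sub_le_of_le hm2 hm1
      rw [← e, norm_mul, norm_mul, norm_mul, Complex.norm_I, mul_one, Complex.norm_real,
        Real.norm_of_nonneg Real.pi_pos.le] at this
      simpa using this
    have e3 : ‖c₁ - c₂‖ ≤ M₂ + M₁ := by
      have hp := Real.pi_pos
      rw [← mul_add] at e2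
      exact le_of_mul_le_mul_left e2 (by positivity)
    linarith
  refine ⟨hc, fun w hw1 hw2 => ?_⟩
  -- the bound on the circles
  have key1 : ∀ v : ℂ, ‖v‖ = r₁ → ‖G v - c₂‖ ≤ M₁ + ‖c₁ - c₂‖ := by
    intro v hv
    have := hb₁ v (by rw [mem_sphere_iff_norm, sub_zero, hv])
    calc ‖G v - c₂‖ = ‖(G v - c₁) + (c₁ - c₂)‖ := by congr 1; ring
      _ ≤ ‖G v - c₁‖ + ‖c₁ - c₂‖ := norm_add_le _ _
      _ ≤ _ := by linarith
  have key2 : ∀ v : ℂ, ‖v‖ = r₂ → ‖G v - c₂‖ ≤ M₂ := fun v hv =>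
    hb₂ v (by rw [mem_sphere_iff_norm, sub_zero, hv])
  have hM : max M₂ (M₁ + ‖c₁ - c₂‖) < 3 * ε := by
    have hε : 0 < ε := by
      have := (norm_nonneg _).trans_lt hc
      linarith
    exact max_lt (by linarith) (by linarith)
  rcases eq_or_lt_of_le hw1 with he | hlt
  · exact (key1 w he.symm).trans_lt ((le_max_right _ _).trans_lt hM)
  rcases eq_or_lt_of_le hw2 with he | hlt2
  · exact (key2 w he).trans_lt ((le_max_left _ _).trans_lt hM)
  set V : Set ℂ := {v : ℂ | r₁ < ‖v‖ ∧ ‖v‖ < r₂} with hV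
  have hVo : IsOpen V := (isOpen_lt continuous_const continuous_norm).inter
    (isOpen_lt continuous_norm continuous_const)
  have hVc : closure V ⊆ {v : ℂ | r₁ ≤ ‖v‖ ∧ ‖v‖ ≤ r₂} :=
    closure_minimal (fun v hv => ⟨hv.1.le, hv.2.le⟩)
      ((isClosed_le continuous_const continuous_norm).inter
        (isClosed_le continuous_norm continuous_const))
  have hVb : Bornology.IsBounded V :=
    Metric.isBounded_ball.subset (s := V) (t := Metric.ball (0 : ℂ) r₂)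
      (fun v hv => by rw [mem_ball_iff_norm, sub_zero]; exact hv.2)
  have hd : DiffContOnCl ℂ (fun v => G v - c₂) V :=
    ((hG.mono (hVc.trans hUs)).sub_const c₂).diffContOnCl
  refine (Complex.norm_le_of_forall_mem_frontier_norm_le hVb hd ?_
    (subset_closure (show w ∈ V from ⟨hlt, hlt2⟩))).trans_lt hM
  intro v hv
  rw [frontier, hVo.interior_eq] at hv
  obtain ⟨hv1, hv2⟩ := hVc hv.1
  rcases eq_or_lt_of_le hv1 with he | hl
  · exact (key1 v he.symm).trans (le_max_right _ _)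
  rcases eq_or_lt_of_le hv2 with he | hl2
  · exact (key2 v he).trans (le_max_left _ _)
  exact absurd ⟨hl, hl2⟩ hv.2

/-- A Gaussian integer of norm less than one is zero. -/
theorem gauss_eq_zero {m n : ℤ} (h : ‖(m : ℂ) + (n : ℂ) * Complex.I‖ < 1) :
    (m : ℂ) + (n : ℂ) * Complex.I = 0 := by
  have hre : ((m : ℂ) + (n : ℂ) * Complex.I).re = m := by simp
  have him : ((m : ℂ) + (n : ℂ) * Complex.I).im = n := by simp
  have h1 : |(m : ℝ)| < 1 := by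
    rw [← hre]; exact (Complex.abs_re_le_norm _).trans_lt h
  have h2 : |(n : ℝ)| < 1 := by
    rw [← him]; exact (Complex.abs_im_le_norm _).trans_lt h
  have hm : m = 0 := by
    have : |m| < 1 := by exact_mod_cast h1
    exact Int.abs_lt_one_iff.1 this
  have hn : n = 0 := by
    have : |n| < 1 := by exact_mod_cast h2
    exact Int.abs_lt_one_iff.1 this
  simp [hm, hn]

/-- If a lift of a function with values in a small disc is continuous on a preconnected set, then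
it takes its values in one of the small balls over the disc. -/
theorem lift_in_ball {E : Type*} [TopologicalSpace E] (τ : Tor E) {X : Type*} [TopologicalSpace X]
    {S : Set X} (hS : IsPreconnected S) (hne : S.Nonempty) {g : X → ℂ} (hg : ContinuousOn g S)
    {c : ℂ} {ε : ℝ} (hε : ε < 1 / 4) (h : ∀ s ∈ S, τ.q (g s) ∈ τ.disc c ε) :
    ∃ c' : ℂ, τ.q c' = τ.q c ∧ ∀ s ∈ S, ‖g s - c'‖ < ε := by
  obtain ⟨s₀, hs₀⟩ := hne
  have key : ∀ s ∈ S, ∃ m n : ℤ, ‖g s - (c + ((m : ℂ) + (n : ℂ) * Complex.I))‖ < ε := by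
    intro s hs
    obtain ⟨z, hz, hzq⟩ := h s hs
    obtain ⟨m, n, hmn⟩ := (τ.eq_iff _ _).1 hzq.symm
    refine ⟨m, n, ?_⟩
    rw [mem_ball_iff_norm] at hz
    have : g s - (c + ((m : ℂ) + (n : ℂ) * Complex.I)) = z - c := by
      rw [← hmn]; ring
    rwa [this]
  obtain ⟨m₀, n₀, h₀⟩ := key s₀ hs₀
  refine ⟨c + ((m₀ : ℂ) + (n₀ : ℂ) * Complex.I), (τ.eq_iff _ _).2 ⟨m₀, n₀, by ring⟩, ?_⟩
  intro s hs
  by_contra hcon
  obtain ⟨m, n, hmn⟩ := key s hs
  have hfar : ∀ s ∈ S, ‖g s - (c + ((m₀ : ℂ) + (n₀ : ℂ) * Complex.I))‖ < ε ∨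
      1 - ε ≤ ‖g s - (c + ((m₀ : ℂ) + (n₀ : ℂ) * Complex.I))‖ := by
    intro s hs
    obtain ⟨m, n, hmn⟩ := key s hs
    by_contra hc
    rw [not_or, not_lt, not_le] at hc
    have e : (((m - m₀ : ℤ) : ℂ) + ((n - n₀ : ℤ) : ℂ) * Complex.I) =
        (g s - (c + ((m₀ : ℂ) + (n₀ : ℂ) * Complex.I))) -
          (g s - (c + ((m : ℂ) + (n : ℂ) * Complex.I))) := by
      push_cast; ring
    have h1 : ‖(((m - m₀ : ℤ) : ℂ) + ((n - n₀ : ℤ) : ℂ) * Complex.I)‖ < 1 := by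
      rw [e]
      refine (norm_sub_le _ _).trans_lt ?_
      linarith [hc.2]
    have h2 := gauss_eq_zero h1
    rw [e, sub_eq_zero] at h2
    rw [h2] at hc
    exact absurd hmn (not_lt.2 hc.1)
  have hbig : 1 - ε ≤ ‖g s - (c + ((m₀ : ℂ) + (n₀ : ℂ) * Complex.I))‖ :=
    (hfar s hs).resolve_left hcon
  have hiv := hS.intermediate_value hs₀ hs
    (f := fun s => ‖g s - (c + ((m₀ : ℂ) + (n₀ : ℂ) * Complex.I))‖)
    (hg.sub continuousOn_const).norm
  obtain ⟨s', hs', he⟩ := hiv (show (1 / 2 : ℝ) ∈ _ from ⟨by linarith, by linarith⟩)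
  have he' : ‖g s' - (c + ((m₀ : ℂ) + (n₀ : ℂ) * Complex.I))‖ = 1 / 2 := he
  rcases hfar s' hs' with h1 | h1
  · rw [he'] at h1; linarith
  · rw [he'] at h1; linarith

/-- An open set containing a closed annulus contains a bigger open annulus. -/
theorem exists_annulus_subset {r₁ r₂ : ℝ} (h₁ : 0 < r₁) (h₁₂ : r₁ ≤ r₂) {U : Set ℂ}
    (hU : IsOpen U) (hUs : {w : ℂ | r₁ ≤ ‖w‖ ∧ ‖w‖ ≤ r₂} ⊆ U) :
    ∃ s₁ s₂ : ℝ, 0 < s₁ ∧ s₁ < r₁ ∧ r₂ < s₂ ∧ {w : ℂ | s₁ < ‖w‖ ∧ ‖w‖ < s₂} ⊆ U := by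
  have hK : IsCompact {w : ℂ | r₁ ≤ ‖w‖ ∧ ‖w‖ ≤ r₂} := by
    refine (isCompact_closedBall (0 : ℂ) r₂).of_isClosed_subset
      ((isClosed_le continuous_const continuous_norm).inter
        (isClosed_le continuous_norm continuous_const)) ?_
    rintro w ⟨-, hw⟩
    rwa [mem_closedBall_iff_norm, sub_zero]
  obtain ⟨δ, hδ, hsub⟩ := hK.exists_thickening_subset_open hU hUs
  refine ⟨max (r₁ / 2) (r₁ - δ), r₂ + δ, lt_max_of_lt_left (by linarith),
    max_lt (by linarith) (by linarith), by linarith, ?_⟩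
  rintro w ⟨hw1, hw2⟩
  have hw0 : 0 < ‖w‖ := lt_of_le_of_lt (by positivity) ((le_max_left _ _).trans_lt hw1)
  have hw1' : r₁ - δ < ‖w‖ := (le_max_right _ _).trans_lt hw1
  apply hsub
  rw [Metric.mem_thickening_iff]
  have hproj : ∀ t : ℝ, 0 < t → ‖((t / ‖w‖ : ℝ) : ℂ) * w‖ = t ∧
      dist w (((t / ‖w‖ : ℝ) : ℂ) * w) = |‖w‖ - t| := by
    intro t ht
    constructor
    · rw [norm_mul, Complex.norm_real, Real.norm_of_nonneg (by positivity)]
      field_simp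
    · have : w - ((t / ‖w‖ : ℝ) : ℂ) * w = (((1 - t / ‖w‖ : ℝ)) : ℂ) * w := by push_cast; ring
      rw [dist_eq_norm, this, norm_mul, Complex.norm_real, Real.norm_eq_abs]
      rw [← abs_of_pos hw0, ← abs_mul, abs_of_pos hw0]
      congr 1
      field_simp
  rcases lt_or_ge ‖w‖ r₁ with hlt | hge
  · obtain ⟨e1, e2⟩ := hproj r₁ h₁
    refine ⟨_, ⟨e1.ge, e1.le.trans h₁₂⟩, ?_⟩
    rw [e2, abs_sub_lt_iff]
    constructor <;> linarith
  rcases lt_or_ge r₂ ‖w‖ with hlt | hge2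
  · obtain ⟨e1, e2⟩ := hproj r₂ (h₁.trans_le h₁₂)
    refine ⟨_, ⟨h₁₂.trans e1.ge, e1.le⟩, ?_⟩
    rw [e2, abs_sub_lt_iff]
    constructor <;> linarith
  · exact ⟨w, ⟨hge, hge2⟩, by rwa [dist_self]⟩

/-- A function periodic under `2 π i` on a strip is periodic under all integer multiples. -/
theorem periodic_int {S : Set ℂ} (hS : ∀ s : ℂ, ∀ n : ℤ, s ∈ S →
    s + (n : ℂ) * (2 * Real.pi * Complex.I) ∈ S) {g : ℂ → ℂ}
    (hg : ∀ s ∈ S, g (s + 2 * Real.pi * Complex.I) = g s) (s : ℂ) (hs : s ∈ S) (n : ℤ) :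
    g (s + (n : ℂ) * (2 * Real.pi * Complex.I)) = g s := by
  have hnat : ∀ (k : ℕ) (s : ℂ), s ∈ S → g (s + (k : ℂ) * (2 * Real.pi * Complex.I)) = g s := by
    intro k
    induction k with
    | zero => intro s _; simp
    | succ k ih =>
      intro s hs
      have h1 : s + (k : ℂ) * (2 * Real.pi * Complex.I) ∈ S := by
        have := hS s k hs
        simpa using this
      have h2 := hg _ h1
      rw [ih s hs] at h2
      rw [← h2]
      congr 1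
      push_cast
      ring
  obtain ⟨k, rfl | rfl⟩ := n.eq_nat_or_neg
  · simpa using hnat k s hs
  · have h1 : s + ((-(k : ℤ) : ℤ) : ℂ) * (2 * Real.pi * Complex.I) ∈ S := hS s _ hs
    have h2 := hnat k _ h1
    rw [← h2]
    congr 1
    push_cast
    ring

/-- A holomorphic map to `E` on an annulus with values in a small disc on a circle lifts. -/
theorem annulus_lift {E : Type*} [TopologicalSpace E] (τ : Tor E) {s₁ s₂ r ε : ℝ} (h₁ : 0 < s₁)
    (hr₁ : s₁ < r) (hr₂ : r < s₂) (hε : ε < 1 / 4) {F : ℂ → E} {a : ℂ → ℂ →L[ℂ] ℂ}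
    (hF : HolOn τ F a {w : ℂ | s₁ < ‖w‖ ∧ ‖w‖ < s₂}) {c : ℂ}
    (ho : ∀ w : ℂ, ‖w‖ = r → F w ∈ τ.disc c ε) :
    ∃ G : ℂ → ℂ, DifferentiableOn ℂ G {w : ℂ | s₁ < ‖w‖ ∧ ‖w‖ < s₂} ∧
      ∀ w ∈ {w : ℂ | s₁ < ‖w‖ ∧ ‖w‖ < s₂}, F w = τ.q (G w) := by
  have hr0 : 0 < r := h₁.trans hr₁
  have h₂ : 0 < s₂ := hr0.trans hr₂
  set S : Set ℂ := {s : ℂ | Real.log s₁ < s.re ∧ s.re < Real.log s₂} with hS
  have hSo : IsOpen S := (isOpen_lt continuous_const Complex.continuous_re).inter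
    (isOpen_lt Complex.continuous_re continuous_const)
  have hSc : Convex ℝ S :=
    (convex_halfSpace_gt Complex.reLm.isLinear _).inter
      (convex_halfSpace_lt Complex.reLm.isLinear _)
  have hSP : ∀ s : ℂ, ∀ n : ℤ, s ∈ S → s + (n : ℂ) * (2 * Real.pi * Complex.I) ∈ S := by
    rintro s n ⟨hs1, hs2⟩
    have : (s + (n : ℂ) * (2 * Real.pi * Complex.I)).re = s.re := by simp
    exact ⟨by rwa [this], by rwa [this]⟩
  have hmap : MapsTo Complex.exp S {w : ℂ | s₁ < ‖w‖ ∧ ‖w‖ < s₂} := by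
    rintro s ⟨hs1, hs2⟩
    rw [mem_ofPred_eq, Complex.norm_exp]
    exact ⟨(Real.log_lt_iff_lt_exp h₁).1 hs1, (Real.lt_log_iff_exp_lt h₂).1 hs2⟩
  have hlog : ∀ w ∈ {w : ℂ | s₁ < ‖w‖ ∧ ‖w‖ < s₂}, Complex.log w ∈ S := by
    rintro w ⟨hw1, hw2⟩
    refine ⟨?_, ?_⟩
    · rw [Complex.log_re]; exact Real.log_lt_log h₁ hw1
    · rw [Complex.log_re]; exact Real.log_lt_log (h₁.trans hw1) hw2
  have hne : ∀ w ∈ {w : ℂ | s₁ < ‖w‖ ∧ ‖w‖ < s₂}, w ≠ 0 := by
    rintro w ⟨hw1, -⟩ rfl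
    rw [norm_zero] at hw1
    exact absurd hw1 (not_lt.2 h₁.le)
  have hcomp := HolOn.comp τ hF hSo Complex.differentiable_exp.differentiableOn hmap
  have hs₀ : ((Real.log r : ℝ) : ℂ) ∈ S := by
    refine ⟨?_, ?_⟩
    · rw [Complex.ofReal_re]; exact Real.log_lt_log h₁ hr₁
    · rw [Complex.ofReal_re]; exact Real.log_lt_log hr0 hr₂
  obtain ⟨g₀, hg₀⟩ := τ.surj (F (Complex.exp ((Real.log r : ℝ) : ℂ)))
  obtain ⟨g, -, hg⟩ := HolOn.exists_lift τ hcomp hSo hSc hs₀ hg₀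
  have hgc : ContinuousOn g S := fun s hs => (hg s hs).2.continuousAt.continuousWithinAt
  -- the circle
  set L : Set ℂ := {s : ℂ | s.re = Real.log r} with hL
  have hLS : L ⊆ S := by
    intro s hs
    rw [hL, mem_ofPred_eq] at hs
    refine ⟨?_, ?_⟩
    · rw [hs]; exact Real.log_lt_log h₁ hr₁
    · rw [hs]; exact Real.log_lt_log hr0 hr₂
  have hLp : IsPreconnected L :=
    (convex_hyperplane Complex.reLm.isLinear (Real.log r)).isPreconnected
  obtain ⟨c', -, hc'⟩ := lift_in_ball τ hLp ⟨_, Complex.ofReal_re _⟩ (hgc.mono hLS) hε (by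
    intro s hs
    rw [← (hg s (hLS hs)).1]
    apply ho
    rw [Complex.norm_exp, show s.re = Real.log r from hs, Real.exp_log hr0])
  -- the period
  have hper : ∀ s ∈ S, g (s + 2 * Real.pi * Complex.I) = g s := by
    have hadd : ∀ s ∈ S, s + 2 * Real.pi * Complex.I ∈ S := by
      intro s hs
      have := hSP s 1 hs
      simpa using this
    have hq : ∀ s ∈ S, τ.q (g (s + 2 * Real.pi * Complex.I)) = τ.q (g s) := by
      intro s hs
      rw [← (hg s hs).1, ← (hg _ (hadd s hs)).1, Complex.exp_periodic]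
    have hcs : ContinuousOn (fun s => g (s + 2 * Real.pi * Complex.I)) S :=
      hgc.comp (by fun_prop) hadd
    intro s hs
    have h0 := Tor.lift_sub τ hSc.isPreconnected hcs hgc hq s hs _ hs₀
    obtain ⟨m, n, hmn⟩ := (τ.eq_iff _ _).1 (hq _ hs₀)
    have h1 := hc' _ (Complex.ofReal_re (Real.log r))
    have h2 := hc' (((Real.log r : ℝ) : ℂ) + 2 * Real.pi * Complex.I) (by
      rw [hL, mem_ofPred_eq]; simp)
    have h3 : ‖(m : ℂ) + (n : ℂ) * Complex.I‖ < 1 := by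
      rw [← hmn]
      calc _ = ‖(g (((Real.log r : ℝ) : ℂ) + 2 * Real.pi * Complex.I) - c') -
            (g ((Real.log r : ℝ) : ℂ) - c')‖ := by congr 1; ring
        _ ≤ _ := norm_sub_le _ _
        _ < 1 := by linarith
    have h4 := gauss_eq_zero h3
    rw [← hmn] at h4
    rw [h4] at h0
    exact sub_eq_zero.1 h0
  refine ⟨fun w => g (Complex.log w), ?_, ?_⟩
  · intro w₀ hw₀
    have hVo : IsOpen {w : ℂ | s₁ < ‖w‖ ∧ ‖w‖ < s₂} :=
      (isOpen_lt continuous_const continuous_norm).inter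
        (isOpen_lt continuous_norm continuous_const)
    have hw0 : w₀ ≠ 0 := hne w₀ hw₀
    set l : ℂ → ℂ := fun w => Complex.log (w / w₀) + Complex.log w₀ with hl
    have hl0 : l w₀ = Complex.log w₀ := by simp [hl, hw0]
    have hld : DifferentiableAt ℂ l w₀ := by
      refine DifferentiableAt.add_const _ ?_
      refine (DifferentiableAt.div_const differentiableAt_id w₀).clog ?_
      show w₀ / w₀ ∈ Complex.slitPlane
      rw [div_self hw0]
      exact Complex.one_mem_slitPlane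
    have hlS : ∀ᶠ w in 𝓝 w₀, l w ∈ S := by
      refine hld.continuousAt.eventually_mem ?_
      rw [hl0]
      exact hSo.mem_nhds (hlog w₀ hw₀)
    have heq : (fun w => g (Complex.log w)) =ᶠ[𝓝 w₀] fun w => g (l w) := by
      filter_upwards [hlS, hVo.mem_nhds hw₀] with w hw1 hw2
      have hw0' : w ≠ 0 := hne w hw2
      have he : Complex.exp (Complex.log w) = Complex.exp (l w) := by
        rw [hl, Complex.exp_add, Complex.exp_log hw0', Complex.exp_log hw0,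
          Complex.exp_log (div_ne_zero hw0' hw0), div_mul_cancel₀ _ hw0]
      obtain ⟨n, hn⟩ := Complex.exp_eq_exp_iff_exists_int.1 he
      show g (Complex.log w) = g (l w)
      rw [hn]
      exact periodic_int hSP hper _ hw1 n
    have hgd : DifferentiableAt ℂ g (l w₀) := by
      rw [hl0]; exact (hg _ (hlog w₀ hw₀)).2.differentiableAt
    exact ((hgd.comp w₀ hld).congr_of_eventuallyEq heq).differentiableWithinAt
  · intro w hw
    have := (hg _ (hlog w hw)).1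
    rwa [Complex.exp_log (hne w hw)] at this

/-- A2. The annulus lemma for maps to `E`. -/
theorem annulus {E : Type*} [TopologicalSpace E] (τ : Tor E) {r₁ r₂ ε : ℝ} (h₁ : 0 < r₁)
    (h₁₂ : r₁ ≤ r₂) (hε : ε < 1 / 4) {F : ℂ → E} {a : ℂ → ℂ →L[ℂ] ℂ} {U : Set ℂ}
    (hU : IsOpen U) (hUs : {w : ℂ | r₁ ≤ ‖w‖ ∧ ‖w‖ ≤ r₂} ⊆ U) (hF : HolOn τ F a U)
    {c₁ c₂ : ℂ} (ho : ∀ w : ℂ, ‖w‖ = r₂ → F w ∈ τ.disc c₂ ε)
    (hi : ∀ w : ℂ, ‖w‖ = r₁ → F w ∈ τ.disc c₁ ε) :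
    (∃ c : ℂ, τ.q c = τ.q c₁ ∧ ‖c - c₂‖ < 2 * ε) ∧
      ∀ w : ℂ, r₁ ≤ ‖w‖ → ‖w‖ ≤ r₂ → F w ∈ τ.disc c₂ (3 * ε) := by
  obtain ⟨s₁, s₂, hs1, hs1r, hs2r, hsub⟩ := exists_annulus_subset h₁ h₁₂ hU hUs
  have h₂ : 0 < r₂ := h₁.trans_le h₁₂
  set V : Set ℂ := {w : ℂ | s₁ < ‖w‖ ∧ ‖w‖ < s₂} with hV
  have hVo : IsOpen V := (isOpen_lt continuous_const continuous_norm).inter
    (isOpen_lt continuous_norm continuous_const)
  obtain ⟨G, hG, hFG⟩ := annulus_lift τ hs1 (hs1r.trans_le h₁₂) hs2r hε (hF.mono τ hsub) ho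
  have hcirc : ∀ r : ℝ, r₁ ≤ r → r ≤ r₂ → ∀ c : ℂ, (∀ w : ℂ, ‖w‖ = r → F w ∈ τ.disc c ε) →
      ∃ c' : ℂ, τ.q c' = τ.q c ∧ ∀ w : ℂ, ‖w‖ = r → ‖G w - c'‖ < ε := by
    intro r hr1 hr2 c hc
    have hr0 : 0 < r := h₁.trans_le hr1
    have hsV : Metric.sphere (0 : ℂ) r ⊆ V := by
      intro w hw
      rw [mem_sphere_iff_norm, sub_zero] at hw
      exact ⟨hs1r.trans_le (hr1.trans hw.ge), (hw.le.trans hr2).trans_lt hs2r⟩
    have hpre : IsPreconnected (Metric.sphere (0 : ℂ) r) := by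
      refine (isConnected_sphere ?_ 0 hr0.le).isPreconnected
      rw [Complex.rank_real_complex]
      exact Nat.one_lt_ofNat
    have hne : (Metric.sphere (0 : ℂ) r).Nonempty :=
      ⟨(r : ℂ), by rw [mem_sphere_iff_norm, sub_zero, Complex.norm_real,
        Real.norm_of_nonneg hr0.le]⟩
    obtain ⟨c', hc', hb⟩ := lift_in_ball τ hpre hne (hG.continuousOn.mono hsV) hε (by
      intro w hw
      rw [← hFG w (hsV hw)]
      exact hc w (by rwa [mem_sphere_iff_norm, sub_zero] at hw))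
    exact ⟨c', hc', fun w hw => hb w (by rwa [mem_sphere_iff_norm, sub_zero])⟩
  obtain ⟨c₂', hc₂', hb₂⟩ := hcirc r₂ h₁₂ le_rfl c₂ ho
  obtain ⟨c₁', hc₁', hb₁⟩ := hcirc r₁ le_rfl h₁₂ c₁ hi
  obtain ⟨hd, hann⟩ := annulus_fun h₁ h₁₂ hVo
    (fun w hw => ⟨hs1r.trans_le hw.1, hw.2.trans_lt hs2r⟩) hG hb₂ hb₁
  obtain ⟨m₁, n₁, hmn₁⟩ := (τ.eq_iff _ _).1 hc₁'
  obtain ⟨m₂, n₂, hmn₂⟩ := (τ.eq_iff _ _).1 hc₂'
  refine ⟨⟨c₁' + (c₂ - c₂'), (τ.eq_iff _ _).2 ⟨m₁ - m₂, n₁ - n₂, ?_⟩, ?_⟩, ?_⟩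
  · have : c₁' + (c₂ - c₂') - c₁ = (c₁' - c₁) - (c₂' - c₂) := by ring
    rw [this, hmn₁, hmn₂]
    push_cast
    ring
  · have : c₁' + (c₂ - c₂') - c₂ = c₁' - c₂' := by ring
    rwa [this]
  · intro w hw1 hw2
    refine ⟨G w - c₂' + c₂, ?_, ?_⟩
    · rw [mem_ball_iff_norm, add_sub_cancel_right]
      exact hann w hw1 hw2
    · rw [hFG w ⟨hs1r.trans_le hw1, hw2.trans_lt hs2r⟩]
      refine (τ.eq_iff _ _).2 ⟨-m₂, -n₂, ?_⟩
      have : G w - c₂' + c₂ - G w = -(c₂' - c₂) := by ring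
      rw [this, hmn₂]
      push_cast
      ring

end Pool.Agent.K708C
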