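import Mathlib

/-!
MP_708a61, Part C (limits of maps to an elliptic curve at a normal crossing fibre).
Basic definitions: the covering `q : ℂ → E` of a torus with period lattice the Gaussian integers,
holomorphic maps to `E` on open subsets of a complex normed space.
-/

open Set Filter Topology MeasureTheory
open scoped ENNReal NNReal

namespace Pool.Agent.K708C

/-- A covering `q : ℂ → E` with deck group the Gaussian integers. -/
structure Tor (E : Type*) [TopologicalSpace E] where
  q : ℂ → E
  cov : IsCoveringMap q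
  surj : Function.Surjective q
  eq_iff : ∀ z w : ℂ, q z = q w ↔ ∃ m n : ℤ, z - w = (m : ℂ) + (n : ℂ) * Complex.I

variable {E : Type*} [TopologicalSpace E]
variable {V : Type*} [NormedAddCommGroup V] [NormedSpace ℂ V]

/-- `F` is near `z` the image of a holomorphic function with derivative `a`. -/
def HolAt (τ : Tor E) (F : V → E) (a : V → V →L[ℂ] ℂ) (z : V) : Prop :=
  ∃ G : V → ℂ, ∀ᶠ w in 𝓝 z, F w = τ.q (G w) ∧ HasFDerivAt G (a w) w

/-- `F` is holomorphic on `U`, with derivative `a`. -/
def HolOn (τ : Tor E) (F : V → E) (a : V → V →L[ℂ] ℂ) (U : Set V) : Prop :=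
  ∀ z ∈ U, HolAt τ F a z

/-- The values of `f n` on the level set `T = t n` near `x` tend to `e` along `u`. -/
def LimAt {P : Type*} [TopologicalSpace P] {B : Type*} (u : Ultrafilter ℕ) (T : P → B)
    (t : ℕ → B) (f : ℕ → P → E) (x : P) (e : E) : Prop :=
  ∀ O ∈ 𝓝 e, ∃ W ∈ 𝓝 x, ∀ᶠ n in (u : Filter ℕ), ∀ w ∈ W, T w = t n → f n w ∈ O

/-- The small disc of radius `ε` around `q c`. -/
def Tor.disc (τ : Tor E) (c : ℂ) (ε : ℝ) : Set E := τ.q '' Metric.ball c ε

end Pool.Agent.K708C
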