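import Mathlib

/-! Task X, part A: area mean value, L2 removable singularities in one variable. -/

open Set Filter Topology MeasureTheory Metric
open scoped ENNReal NNReal Real

namespace Pool.Agent.K708C

namespace ExtA

theorem circle_mean {F : ℂ → ℂ} {z : ℂ} {ρ : ℝ} (hρ : 0 < ρ)
    (hF : DiffContOnCl ℂ F (ball z ρ)) :
    ENNReal.ofReal (2 * π) * ‖F z‖ₑ ≤ ∫⁻ θ in Ioo (-π) π, ‖F (circleMap z ρ θ)‖ₑ := by
  have h1 : Real.circleAverage F z ρ = F z := by
    apply DiffContOnCl.circleAverage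
    rwa [abs_of_pos hρ]
  rw [Real.circleAverage_def] at h1
  have hper : Function.Periodic (fun θ => F (circleMap z ρ θ)) (2 * π) := fun θ => by
    show F (circleMap z ρ (θ + 2 * π)) = _
    rw [periodic_circleMap z ρ θ]
  have h2 : ∫ θ in (0 : ℝ)..2 * π, F (circleMap z ρ θ) =
      ∫ θ in (-π)..π, F (circleMap z ρ θ) := by
    have := hper.intervalIntegral_add_eq 0 (-π)
    simp only [zero_add] at this
    rw [this]
    congr 1
    ring
  have h3 : ‖F z‖ₑ ≤ ENNReal.ofReal (2 * π)⁻¹ * ∫⁻ θ in Ioo (-π) π, ‖F (circleMap z ρ θ)‖ₑ := by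
    conv_lhs => rw [← h1]
    rw [enorm_smul, h2, intervalIntegral.integral_of_le (by linarith [Real.pi_pos])]
    refine mul_le_mul' ?_ ?_
    · rw [Real.enorm_eq_ofReal (by positivity)]
    · refine (enorm_integral_le_lintegral_enorm _).trans (le_of_eq ?_)
      exact setLIntegral_congr Ioo_ae_eq_Ioc.symm
  calc ENNReal.ofReal (2 * π) * ‖F z‖ₑ ≤ ENNReal.ofReal (2 * π) * (ENNReal.ofReal (2 * π)⁻¹ *
        ∫⁻ θ in Ioo (-π) π, ‖F (circleMap z ρ θ)‖ₑ) := mul_le_mul' le_rfl h3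
    _ = _ := by
      rw [← mul_assoc, ← ENNReal.ofReal_mul (by positivity), mul_inv_cancel₀ (by positivity),
        ENNReal.ofReal_one, one_mul]

theorem measurable_ind {X : Type*} [TopologicalSpace X] [MeasurableSpace X] [OpensMeasurableSpace X]
    {f : X → ℂ} {s : Set X} (hf : ContinuousOn f s) (hs : MeasurableSet s) :
    Measurable (s.indicator f) := by
  classical
  have := ContinuousOn.measurable_piecewise hf (g := fun _ => 0) continuousOn_const hs
  exact this

theorem area_mean {f : ℂ → ℂ} {z : ℂ} {R : ℝ} (hR : 0 < R) (hf : DifferentiableOn ℂ f (ball z R)) :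
    ENNReal.ofReal (π * R ^ 2) * ‖f z‖ₑ ^ 2 ≤ ∫⁻ w in ball z R, ‖f w‖ₑ ^ 2 := by
  set h : ℂ → ℝ≥0∞ := fun w => ‖(ball (0 : ℂ) R).indicator (fun v => f (z + v)) w‖ₑ ^ 2 with hh
  have hmeas : Measurable h := by
    have h1 : Measurable ((ball (0 : ℂ) R).indicator (fun v => f (z + v))) := by
      apply measurable_ind _ measurableSet_ball
      apply hf.continuousOn.comp (by fun_prop)
      intro v hv
      simpa [mem_ball, dist_eq_norm] using hv
    exact h1.enorm.pow_const 2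
  have e1 : ∫⁻ w in ball z R, ‖f w‖ₑ ^ 2 = ∫⁻ w, h w := by
    rw [← lintegral_indicator measurableSet_ball, ← lintegral_add_left_eq_self _ z]
    refine lintegral_congr fun w => ?_
    by_cases hw : w ∈ ball (0 : ℂ) R
    · have h2 : z + w ∈ ball z R := by simpa [mem_ball, dist_eq_norm] using hw
      rw [indicator_of_mem h2, hh]
      simp only
      rw [indicator_of_mem hw]
    · have h2 : z + w ∉ ball z R := by simpa [mem_ball, dist_eq_norm] using hw
      rw [indicator_of_notMem h2, hh]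
      simp only
      rw [indicator_of_notMem hw]
      simp
  have e2 : ∀ ρ ∈ Ioo (0 : ℝ) R, ENNReal.ofReal (2 * π) * ‖f z‖ₑ ^ 2 ≤
      ∫⁻ θ in Ioo (-π) π, h (Complex.polarCoord.symm (ρ, θ)) := by
    intro ρ hρ
    have h1 : DiffContOnCl ℂ (fun w => f w ^ 2) (ball z ρ) := by
      apply DifferentiableOn.diffContOnCl
      rw [closure_ball z hρ.1.ne']
      intro w hw
      have h2 : w ∈ ball z R := lt_of_le_of_lt (mem_closedBall.mp hw) hρ.2
      exact ((hf w h2).differentiableAt (isOpen_ball.mem_nhds h2)).differentiableWithinAt.pow 2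
    have h3 := circle_mean hρ.1 h1
    simp only [enorm_pow] at h3
    refine h3.trans (le_of_eq ?_)
    refine lintegral_congr fun θ => ?_
    have h4 : Complex.polarCoord.symm (ρ, θ) = circleMap 0 ρ θ := by
      rw [Complex.polarCoord_symm_apply, circleMap_zero, Complex.exp_mul_I]
      push_cast
      ring
    have h5 : circleMap 0 ρ θ ∈ ball (0 : ℂ) R := by
      simp [abs_of_pos hρ.1, hρ.2]
    rw [hh]
    simp only
    rw [h4, indicator_of_mem h5]
    congr 3
    simp [circleMap]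
  rw [e1, ← Complex.lintegral_comp_polarCoord_symm h]
  have e3 : polarCoord.target = Ioi (0 : ℝ) ×ˢ Ioo (-π) π := rfl
  have hcont : Continuous fun p : ℝ × ℝ => Complex.polarCoord.symm p := by
    simp only [Complex.polarCoord_symm_apply]
    fun_prop
  rw [e3, Measure.volume_eq_prod, ← Measure.prod_restrict, lintegral_prod _ (by
    apply Measurable.aemeasurable
    simp only [smul_eq_mul]
    exact (ENNReal.measurable_ofReal.comp measurable_fst).mul (hmeas.comp hcont.measurable))]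
  have e4 : ∫⁻ ρ in Ioo (0 : ℝ) R, ENNReal.ofReal ρ * (ENNReal.ofReal (2 * π) * ‖f z‖ₑ ^ 2) ≤
      ∫⁻ ρ in Ioi (0 : ℝ), ∫⁻ θ in Ioo (-π) π,
        ENNReal.ofReal ρ • h (Complex.polarCoord.symm (ρ, θ)) := by
    refine le_trans ?_ (lintegral_mono_set (show Ioo (0 : ℝ) R ⊆ Ioi 0 from fun x hx => hx.1))
    refine setLIntegral_mono' measurableSet_Ioo fun ρ hρ => ?_
    simp only [smul_eq_mul]
    rw [lintegral_const_mul' _ _ ENNReal.ofReal_ne_top]
    exact mul_le_mul' le_rfl (e2 ρ hρ)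
  refine le_trans (le_of_eq ?_) e4
  rw [lintegral_mul_const _ ENNReal.measurable_ofReal]
  have e5 : ∫⁻ ρ in Ioo (0 : ℝ) R, ENNReal.ofReal ρ = ENNReal.ofReal (R ^ 2 / 2) := by
    rw [← ofReal_integral_eq_lintegral_ofReal]
    · rw [← integral_Ioc_eq_integral_Ioo, ← intervalIntegral.integral_of_le hR.le, integral_id]
      congr 1
      ring
    · apply (continuous_id.integrableOn_Icc (a := 0) (b := R)).mono_set Ioo_subset_Icc_self
    · exact (ae_restrict_iff' measurableSet_Ioo).mpr (Eventually.of_forall fun x hx => hx.1.le)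
  rw [e5, ← mul_assoc, ← ENNReal.ofReal_mul (by positivity)]
  congr 2
  ring

/-- Square integrable functions on the punctured disc are `o(1/z)`. -/
theorem isLittleO_of_L2 {f : ℂ → ℂ} {r : ℝ} (hr : 0 < r)
    (hf : DifferentiableOn ℂ f (ball 0 r \ {0}))
    (hL : ∫⁻ w in ball 0 r \ {0}, ‖f w‖ₑ ^ 2 < ∞) :
    f =o[𝓝[≠] 0] fun z => (z - 0)⁻¹ := by
  have h1 : Tendsto (fun z : ℂ => ∫⁻ w in ball 0 (2 * ‖z‖), ‖f w‖ₑ ^ 2
      ∂(volume.restrict (ball 0 r \ {0}))) (𝓝[≠] 0) (𝓝 0) := by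
    apply tendsto_setLIntegral_zero hL.ne
    have h2 : Tendsto (fun z : ℂ => volume (ball (0 : ℂ) (2 * ‖z‖))) (𝓝[≠] 0) (𝓝 0) := by
      simp only [Complex.volume_ball]
      have h3 : Tendsto (fun z : ℂ => 2 * ‖z‖) (𝓝[≠] 0) (𝓝 0) := by
        have : Tendsto (fun z : ℂ => 2 * ‖z‖) (𝓝 0) (𝓝 (2 * ‖(0 : ℂ)‖)) :=
          (continuous_const.mul continuous_norm).tendsto 0
        rw [norm_zero, mul_zero] at this
        exact this.mono_left nhdsWithin_le_nhds
      have h4 := ENNReal.Tendsto.pow (n := 2) (ENNReal.tendsto_ofReal h3)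
      rw [ENNReal.ofReal_zero, zero_pow two_ne_zero] at h4
      have h5 := ENNReal.Tendsto.mul_const (b := (NNReal.pi : ℝ≥0∞)) h4
        (Or.inr ENNReal.coe_ne_top)
      rwa [zero_mul] at h5
    exact tendsto_of_tendsto_of_tendsto_of_le_of_le tendsto_const_nhds h2 (fun _ => bot_le)
      (fun z => Measure.restrict_apply_le _ _)
  rw [Asymptotics.isLittleO_iff]
  intro c hc
  have h6 : ∀ᶠ z : ℂ in 𝓝[≠] 0, ‖z‖ < r / 2 := by
    have : ∀ᶠ z : ℂ in 𝓝 0, z ∈ ball (0 : ℂ) (r / 2) := ball_mem_nhds _ (by positivity)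
    refine (this.filter_mono nhdsWithin_le_nhds).mono fun z hz => ?_
    simpa using hz
  have h7 : ∀ᶠ z : ℂ in 𝓝[≠] 0, z ≠ 0 := eventually_mem_nhdsWithin
  have h8 := h1.eventually_lt_const (u := ENNReal.ofReal (π * c ^ 2)) (by
    rw [ENNReal.ofReal_pos]
    positivity)
  filter_upwards [h6, h7, h8] with z h6 h7 h8
  have hz : 0 < ‖z‖ := norm_pos_iff.mpr h7
  have hsub : ball z ‖z‖ ⊆ ball 0 (2 * ‖z‖) ∩ (ball 0 r \ {0}) := by
    intro w hw
    rw [mem_ball, dist_eq_norm] at hw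
    have h9 : ‖w‖ < 2 * ‖z‖ := by
      have := norm_add_le (w - z) z
      rw [sub_add_cancel] at this
      linarith
    refine ⟨by simpa using h9, by simpa using (by linarith : ‖w‖ < r), ?_⟩
    intro h0
    rw [mem_singleton_iff] at h0
    rw [h0, zero_sub, norm_neg] at hw
    exact lt_irrefl _ hw
  have h10 := area_mean hz (hf.mono (hsub.trans inter_subset_right))
  rw [Measure.restrict_restrict measurableSet_ball] at h8
  have h11 := (h10.trans (lintegral_mono_set hsub)).trans_lt h8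
  have h12 : ‖f z‖ₑ = ENNReal.ofReal ‖f z‖ := (ofReal_norm _).symm
  rw [h12, ← ENNReal.ofReal_pow (norm_nonneg _), ← ENNReal.ofReal_mul (by positivity),
    ENNReal.ofReal_lt_ofReal_iff (by positivity), mul_assoc] at h11
  have h13 : ‖z‖ ^ 2 * ‖f z‖ ^ 2 < c ^ 2 := lt_of_mul_lt_mul_left h11 Real.pi_pos.le
  rw [← mul_pow] at h13
  have h14 : ‖z‖ * ‖f z‖ < c := lt_of_pow_lt_pow_left₀ 2 hc.le h13
  rw [sub_zero, norm_inv, ← div_eq_mul_inv, le_div_iff₀ hz]
  linarith [mul_comm ‖z‖ ‖f z‖]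

/-- L2 removable singularity. -/
theorem extend_one_var {f : ℂ → ℂ} {r : ℝ} (hr : 0 < r)
    (hf : DifferentiableOn ℂ f (ball 0 r \ {0}))
    (hL : ∫⁻ w in ball 0 r \ {0}, ‖f w‖ₑ ^ 2 < ∞) :
    ∃ f' : ℂ → ℂ, DifferentiableOn ℂ f' (ball 0 r) ∧ ∀ z ≠ 0, f' z = f z := by
  have ho := isLittleO_of_L2 hr hf hL
  refine ⟨Function.update f 0 (limUnder (𝓝[≠] 0) f), ?_, fun z hz => Function.update_of_ne hz _ _⟩
  apply Complex.differentiableOn_update_limUnder_of_isLittleO (ball_mem_nhds _ hr) hf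
  refine ho.sub ?_
  rw [Asymptotics.isLittleO_const_left]
  right
  have h1 : Tendsto (fun z : ℂ => (z - 0)⁻¹) (𝓝[≠] 0) (Bornology.cobounded ℂ) := by
    simp only [sub_zero]
    exact tendsto_inv₀_nhdsNE_zero
  exact tendsto_norm_cobounded_atTop.comp h1

end ExtA

end Pool.Agent.K708C
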